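import Pool.Agent.H62.NegCurv.Negative

/-!
# The axis of a hyperbolic element and its calibration
-/

open scoped RealInnerProductSpace ContDiff Topology

namespace Pool.Agent.H62.NegCurv

/-- first root -/
noncomputable def rr : V := vec 1 3 0 0
/-- second root -/
noncomputable def rs : V := vec 0 (-1) 1 0

lemma isInt_rr : IsInt rr := by simpa [rr] using isInt_vec 1 3 0 0
lemma isInt_rs : IsInt rs := by simpa [rs] using isInt_vec 0 (-1) 1 0

lemma F_rr : F rr rr = 2 := by rw [F_coord]; simp [rr]; norm_num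
lemma F_rs : F rs rs = 2 := by rw [F_coord]; simp [rs]; norm_num
lemma F_rrs : F rr rs = -3 := by rw [F_coord]; simp [rr, rs]
lemma F_rsr : F rs rr = -3 := by rw [F_comm, F_rrs]

lemma v0_eq : v0 = rr + rs := by
  apply ext_coord <;> simp [v0, rr, rs]; norm_num

/-- the two ends of the axis -/
noncomputable def sp : ℝ := (3 + Real.sqrt 5) / 2
/-- the two ends of the axis -/
noncomputable def sm : ℝ := (3 - Real.sqrt 5) / 2

lemma s5 : Real.sqrt 5 ^ 2 = 5 := Real.sq_sqrt (by norm_num)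
lemma s5_gt : 2 < Real.sqrt 5 := Real.lt_sqrt_of_sq_lt (by norm_num)
lemma s5_lt : Real.sqrt 5 < 3 := by
  rw [Real.sqrt_lt' (by norm_num)]; norm_num

lemma sp_sq : sp ^ 2 = 3 * sp - 1 := by unfold sp; have := s5; nlinarith
lemma sm_sq : sm ^ 2 = 3 * sm - 1 := by unfold sm; have := s5; nlinarith
lemma sp_add : sp + sm = 3 := by unfold sp sm; ring
lemma sp_mul : sp * sm = 1 := by unfold sp sm; have := s5; nlinarith
lemma sm_pos : 0 < sm := by unfold sm; have := s5_lt; linarith
lemma sp_gt : 2 < sp := by unfold sp; have := s5_gt; linarith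
lemma sm_lt : sm < 1 := by unfold sm; have := s5_gt; linarith

/-- null vector -/
noncomputable def np : V := rr + sp • rs
/-- null vector -/
noncomputable def nm : V := rr + sm • rs

lemma F_np : F np np = 0 := by
  unfold np
  simp only [F_add_left, F_add_right, F_smul_left, F_smul_right, F_rr, F_rs, F_rrs, F_rsr]
  linear_combination 2 * sp_sq

lemma F_nm : F nm nm = 0 := by
  unfold nm
  simp only [F_add_left, F_add_right, F_smul_left, F_smul_right, F_rr, F_rs, F_rrs, F_rsr]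
  linear_combination 2 * sm_sq

lemma F_npm : F np nm = -5 := by
  unfold np nm
  simp only [F_add_left, F_add_right, F_smul_left, F_smul_right, F_rr, F_rs, F_rrs, F_rsr]
  linear_combination 2 * sp_mul - 3 * sp_add

lemma np_fst : np.1 = 1 := by simp [np, rr, rs]
lemma nm_fst : nm.1 = 1 := by simp [nm, rr, rs]

/-- multiplier -/
noncomputable def lam : ℝ := 3 * sp - 1

lemma lam_gt : 1 < lam := by unfold lam; linarith [sp_gt]

lemma lam_inv : lam⁻¹ = 3 * sm - 1 := by
  have h : lam * (3 * sm - 1) = 1 := by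
    unfold lam
    linear_combination 9 * sp_mul - 3 * sp_add
  exact inv_eq_of_mul_eq_one_right h

lemma rr_pos : 0 < F rr rr := by rw [F_rr]; norm_num
lemma rs_pos : 0 < F rs rs := by rw [F_rs]; norm_num

/-- translation along the axis -/
noncomputable def axA : V ≃L[ℝ] V := refl rr rr_pos.ne' * refl rs rs_pos.ne'

lemma axA_Lam : axA ∈ Lam :=
  Lam.mul_mem (refl_mem_Lam isInt_rr (Or.inr F_rr) rr_pos)
    (refl_mem_Lam isInt_rs (Or.inr F_rs) rs_pos)

/-- `γ` translates along the axis with multiplier `μ` -/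
structure Eig (γ : V ≃L[ℝ] V) (μ : ℝ) : Prop where
  mem : γ ∈ Lam
  pos : 0 < μ
  p : γ⁻¹ np = μ • np
  m : γ⁻¹ nm = μ⁻¹ • nm

lemma Eig.one : Eig 1 1 := ⟨Lam.one_mem, one_pos, by rw [inv_one, one_app, one_smul],
  by rw [inv_one, one_app, inv_one, one_smul]⟩

lemma Eig.mul {γ γ' : V ≃L[ℝ] V} {μ μ' : ℝ} (h : Eig γ μ) (h' : Eig γ' μ') :
    Eig (γ * γ') (μ * μ') where
  mem := Lam.mul_mem h.mem h'.mem
  pos := mul_pos h.pos h'.pos
  p := by rw [mul_inv_rev, mul_app, h.p, map_smul, h'.p, smul_smul]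
  m := by rw [mul_inv_rev, mul_app, h.m, map_smul, h'.m, smul_smul, mul_inv]

lemma Eig.inv {γ : V ≃L[ℝ] V} {μ : ℝ} (h : Eig γ μ) : Eig γ⁻¹ μ⁻¹ where
  mem := Lam.inv_mem h.mem
  pos := inv_pos.mpr h.pos
  p := by
    rw [inv_inv]
    have h1 := app_inv_self γ np
    rw [h.p, map_smul] at h1
    rw [← h1, smul_smul, inv_mul_cancel₀ h.pos.ne', one_smul, h1]
  m := by
    rw [inv_inv, inv_inv]
    have h1 := app_inv_self γ nm
    rw [h.m, map_smul] at h1
    rw [← h1, smul_smul, mul_inv_cancel₀ h.pos.ne', one_smul, h1]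

lemma Eig.pow {γ : V ≃L[ℝ] V} {μ : ℝ} (h : Eig γ μ) (n : ℕ) : Eig (γ ^ n) (μ ^ n) := by
  induction n with
  | zero => rw [pow_zero, pow_zero]; exact Eig.one
  | succ n ih => rw [pow_succ, pow_succ]; exact ih.mul h

lemma Eig.zpow {γ : V ≃L[ℝ] V} {μ : ℝ} (h : Eig γ μ) (n : ℤ) : Eig (γ ^ n) (μ ^ n) := by
  obtain ⟨m, rfl | rfl⟩ := n.eq_nat_or_neg
  · rw [zpow_natCast, zpow_natCast]; exact h.pow m
  · rw [zpow_neg, zpow_neg, zpow_natCast, zpow_natCast]; exact (h.pow m).inv

lemma eig_axA : Eig axA lam where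
  mem := axA_Lam
  pos := by linarith [lam_gt]
  p := by
    have e : axA⁻¹ np = refl rs rs_pos.ne' (refl rr rr_pos.ne' np) := rfl
    rw [e]
    have e1 : refl rr rr_pos.ne' np = (3 * sp - 1) • rr + sp • rs := by
      rw [refl_apply]
      unfold np
      simp only [F_add_left, F_smul_left, F_rr, F_rsr]
      module
    rw [e1, refl_apply]
    simp only [F_add_left, F_smul_left, F_rs, F_rrs]
    have e2 : (8 * sp - 3) = lam * sp := by unfold lam; linear_combination -3 * sp_sq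
    have e3 : (3 * sp - 1) • rr + sp • rs - (2 * ((3 * sp - 1) * -3 + sp * 2) / 2) • rs =
        (3 * sp - 1) • rr + (8 * sp - 3) • rs := by module
    rw [e3, e2]
    unfold np lam
    module
  m := by
    have e : axA⁻¹ nm = refl rs rs_pos.ne' (refl rr rr_pos.ne' nm) := rfl
    rw [e, lam_inv]
    have e1 : refl rr rr_pos.ne' nm = (3 * sm - 1) • rr + sm • rs := by
      rw [refl_apply]
      unfold nm
      simp only [F_add_left, F_smul_left, F_rr, F_rsr]
      module
    rw [e1, refl_apply]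
    simp only [F_add_left, F_smul_left, F_rs, F_rrs]
    have e2 : (8 * sm - 3) = (3 * sm - 1) * sm := by linear_combination -3 * sm_sq
    have e3 : (3 * sm - 1) • rr + sm • rs - (2 * ((3 * sm - 1) * -3 + sm * 2) / 2) • rs =
        (3 * sm - 1) • rr + (8 * sm - 3) • rs := by module
    rw [e3, e2]
    unfold nm
    module

/-- first null coordinate -/
noncomputable def Ap (x : E3) : ℝ := - F (hat x) np
/-- second null coordinate -/
noncomputable def Am (x : E3) : ℝ := - F (hat x) nm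

lemma Ap_pos {x : E3} (hx : x ∈ U) : 0 < Ap x := by
  have := F_neg_of_fut (isFut_hat hx) F_np.le (by rw [np_fst]; norm_num)
  unfold Ap; linarith

lemma Am_pos {x : E3} (hx : x ∈ U) : 0 < Am x := by
  have := F_neg_of_fut (isFut_hat hx) F_nm.le (by rw [nm_fst]; norm_num)
  unfold Am; linarith

lemma Ap_act {γ : V ≃L[ℝ] V} {μ : ℝ} (h : Eig γ μ) {x : E3} (hx : x ∈ U) :
    Ap (act γ x) = ((γ (hat x)).1)⁻¹ * (μ * Ap x) := by
  unfold Ap; rw [F_hat_act h.mem hx, h.p, F_smul_right]; ring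

lemma Am_act {γ : V ≃L[ℝ] V} {μ : ℝ} (h : Eig γ μ) {x : E3} (hx : x ∈ U) :
    Am (act γ x) = ((γ (hat x)).1)⁻¹ * (μ⁻¹ * Am x) := by
  unfold Am; rw [F_hat_act h.mem hx, h.m, F_smul_right]; ring

/-- the coordinate along the axis -/
noncomputable def TT (x : E3) : ℝ := (Real.log (Ap x) - Real.log (Am x)) / 2

lemma TT_act {γ : V ≃L[ℝ] V} {μ : ℝ} (h : Eig γ μ) {x : E3} (hx : x ∈ U) :
    TT (act γ x) = TT x + Real.log μ := by
  have h1 : ((γ (hat x)).1)⁻¹ ≠ 0 := (inv_pos.mpr (fut_img h.mem hx).2).ne'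
  have h2 := (Ap_pos hx).ne'
  have h3 := (Am_pos hx).ne'
  have h4 := h.pos.ne'
  unfold TT
  rw [Ap_act h hx, Am_act h hx, Real.log_mul h1 (mul_ne_zero h4 h2), Real.log_mul h4 h2,
    Real.log_mul h1 (mul_ne_zero (inv_ne_zero h4) h3), Real.log_mul (inv_ne_zero h4) h3,
    Real.log_inv μ]
  ring

/-- the squared hyperbolic cosine of the distance to the axis -/
noncomputable def ss (x : E3) : ℝ := 2 * (Ap x * Am x) / (5 * rho x)

lemma ss_act {γ : V ≃L[ℝ] V} {μ : ℝ} (h : Eig γ μ) {x : E3} (hx : x ∈ U) :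
    ss (act γ x) = ss x := by
  have h1 : (γ (hat x)).1 ≠ 0 := (fut_img h.mem hx).2.ne'
  have h4 := h.pos.ne'
  have h5 := (mem_U.mp hx).ne'
  unfold ss
  rw [Ap_act h hx, Am_act h hx, rho_act h.mem hx]
  field_simp

lemma one_le_ss {x : E3} (hx : x ∈ U) : 1 ≤ ss x := by
  have hρ := mem_U.mp hx
  have h1 := Ap_pos hx
  have h2 := Am_pos hx
  have h3 := rev_cs (F_hat_neg hx) (Am x • np + Ap x • nm)
  have e1 : F (Am x • np + Ap x • nm) (Am x • np + Ap x • nm) = -10 * (Ap x * Am x) := by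
    simp only [F_add_left, F_add_right, F_smul_left, F_smul_right, F_np, F_nm, F_npm, F_comm nm np]
    ring
  have e2 : F (hat x) (Am x • np + Ap x • nm) = -2 * (Ap x * Am x) := by
    simp only [F_add_right, F_smul_right]
    have a1 : F (hat x) np = - Ap x := by unfold Ap; ring
    have a2 : F (hat x) nm = - Am x := by unfold Am; ring
    rw [a1, a2]; ring
  rw [e1, e2, F_hat_self] at h3
  unfold ss
  rw [le_div_iff₀ (by positivity)]
  have h4 : 0 < Ap x * Am x := mul_pos h1 h2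
  have h5 : (Ap x * Am x) * (5 * rho x) ≤ (Ap x * Am x) * (2 * (Ap x * Am x)) := by nlinarith
  have := le_of_mul_le_mul_left h5 h4
  linarith

/-- the derivative of the coordinate along the axis -/
noncomputable def dT (x : E3) : E3 →L[ℝ] ℝ :=
  (-(1 / 2) : ℝ) • ((Ap x)⁻¹ • ip np.2 - (Am x)⁻¹ • ip nm.2)

lemma dT_apply (x v : E3) : dT x v = -(1 / 2) * ((Ap x)⁻¹ * ip np.2 v - (Am x)⁻¹ * ip nm.2 v) :=
  rfl

lemma hasFDerivAt_TT {x : E3} (hx : x ∈ U) : HasFDerivAt TT (dT x) x := by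
  have h1 : HasFDerivAt Ap (-(ip np.2)) x := (hasFDerivAt_l np x).neg
  have h2 : HasFDerivAt Am (-(ip nm.2)) x := (hasFDerivAt_l nm x).neg
  have h3 := (h1.log (Ap_pos hx).ne').sub (h2.log (Am_pos hx).ne')
  have h4 := h3.const_smul (1 / 2 : ℝ)
  have e : TT = (1 / 2 : ℝ) • ((fun x => Real.log (Ap x)) - fun x => Real.log (Am x)) := by
    funext y
    simp only [TT, Pi.smul_apply, Pi.sub_apply, smul_eq_mul]
    ring
  rw [e]
  apply h4.congr_fderiv
  ext v
  simp only [dT_apply, smul_apply, sub_apply, neg_apply, smul_eq_mul]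
  ring

lemma continuous_Ap : Continuous Ap := (continuous_F_hat np).neg
lemma continuous_Am : Continuous Am := (continuous_F_hat nm).neg

lemma continuousOn_dT : ContinuousOn dT U := by
  unfold dT
  apply ContinuousOn.fun_smul continuousOn_const
  apply ContinuousOn.sub
  · apply ContinuousOn.fun_smul _ continuousOn_const
    exact continuous_Ap.continuousOn.inv₀ (fun x hx => (Ap_pos hx).ne')
  · apply ContinuousOn.fun_smul _ continuousOn_const
    exact continuous_Am.continuousOn.inv₀ (fun x hx => (Am_pos hx).ne')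

lemma ip_eq_F (v : V) (z : E3) : ip v.2 z = F (0, z) v := by
  simp [F, real_inner_comm]

/-- the basic estimate -/
lemma dT_est {x : E3} (hx : x ∈ U) (v : E3) : ss x * dT x v ^ 2 ≤ gK x v v := by
  have hρ := mem_U.mp hx
  have h1 := Ap_pos hx
  have h2 := Am_pos hx
  have a1 : F (hat x) np = - Ap x := by unfold Ap; ring
  have a2 : F (hat x) nm = - Am x := by unfold Am; ring
  have h3 := mf_cs (F_hat_neg hx) (0, v) (Am x • np - Ap x • nm)
  have e0 : F (Am x • np - Ap x • nm) (hat x) = 0 := by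
    rw [F_comm]
    simp only [F_sub_right, F_smul_right, a1, a2]; ring
  have e1 : mf (hat x) (0, v) (Am x • np - Ap x • nm) = -2 * (Ap x * Am x) * dT x v := by
    unfold mf
    rw [e0, dT_apply, ip_eq_F np, ip_eq_F nm]
    simp only [F_sub_right, F_smul_right]
    field_simp
    ring
  have e2 : mf (hat x) (Am x • np - Ap x • nm) (Am x • np - Ap x • nm) = 10 * (Ap x * Am x) := by
    unfold mf
    rw [e0]
    simp only [F_sub_left, F_sub_right, F_smul_left, F_smul_right, F_np, F_nm, F_npm,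
      F_comm nm np]
    ring
  rw [e1, e2] at h3
  rw [gK_eq_mf hx, le_div_iff₀ hρ]
  set m := mf (hat x) (0, v) (0, v) with hm
  have h4 : 0 < Ap x * Am x := mul_pos h1 h2
  set P := Ap x * Am x with hP
  have h5 : P * (2 * P * dT x v ^ 2) ≤ P * (5 * m) := by nlinarith
  have h6 := le_of_mul_le_mul_left h5 h4
  unfold ss
  rw [← hP]
  have e3 : 2 * P / (5 * rho x) * dT x v ^ 2 * rho x = (2 * P * dT x v ^ 2) / 5 := by
    field_simp
  rw [e3]
  linarith

lemma Ap_x0 : Ap x0 = 1 + sp := by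
  unfold Ap np
  rw [hat_x0, v0_eq]
  simp only [F_add_left, F_add_right, F_smul_right, F_rr, F_rs, F_rrs, F_rsr]
  ring

lemma Am_x0 : Am x0 = 1 + sm := by
  unfold Am nm
  rw [hat_x0, v0_eq]
  simp only [F_add_left, F_add_right, F_smul_right, F_rr, F_rs, F_rrs, F_rsr]
  ring

lemma F_hat_v0 (x : E3) : F (hat x) v0 = -((1 + sm) * Ap x + (1 + sp) * Am x) / 5 := by
  have e : v0 = ((1 + sm) / 5) • np + ((1 + sp) / 5) • nm := by
    rw [v0_eq]
    unfold np nm
    have h1 : (1 + sm) / 5 + (1 + sp) / 5 = 1 := by linear_combination sp_add / 5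
    have h2 : (1 + sm) / 5 * sp + (1 + sp) / 5 * sm = 1 := by
      linear_combination sp_add / 5 + 2 / 5 * sp_mul
    have h3 : ((1 + sm) / 5) • (rr + sp • rs) + ((1 + sp) / 5) • (rr + sm • rs) =
        ((1 + sm) / 5 + (1 + sp) / 5) • rr + ((1 + sm) / 5 * sp + (1 + sp) / 5 * sm) • rs := by
      module
    rw [h3, h1, h2, one_smul, one_smul]
  rw [e, F_add_right, F_smul_right, F_smul_right]
  unfold Ap Am
  ring

lemma exp_TT {x : E3} (hx : x ∈ U) : Real.exp (2 * (TT x - TT x0)) =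
    (Ap x * (1 + sm)) / (Am x * (1 + sp)) := by
  have h1 := Ap_pos hx
  have h2 := Am_pos hx
  have h3 : 0 < 1 + sp := by linarith [sp_gt]
  have h4 : 0 < 1 + sm := by linarith [sm_pos]
  have e : 2 * (TT x - TT x0) =
      Real.log ((Ap x * (1 + sm)) / (Am x * (1 + sp))) := by
    unfold TT
    rw [Ap_x0, Am_x0, Real.log_div (mul_pos h1 h4).ne' (mul_pos h2 h3).ne',
      Real.log_mul h1.ne' h4.ne', Real.log_mul h2.ne' h3.ne']
    ring
  rw [e, Real.exp_log (div_pos (mul_pos h1 h4) (mul_pos h2 h3))]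

lemma q_v0_eq {x : E3} (hx : x ∈ U) :
    q v0 x = ss x * (1 + Real.cosh (2 * (TT x - TT x0))) := by
  have hρ := mem_U.mp hx
  have h1 := Ap_pos hx
  have h2 := Am_pos hx
  have h3 : 0 < 1 + sp := by linarith [sp_gt]
  have h4 : 0 < 1 + sm := by linarith [sm_pos]
  have h5 : (1 + sp) * (1 + sm) = 5 := by linear_combination sp_add + sp_mul
  rw [Real.cosh_eq, Real.exp_neg, exp_TT hx]
  unfold q ss
  rw [F_hat_v0]
  have e1 : 1 + ((Ap x * (1 + sm)) / (Am x * (1 + sp)) +
      ((Ap x * (1 + sm)) / (Am x * (1 + sp)))⁻¹) / 2 =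
      ((1 + sm) * Ap x + (1 + sp) * Am x) ^ 2 / (2 * (Ap x * Am x) * ((1 + sp) * (1 + sm))) := by
    field_simp
    ring
  rw [e1, h5]
  field_simp

end Pool.Agent.H62.NegCurv
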