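import Pool.Agent.H62.NegCurv.Axis

/-!
# The axis lies in the region, and the reflected axis avoids the bumps
-/

open scoped RealInnerProductSpace ContDiff Topology

namespace Pool.Agent.H62.NegCurv

/-- orthogonal projection to the plane of the axis -/
noncomputable def prj (w : V) : V :=
  (-(2 * F rr w + 3 * F rs w) / 5) • rr + (-(3 * F rr w + 2 * F rs w) / 5) • rs

/-- minus five times the norm of the projection -/
noncomputable def QQ (w : V) : ℝ := 2 * F rr w ^ 2 + 6 * F rr w * F rs w + 2 * F rs w ^ 2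

lemma F_rr_prj (w : V) : F rr (prj w) = F rr w := by
  unfold prj
  simp only [F_add_right, F_smul_right, F_rr, F_rrs]
  ring

lemma F_rs_prj (w : V) : F rs (prj w) = F rs w := by
  unfold prj
  simp only [F_add_right, F_smul_right, F_rs, F_rsr]
  ring

lemma F_prj (w : V) : F (prj w) (prj w) = - QQ w / 5 := by
  have h : F (prj w) (prj w) = (-(2 * F rr w + 3 * F rs w) / 5) * F rr (prj w) +
      (-(3 * F rr w + 2 * F rs w) / 5) * F rs (prj w) := by
    conv_lhs => arg 1; unfold prj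
    rw [F_add_left, F_smul_left, F_smul_left]
  rw [h, F_rr_prj, F_rs_prj]
  unfold QQ
  ring

lemma QQ_ge (w : V) : -(5 * F w w) ≤ QQ w := by
  have h1 : F (w - prj w) (w - prj w) = F w w + QQ w / 5 := by
    have h2 : F (prj w) w = F (prj w) (prj w) := by
      conv_lhs => arg 1; unfold prj
      conv_rhs => arg 1; unfold prj
      simp only [F_add_left, F_smul_left, F_rr_prj, F_rs_prj]
    simp only [F_sub_left, F_sub_right, F_comm w (prj w), h2, F_prj]
    ring
  have h3 : 0 ≤ F (w - prj w) (w - prj w) := by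
    apply pos_of_orth (a := v0) (by rw [F_v0]; norm_num)
    rw [v0_eq, F_add_left, F_sub_right, F_sub_right, F_rr_prj, F_rs_prj]
    ring
  rw [h1] at h3
  linarith

/-- the axis -/
def OnAx (x : E3) : Prop := ∃ s : ℝ, hat x = rr + s • rs

lemma onAx_x0 : OnAx x0 := ⟨1, by rw [hat_x0, v0_eq, one_smul]⟩

lemma OnAx.line {x y : E3} (hx : OnAx x) (hy : OnAx y) (t : ℝ) : OnAx (x + t • (y - x)) := by
  obtain ⟨s, hs⟩ := hx
  obtain ⟨s', hs'⟩ := hy
  refine ⟨(1 - t) * s + t * s', ?_⟩
  rw [hat_line, hs, hs']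
  module

lemma OnAx.rho {x : E3} {s : ℝ} (hs : hat x = rr + s • rs) : rho x = -2 * s ^ 2 + 6 * s - 2 := by
  have := F_hat_self x
  rw [hs] at this
  simp only [F_add_left, F_add_right, F_smul_left, F_smul_right, F_rr, F_rs, F_rrs, F_rsr] at this
  linarith

/-- the axis meets no wall -/
lemma axis_ne {x : E3} (hx : x ∈ U) (hax : OnAx x) {b : V} (hb : b ∈ BB) : F (hat x) b ≠ 0 := by
  intro h0
  obtain ⟨s, hs⟩ := hax
  have hρ := mem_U.mp hx
  rw [OnAx.rho hs] at hρ
  obtain ⟨σ, hσ, hbσ⟩ := BB_sign hb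
  obtain ⟨k, hk⟩ := BB_F hbσ isInt_rr
  obtain ⟨l, hl⟩ := BB_F hbσ isInt_rs
  have e1 : F rr b0 = 3 := by rw [F_coord]; simp [rr, b0]
  have e2 : F rs b0 = -1 := by rw [F_coord]; simp [rs, b0]
  rw [e1] at hk
  rw [e2] at hl
  have h1 := QQ_ge b
  rw [hb.2.1] at h1
  rw [hs, F_add_left, F_smul_left] at h0
  have h2 : QQ b ≤ 0 := by
    have h3 : F rr b = - s * F rs b := by linarith
    unfold QQ
    rw [h3]
    nlinarith [sq_nonneg (F rs b)]
  have hσ2 : σ ^ 2 = 1 := by rcases hσ with rfl | rfl <;> norm_num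
  have h4 : QQ b = ((2 + 8 * (6 * σ * k + 14 * σ * l + 16 * k ^ 2 + 48 * k * l + 16 * l ^ 2) : ℤ) : ℝ) := by
    unfold QQ
    rw [hk, hl]
    have : (σ : ℝ) ^ 2 = 1 := by exact_mod_cast hσ2
    push_cast
    linear_combination 2 * this
  rw [h4] at h1 h2
  have h5 : -5 ≤ 2 + 8 * (6 * σ * k + 14 * σ * l + 16 * k ^ 2 + 48 * k * l + 16 * l ^ 2) := by
    have : ((-5 : ℤ) : ℝ) ≤ ((2 + 8 * (6 * σ * k + 14 * σ * l + 16 * k ^ 2 + 48 * k * l + 16 * l ^ 2) : ℤ) : ℝ) := by
      push_cast at h1 ⊢; linarith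
    exact_mod_cast this
  have h6 : 2 + 8 * (6 * σ * k + 14 * σ * l + 16 * k ^ 2 + 48 * k * l + 16 * l ^ 2) ≤ 0 := by
    exact_mod_cast h2
  generalize 6 * σ * k + 14 * σ * l + 16 * k ^ 2 + 48 * k * l + 16 * l ^ 2 = m at h5 h6
  omega

/-- the axis lies in the region -/
lemma axis_mem_X {x : E3} (hx : x ∈ U) (hax : OnAx x) : x ∈ X := by
  refine ⟨hx, fun b hb hneg => ?_⟩
  by_contra hcon
  push Not at hcon
  rw [← hat_x0] at hneg
  obtain ⟨t, ht0, ht1, hz⟩ := exists_zero hneg hcon.le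
  have hmem : x0 + t • (x - x0) ∈ U :=
    convex_U.add_smul_sub_mem x0_mem_X.1 hx ⟨ht0.le, ht1⟩
  exact axis_ne hmem (onAx_x0.line hax t) hb hz

/-- translates of the base point along the axis -/
lemma onAx_act {γ : V ≃L[ℝ] V} {μ : ℝ} (h : Eig γ μ) {x : E3} (hx : x ∈ U) (hax : OnAx x) :
    OnAx (act γ x) := by
  -- `γ` preserves the plane
  have hp : γ np = μ⁻¹ • np := by have := h.inv.p; rwa [inv_inv] at this
  have hm : γ nm = μ • nm := by have := h.inv.m; rwa [inv_inv, inv_inv] at this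
  obtain ⟨s, hs⟩ := hax
  have hd : sp - sm ≠ 0 := by
    have h1 := sp_gt
    have h2 := sm_lt
    linarith
  have e : hat x = ((s - sm) / (sp - sm)) • np + ((sp - s) / (sp - sm)) • nm := by
    rw [hs]
    unfold np nm
    have h1 : (s - sm) / (sp - sm) + (sp - s) / (sp - sm) = 1 := by field_simp; ring
    have h2 : (s - sm) / (sp - sm) * sp + (sp - s) / (sp - sm) * sm = s := by field_simp; ring
    have h3 : ((s - sm) / (sp - sm)) • (rr + sp • rs) + ((sp - s) / (sp - sm)) • (rr + sm • rs) =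
        ((s - sm) / (sp - sm) + (sp - s) / (sp - sm)) • rr +
        ((s - sm) / (sp - sm) * sp + (sp - s) / (sp - sm) * sm) • rs := by module
    rw [h3, h1, h2, one_smul]
  have h1 : ∃ α β : ℝ, hat (act γ x) = α • rr + β • rs := by
    rw [hat_act h.mem hx]
    set c := ((γ (hat x)).1)⁻¹
    rw [e, map_add, map_smul, map_smul, hp, hm]
    refine ⟨c * ((s - sm) / (sp - sm) * μ⁻¹ + (sp - s) / (sp - sm) * μ),
      c * ((s - sm) / (sp - sm) * μ⁻¹ * sp + (sp - s) / (sp - sm) * μ * sm), ?_⟩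
    unfold np nm
    module
  obtain ⟨α, β, hαβ⟩ := h1
  have hα : α = 1 := by
    have := congrArg Prod.fst hαβ
    simp [rr, rs] at this
    exact this.symm
  exact ⟨β, by rw [hαβ, hα, one_smul]⟩

/-- the reflection vector -/
noncomputable def ee : V := vec 0 0 1 0

lemma isInt_ee : IsInt ee := by simpa [ee] using isInt_vec 0 0 1 0
lemma F_ee : F ee ee = 1 := by rw [F_coord]; simp [ee]
lemma ee_pos : 0 < F ee ee := by rw [F_ee]; norm_num

/-- the hidden symmetry -/
noncomputable def phi : V ≃L[ℝ] V := refl ee ee_pos.ne'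

lemma phi_Lam : phi ∈ Lam := refl_mem_Lam isInt_ee (Or.inl F_ee) ee_pos

lemma phi_inv : phi⁻¹ = phi := refl_inv _ _

lemma phi_apply (a : V) : phi a = a - (2 * F a ee) • ee := by
  unfold phi; rw [refl_apply, F_ee, div_one]

lemma phi_phi (a : V) : phi (phi a) = a := by
  have := inv_app_self phi a
  rwa [phi_inv] at this

lemma phi_b0 : phi b0 = b0 := by
  rw [phi_apply]
  have : F b0 ee = 0 := by rw [F_coord]; simp [b0, ee]
  rw [this]; simp

lemma phi_cong {a b : V} (h : Cong a b) : Cong (phi a) (phi b) := by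
  obtain ⟨c, hc, h⟩ := h
  exact ⟨phi c, phi_Lam.1.int c hc, by rw [← map_sub, h, map_smul]⟩

lemma phi_BB {b : V} (hb : b ∈ BB) : phi b ∈ BB := by
  obtain ⟨h1, h2, h3⟩ := hb
  refine ⟨phi_Lam.1.int b h1, by rw [phi_Lam.1.isom, h2], ?_⟩
  rcases h3 with h3 | h3
  · left; have := phi_cong h3; rwa [phi_b0] at this
  · right; have := phi_cong h3; rwa [map_neg, phi_b0] at this

lemma phi_v0 : phi v0 = vec 1 2 (-1) 0 := by
  rw [phi_apply]
  have : F v0 ee = 1 := by rw [F_coord]; simp [v0, ee]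
  rw [this]
  apply ext_coord <;> simp [v0, ee]; norm_num

lemma phi_sameSide : SameSide (phi v0) := by
  intro b hb
  set s := F v0 b with hs
  set t := F (phi v0) b with ht
  have h1 : 2 ≤ |s| := F_v0_ne hb
  have h2 : 2 ≤ |t| := by
    have : t = F v0 (phi b) := by
      rw [ht]; conv_lhs => rw [← phi_phi b]
      exact phi_Lam.1.isom _ _
    rw [this]; exact F_v0_ne (phi_BB hb)
  -- the Gram determinant
  have h3 : 2 * s ^ 2 - 8 * s * t + 2 * t ^ 2 ≤ 12 := by
    have hw : F v0 (b - ((2 * s - 4 * t) / 12) • v0 - ((2 * t - 4 * s) / 12) • phi v0) = 0 := by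
      have e1 : F v0 (phi v0) = -4 := by rw [phi_v0, F_coord]; simp [v0]; norm_num
      rw [F_sub_right, F_sub_right, F_smul_right, F_smul_right, F_v0, e1, ← hs]
      ring
    have h4 := pos_of_orth (a := v0) (by rw [F_v0]; norm_num) hw
    have e1 : F v0 (phi v0) = -4 := by rw [phi_v0, F_coord]; simp [v0]; norm_num
    have e2 : F (phi v0) (phi v0) = -2 := by rw [phi_Lam.1.isom, F_v0]
    simp only [F_sub_left, F_sub_right, F_smul_left, F_smul_right, F_v0, e1, e2, hb.2.1,
      F_comm (phi v0) v0, F_comm b v0, F_comm b (phi v0), ← hs, ← ht] at h4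
    nlinarith
  constructor
  · intro hneg
    by_contra hcon
    push Not at hcon
    rw [abs_of_neg hneg] at h1
    rw [abs_of_nonneg hcon] at h2
    nlinarith
  · intro hneg
    by_contra hcon
    push Not at hcon
    rw [abs_of_neg hneg] at h2
    rw [abs_of_nonneg hcon] at h1
    nlinarith

/-- the hidden symmetry preserves the region -/
lemma phi_X {x : E3} (hx : x ∈ X) : act phi x ∈ X :=
  phi_sameSide.preserves phi_Lam (fun b hb => by rw [phi_inv]; exact phi_BB hb) hx

lemma act_phi_phi {x : E3} (hx : x ∈ U) : act phi (act phi x) = x := by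
  have := act_inv_act phi_Lam hx
  rwa [phi_inv] at this

/-- the reflected axis avoids the bumps -/
lemma q_phi_axis {x : E3} (hx : x ∈ U) (hax : OnAx x) {v : V} (hv : v ∈ VV) :
    14 / 5 ≤ q v (act phi x) := by
  have e0 : q v (act phi x) = q (phi v) x := by
    have := q_act phi_Lam hx (phi v)
    rwa [phi_phi] at this
  rw [e0]
  set w := phi v with hw
  have hww : F w w = -2 := by rw [hw, phi_Lam.1.isom, hv.2.1]
  have hwc : Cong w (vec 1 2 (-1) 0) := by rw [hw, ← phi_v0]; exact phi_cong hv.2.2.2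
  have h1 := QQ_ge w
  rw [hww] at h1
  obtain ⟨k, hk⟩ := hwc.F_cong isInt_rr
  obtain ⟨l, hl⟩ := hwc.F_cong isInt_rs
  rw [F_comm, F_coord (vec 1 2 (-1) 0) rr] at hk
  rw [F_comm, F_coord (vec 1 2 (-1) 0) rs] at hl
  simp only [vec_fst, vec_snd_0, vec_snd_1, vec_snd_2, rr, rs] at hk hl
  have hk' : F rr w = -1 + 8 * k := by unfold rr; rw [hk]; ring
  have hl' : F rs w = -3 + 8 * l := by unfold rs; rw [hl]; ring
  have h4 : QQ w = ((6 + 8 * (4 - 22 * k - 18 * l + 16 * k ^ 2 + 48 * k * l + 16 * l ^ 2) : ℤ) : ℝ) := by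
    unfold QQ
    rw [hk', hl']
    push_cast
    ring
  have h5 : 14 ≤ QQ w := by
    rw [h4] at h1 ⊢
    have h6 : 10 ≤ 6 + 8 * (4 - 22 * k - 18 * l + 16 * k ^ 2 + 48 * k * l + 16 * l ^ 2) := by
      have : ((10 : ℤ) : ℝ) ≤ ((6 + 8 * (4 - 22 * k - 18 * l + 16 * k ^ 2 + 48 * k * l + 16 * l ^ 2) : ℤ) : ℝ) := by
        push_cast at h1 ⊢; linarith
      exact_mod_cast this
    have h7 : 14 ≤ 6 + 8 * (4 - 22 * k - 18 * l + 16 * k ^ 2 + 48 * k * l + 16 * l ^ 2) := by
      generalize 4 - 22 * k - 18 * l + 16 * k ^ 2 + 48 * k * l + 16 * l ^ 2 = m at h6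
      omega
    exact_mod_cast h7
  have h8 := rev_cs (F_hat_neg hx) (prj w)
  have h9 : F (hat x) (prj w) = F (hat x) w := by
    obtain ⟨s, hs⟩ := hax
    rw [hs, F_add_left, F_smul_left, F_rr_prj, F_rs_prj, F_add_left, F_smul_left]
  rw [h9, F_prj, F_hat_self] at h8
  have hρ := mem_U.mp hx
  unfold q
  rw [le_div_iff₀ hρ]
  nlinarith

/-- the reflection as a linear map of the chart -/
noncomputable def PhL : E3 →L[ℝ] E3 :=
  ContinuousLinearMap.id ℝ E3 - (2 : ℝ) • (ip ee.2).smulRight ee.2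

lemma PhL_apply (x : E3) : PhL x = x - (2 * ip ee.2 x) • ee.2 := by
  simp only [PhL, sub_apply, ContinuousLinearMap.id_apply, smul_apply,
    ContinuousLinearMap.smulRight_apply, smul_smul]

lemma ee_fst : ee.1 = 0 := rfl

lemma phi_hat (x : E3) : phi (hat x) = hat (PhL x) := by
  rw [phi_apply]
  have e : F (hat x) ee = ip ee.2 x := by
    simp [F, ee_fst, real_inner_comm]
  rw [e]
  apply Prod.ext
  · simp [ee_fst]
  · simp [PhL_apply]

lemma act_phi (x : E3) : act phi x = PhL x := by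
  unfold act; rw [phi_hat, pt_hat]

lemma dact_phi (x v : E3) : dact phi x v = PhL v := by
  unfold dact
  have h1 : (phi (hat x)).1 = 1 := by rw [phi_hat]; rfl
  have h2 : phi (0, v) = (0, PhL v) := by
    rw [phi_apply]
    have e : F (0, v) ee = ip ee.2 v := by
      simp [F, real_inner_comm]
    rw [e]
    apply Prod.ext
    · simp [ee_fst]
    · simp [PhL_apply]
  rw [h1, h2]
  simp

lemma gK_PhL {x : E3} (hx : x ∈ U) (v w : E3) : gK (PhL x) (PhL v) (PhL w) = gK x v w := by
  have := gK_act phi_Lam hx v w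
  rwa [act_phi, dact_phi, dact_phi] at this

/-- along the axis the coordinate realises arc length -/
lemma gK_axis {x : E3} (hx : x ∈ U) {s : ℝ} (hs : hat x = rr + s • rs) {v : E3} {c : ℝ}
    (hv : ((0, v) : V) = c • rs) :
    dT x v = - (c / 2 * ((sp - sm) / ((sp - s) * (s - sm)))) ∧ gK x v v = dT x v ^ 2 ∧
      0 < (sp - s) * (s - sm) := by
  have hρ := mem_U.mp hx
  have hρs := OnAx.rho hs
  have hρ2 : rho x = 2 * ((sp - s) * (s - sm)) := by
    rw [hρs]; linear_combination (-2 * s) * sp_add + 2 * sp_mul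
  have hPM : 0 < (sp - s) * (s - sm) := by linarith
  have hd : 0 < sp - sm := by linarith [sp_gt, sm_lt]
  have hAp : Ap x = (sp - sm) * (sp - s) := by
    unfold Ap np
    rw [hs]
    simp only [F_add_left, F_add_right, F_smul_left, F_smul_right, F_rr, F_rs, F_rrs, F_rsr]
    linear_combination - sp_sq - s * sp_add + sp_mul
  have hAm : Am x = (sp - sm) * (s - sm) := by
    unfold Am nm
    rw [hs]
    simp only [F_add_left, F_add_right, F_smul_left, F_smul_right, F_rr, F_rs, F_rrs, F_rsr]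
    linear_combination (-s) * sp_add + sp_mul - sm_sq
  have h1 : sp - s ≠ 0 := by
    intro h; rw [h, zero_mul] at hPM; exact lt_irrefl _ hPM
  have h2 : s - sm ≠ 0 := by
    intro h; rw [h, mul_zero] at hPM; exact lt_irrefl _ hPM
  have e1 : ip np.2 v = c * (sp - sm) := by
    rw [ip_eq_F, hv, F_smul_left]
    unfold np
    simp only [F_add_right, F_smul_right, F_rs, F_rsr]
    linear_combination c * sp_add
  have e2 : ip nm.2 v = - (c * (sp - sm)) := by
    rw [ip_eq_F, hv, F_smul_left]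
    unfold nm
    simp only [F_add_right, F_smul_right, F_rs, F_rsr]
    linear_combination c * sp_add
  have hT : dT x v = - (c / 2 * ((sp - sm) / ((sp - s) * (s - sm)))) := by
    rw [dT_apply, e1, e2, hAp, hAm]
    have := hd.ne'
    field_simp
    ring
  refine ⟨hT, ?_, hPM⟩
  rw [hT, gK_eq_mf hx, mf, F_hat_self, hv, hs]
  simp only [F_add_right, F_smul_left, F_smul_right, F_rs, F_rsr]
  rw [hρ2]
  have e3 : c * -3 + s * (c * 2) = c * ((s - sm) - (sp - s)) := by
    linear_combination c * sp_add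
  rw [e3]
  field_simp
  ring

end Pool.Agent.H62.NegCurv
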