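import Pool.Agent.H62.NegCurv.Region

/-!
# Local structure of the region
-/

open scoped RealInnerProductSpace ContDiff Topology

namespace Pool.Agent.H62.NegCurv

lemma hat_line (x y : E3) (t : ℝ) : hat (x + t • (y - x)) = (1 - t) • hat x + t • hat y := by
  apply Prod.ext
  · simp
  · simp only [hat_snd, Prod.snd_add, Prod.smul_snd]; module

/-- sign changes produce a zero on the segment -/
lemma exists_zero {x y : E3} {b : V} (h1 : F (hat x) b < 0) (h2 : 0 ≤ F (hat y) b) :
    ∃ t : ℝ, 0 < t ∧ t ≤ 1 ∧ F (hat (x + t • (y - x))) b = 0 := by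
  refine ⟨F (hat x) b / (F (hat x) b - F (hat y) b), ?_, ?_, ?_⟩
  · apply div_pos_of_neg_of_neg h1; linarith
  · rw [div_le_one_of_neg (by linarith)]; linarith
  · rw [hat_line, F_add_left, F_smul_left, F_smul_left]
    have : F (hat x) b - F (hat y) b ≠ 0 := by linarith
    field_simp
    ring

/-- near a point of the ball, the walls not passing through it are avoided -/
lemma exists_good_ball {p : E3} (hp : p ∈ U) : ∃ ε > 0, Metric.ball p ε ⊆ U ∧
    ∀ b ∈ BB, F (hat p) b < 0 → ∀ y ∈ Metric.ball p ε, F (hat y) b < 0 := by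
  have hρ := mem_U.mp hp
  set δ := rho p / 2 with hδ
  have hδ0 : 0 < δ := by positivity
  have hfin : {b : V | IsInt b ∧ F b b = 1 ∧ ∃ x, δ ≤ rho x ∧ q b x ≤ 0}.Finite :=
    finite_q 1 δ 0 hδ0
  have hev : ∀ᶠ y in 𝓝 p, δ < rho y ∧ ∀ b ∈ {b : V | IsInt b ∧ F b b = 1 ∧ ∃ x, δ ≤ rho x ∧
      q b x ≤ 0}, F (hat p) b < 0 → F (hat y) b < 0 := by
    apply Filter.Eventually.and
    · have : δ < rho p := by rw [hδ]; linarith
      exact continuous_rho.continuousAt.eventually (lt_mem_nhds this)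
    · rw [Filter.eventually_all_finite hfin]
      intro b _
      by_cases hb : F (hat p) b < 0
      · filter_upwards [(continuous_F_hat b).continuousAt.eventually (gt_mem_nhds hb)] with y hy _
        exact hy
      · exact Filter.Eventually.of_forall (fun y h => absurd h hb)
  obtain ⟨ε, hε, hball⟩ := Metric.eventually_nhds_iff_ball.mp hev
  refine ⟨ε, hε, fun y hy => lt_trans hδ0 (hball y hy).1, fun b hb hneg y hy => ?_⟩
  by_contra hcon
  push Not at hcon
  obtain ⟨t, ht0, ht1, hz⟩ := exists_zero hneg hcon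
  have hmem : p + t • (y - p) ∈ Metric.ball p ε := by
    rw [mem_ball_iff_norm, add_sub_cancel_left, norm_smul, Real.norm_of_nonneg ht0.le]
    have := mem_ball_iff_norm.mp hy
    calc t * ‖y - p‖ ≤ 1 * ‖y - p‖ := by gcongr
      _ < ε := by rw [one_mul]; exact this
  have h1 := hball _ hmem
  have h2 := h1.2 b ⟨hb.1, hb.2.1, _, h1.1.le, by unfold q; rw [hz]; simp⟩ hneg
  linarith

/-- local structure of the region -/
lemma X_local {p : E3} (hp : p ∈ X) : X ∈ 𝓝 p ∨ ∃ b ∈ BB, F (hat p) b = 0 ∧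
    ∃ ε > 0, Metric.ball p ε ⊆ U ∧ ∀ y ∈ Metric.ball p ε, (y ∈ X ↔ F (hat y) b ≤ 0) := by
  obtain ⟨ε, hε, hU, hball⟩ := exists_good_ball hp.1
  by_cases hex : ∃ b ∈ BB, F (hat p) b = 0
  · right
    obtain ⟨b, hb, hbp⟩ := hex
    -- choose the sign
    have key : ∀ b ∈ BB, F (hat p) b = 0 → F v0 b < 0 →
        ∀ y ∈ Metric.ball p ε, (y ∈ X ↔ F (hat y) b ≤ 0) := by
      intro b hb hbp hneg y hy
      constructor
      · intro h; exact h.2 b hb hneg
      · intro h
        refine ⟨hU hy, fun c hc hcneg => ?_⟩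
        by_cases hcp : F (hat p) c = 0
        · rcases BB_unique hb hc hp.1 hbp hcp with rfl | rfl
          · exact h
          · rw [F_neg_right] at hcneg; linarith
        · have h1 := hp.2 c hc hcneg
          exact (hball c hc (lt_of_le_of_ne h1 hcp) y hy).le
    have hne : F v0 b ≠ 0 := by
      intro h
      have := F_v0_ne hb
      rw [h] at this; norm_num at this
    rcases lt_or_gt_of_ne hne with h | h
    · exact ⟨b, hb, hbp, ε, hε, hU, key b hb hbp h⟩
    · have hbp' : F (hat p) (-b) = 0 := by rw [F_neg_right, hbp, neg_zero]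
      exact ⟨-b, BB_neg hb, hbp', ε, hε, hU,
        key (-b) (BB_neg hb) hbp' (by rw [F_neg_right]; linarith)⟩
  · left
    push Not at hex
    refine Filter.mem_of_superset (Metric.ball_mem_nhds p hε) (fun y hy => ⟨hU hy, ?_⟩)
    intro b hb hneg
    have h1 := hp.2 b hb hneg
    exact (hball b hb (lt_of_le_of_ne h1 (hex b hb)) y hy).le

/-- the base point -/
noncomputable def x0 : E3 := v0.2

lemma hat_x0 : hat x0 = v0 := by apply Prod.ext <;> simp [hat, x0, v0]

lemma x0_mem_X : x0 ∈ X := by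
  refine ⟨?_, fun b hb h => by rw [hat_x0]; exact h.le⟩
  have := F_hat_self x0
  rw [hat_x0, F_v0] at this
  rw [mem_U]; linarith

lemma boundary_nonempty : ∃ p ∈ X, X ∉ 𝓝 p := by
  by_contra hcon
  push Not at hcon
  have hopen : IsOpen X := isOpen_iff_mem_nhds.mpr hcon
  have hU : IsPreconnected U := convex_U.isPreconnected
  -- a point of the ball outside the region
  have hx : pt (vec 1 (-2) 1 0) ∈ U := by
    apply pt_mem
    refine ⟨?_, by simp⟩
    rw [F_coord]; simp; norm_num
  have hhat : hat (pt (vec 1 (-2) 1 0)) = vec 1 (-2) 1 0 := by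
    rw [hat_pt] <;> simp
  have hnot : pt (vec 1 (-2) 1 0) ∉ Hs := by
    intro h
    have h1 : F v0 (-b0) < 0 := by rw [F_neg_right, F_coord]; simp [v0, b0]
    have h2 := h (-b0) (BB_neg b0_mem) h1
    rw [hhat, F_neg_right, F_coord] at h2
    simp [b0] at h2
    norm_num at h2
  have h3 := hU X Hsᶜ hopen isClosed_Hs.isOpen_compl (by
      intro y hy
      by_cases h : y ∈ Hs
      · exact Or.inl ⟨hy, h⟩
      · exact Or.inr h)
    ⟨x0, x0_mem_X.1, x0_mem_X⟩ ⟨_, hx, hnot⟩
  obtain ⟨y, -, hy1, hy2⟩ := h3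
  exact hy2 hy1.2

end Pool.Agent.H62.NegCurv
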