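import Pool.Agent.H62.NegCurv.Boundary

/-!
# The invariant bump function
-/

open scoped RealInnerProductSpace ContDiff Topology

namespace Pool.Agent.H62.NegCurv

/-- centres of the bumps -/
def VV : Set V := {v | IsInt v ∧ F v v = -2 ∧ 0 < v.1 ∧ Cong v v0}

lemma VV_fut {v : V} (hv : v ∈ VV) : IsFut v := ⟨by rw [hv.2.1]; norm_num, hv.2.2.1⟩

lemma v0_mem : v0 ∈ VV := ⟨isInt_v0, F_v0, by simp [v0], Cong.refl _⟩

lemma Gam_VV {A : V ≃L[ℝ] V} (hA : A ∈ Gam) {v : V} (hv : v ∈ VV) : A v ∈ VV := by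
  obtain ⟨h1, h2, h3, h4⟩ := hv
  exact ⟨hA.1.1.int v h1, by rw [hA.1.1.isom, h2],
    (hA.1.1.fut v ⟨by rw [h2]; norm_num, h3⟩).2, (hA.2 v h1).trans h4⟩

lemma q_ge_two {v : V} (hv : F v v = -2) {x : E3} (hx : x ∈ U) : 2 ≤ q v x := by
  unfold q
  have hρ := mem_U.mp hx
  rw [le_div_iff₀ hρ]
  have := rev_cs (F_hat_neg hx) v
  rw [F_hat_self, hv] at this
  linarith

/-- the bumps are disjoint -/
lemma VV_sep {v w : V} (hv : v ∈ VV) (hw : w ∈ VV) {x : E3} (hx : x ∈ U)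
    (h1 : q v x < 5 / 2) (h2 : q w x < 5 / 2) : v = w := by
  have hρ := mem_U.mp hx
  unfold q at h1 h2
  rw [div_lt_iff₀ hρ] at h1 h2
  have h3 := rev_cs (F_hat_neg hx) (v + w)
  rw [F_hat_self] at h3
  have e1 : F (v + w) (v + w) = -4 + 2 * F v w := by
    simp only [F_add_left, F_add_right, F_comm w v, hv.2.1, hw.2.1]; ring
  have e2 : F (hat x) (v + w) = F (hat x) v + F (hat x) w := F_add_right _ _ _
  rw [e1, e2] at h3
  have h4 : (F (hat x) v + F (hat x) w) ^ 2 < 10 * rho x := by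
    nlinarith [sq_nonneg (F (hat x) v - F (hat x) w)]
  have h5 : -3 < F v w := by
    have : rho x * (4 - 2 * F v w) < rho x * 10 := by linarith
    have := lt_of_mul_lt_mul_left this hρ.le
    linarith
  have h6 : F v w < 0 := F_neg_of_fut (VV_fut hv) (VV_fut hw).1.le (VV_fut hw).2
  have h7 : 4 ≤ F v w ^ 2 := by
    have := rev_cs (VV_fut hv).1 w
    rw [hv.2.1, hw.2.1] at this
    linarith
  obtain ⟨k, hk⟩ := hv.1.F_int hw.1
  have h8 : k = -2 := by
    rw [hk] at h5 h6 h7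
    have a1 : -3 < k := by exact_mod_cast h5
    have a2 : k < 0 := by exact_mod_cast h6
    have a3 : 4 ≤ k ^ 2 := by exact_mod_cast h7
    have : k = -2 ∨ k = -1 := by omega
    rcases this with h | h
    · exact h
    · rw [h] at a3; norm_num at a3
  have h9 : F (v - w) (v - w) = 0 := by
    simp only [F_sub_left, F_sub_right, F_comm w v, hv.2.1, hw.2.1, hk, h8]
    norm_num
  exact sub_eq_zero.mp (aniso (hv.1.sub hw.1) h9)

/-- the cutoff profile: `1` on `(-∞, 2.1]` and `0` on `[2.2, ∞)` -/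
noncomputable def chi (t : ℝ) : ℝ := Real.smoothTransition (22 - 10 * t)

lemma chi_smooth : ContDiff ℝ ∞ chi := by
  unfold chi
  exact Real.smoothTransition.contDiff.comp (contDiff_const.sub (contDiff_const.mul contDiff_id))

lemma chi_one {t : ℝ} (h : t ≤ 21 / 10) : chi t = 1 :=
  Real.smoothTransition.one_of_one_le (by linarith)

lemma chi_zero {t : ℝ} (h : 22 / 10 ≤ t) : chi t = 0 :=
  Real.smoothTransition.zero_of_nonpos (by linarith)

lemma chi_nonneg (t : ℝ) : 0 ≤ chi t := Real.smoothTransition.nonneg _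

lemma chi_le_one (t : ℝ) : chi t ≤ 1 := Real.smoothTransition.le_one _

open Classical in
/-- the bump function -/
noncomputable def bump (ε : ℝ) (x : E3) : ℝ :=
  if h : ∃ v ∈ VV, q v x < 5 / 2 then ε * chi (q h.choose x) else 0

lemma bump_of {ε : ℝ} {v : V} (hv : v ∈ VV) {x : E3} (hx : x ∈ U) (h : q v x < 5 / 2) :
    bump ε x = ε * chi (q v x) := by
  have hex : ∃ v ∈ VV, q v x < 5 / 2 := ⟨v, hv, h⟩
  unfold bump
  rw [dif_pos hex]
  have h1 := hex.choose_spec
  rw [VV_sep h1.1 hv hx h1.2 h]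

lemma bump_zero {ε : ℝ} {x : E3} (hx : x ∈ U) (h : ∀ v ∈ VV, 22 / 10 ≤ q v x) :
    bump ε x = 0 := by
  by_cases hex : ∃ v ∈ VV, q v x < 5 / 2
  · obtain ⟨v, hv, hq⟩ := hex
    rw [bump_of hv hx hq, chi_zero (h v hv), mul_zero]
  · unfold bump
    rw [dif_neg hex]

lemma bump_nonneg {ε : ℝ} (hε : 0 ≤ ε) (x : E3) : 0 ≤ bump ε x := by
  unfold bump
  split_ifs
  · exact mul_nonneg hε (chi_nonneg _)
  · exact le_rfl

lemma bump_le {ε : ℝ} (hε : 0 ≤ ε) (x : E3) : bump ε x ≤ ε := by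
  unfold bump
  split_ifs
  · calc ε * chi _ ≤ ε * 1 := by gcongr; exact chi_le_one _
      _ = ε := mul_one _
  · exact hε

lemma bump_act {ε : ℝ} {A : V ≃L[ℝ] V} (hA : A ∈ Gam) {x : E3} (hx : x ∈ U) :
    bump ε (act A x) = bump ε x := by
  have hL := hA.1
  by_cases hex : ∃ v ∈ VV, q v x < 5 / 2
  · obtain ⟨v, hv, hq⟩ := hex
    have h1 : q (A v) (act A x) = q v x := q_act hL hx v
    rw [bump_of hv hx hq, bump_of (Gam_VV hA hv) (act_mem hL hx) (by rw [h1]; exact hq), h1]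
  · have hex' : ¬ ∃ v ∈ VV, q v (act A x) < 5 / 2 := by
      rintro ⟨v, hv, hq⟩
      apply hex
      refine ⟨A⁻¹ v, Gam_VV (Gam.inv_mem hA) hv, ?_⟩
      have := q_act hL hx (A⁻¹ v)
      rw [app_inv_self] at this
      rw [← this]; exact hq
    unfold bump
    rw [dif_neg hex, dif_neg hex']

lemma contDiff_rho : ContDiff ℝ ∞ rho := by
  unfold rho
  exact contDiff_const.sub (contDiff_norm_sq ℝ)

lemma contDiff_F_hat (b : V) : ContDiff ℝ ∞ (fun x : E3 => F (hat x) b) := by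
  have h : (fun x : E3 => F (hat x) b) = fun x => FL b (hat x) := by
    funext x; rw [FL_apply]
  rw [h]
  exact (FL b).contDiff.comp contDiff_hat

lemma q_contDiffOn (v : V) : ContDiffOn ℝ ∞ (q v) U := by
  unfold q
  apply ContDiffOn.div
  · exact ((contDiff_F_hat v).pow 2).contDiffOn
  · exact contDiff_rho.contDiffOn
  · intro x hx; exact (mem_U.mp hx).ne'

lemma q_contDiffAt (v : V) {x : E3} (hx : x ∈ U) : ContDiffAt ℝ ∞ (q v) x :=
  (q_contDiffOn v).contDiffAt (isOpen_U.mem_nhds hx)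

/-- local form of the bump function -/
lemma bump_local (ε : ℝ) {x : E3} (hx : x ∈ U) :
    (∃ v ∈ VV, q v x < 5 / 2 ∧ bump ε =ᶠ[𝓝 x] fun y => ε * chi (q v y)) ∨
      ((∀ v ∈ VV, 5 / 2 ≤ q v x) ∧ bump ε =ᶠ[𝓝 x] fun _ => 0) := by
  by_cases hex : ∃ v ∈ VV, q v x < 5 / 2
  · left
    obtain ⟨v, hv, hq⟩ := hex
    refine ⟨v, hv, hq, ?_⟩
    filter_upwards [isOpen_U.mem_nhds hx,
      (q_contDiffAt v hx).continuousAt.eventually (gt_mem_nhds hq)] with y hy hy2
    exact bump_of hv hy hy2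
  · right
    push Not at hex
    refine ⟨hex, ?_⟩
    have hρ := mem_U.mp hx
    set δ := rho x / 2 with hδ
    have hδ0 : 0 < δ := by positivity
    have hfin : {v : V | IsInt v ∧ F v v = -2 ∧ ∃ x, δ ≤ rho x ∧ q v x ≤ 22 / 10}.Finite :=
      finite_q (-2) δ (22 / 10) hδ0
    have hev : ∀ᶠ y in 𝓝 x, δ < rho y ∧ ∀ v ∈ {v : V | IsInt v ∧ F v v = -2 ∧ ∃ x, δ ≤ rho x ∧
        q v x ≤ 22 / 10}, v ∈ VV → 22 / 10 < q v y := by
      apply Filter.Eventually.and
      · have : δ < rho x := by rw [hδ]; linarith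
        exact continuous_rho.continuousAt.eventually (lt_mem_nhds this)
      · rw [Filter.eventually_all_finite hfin]
        intro v _
        by_cases hv : v ∈ VV
        · have h1 : 22 / 10 < q v x := lt_of_lt_of_le (by norm_num) (hex v hv)
          filter_upwards [(q_contDiffAt v hx).continuousAt.eventually (lt_mem_nhds h1)] with y hy _
          exact hy
        · exact Filter.Eventually.of_forall (fun y h => absurd h hv)
    filter_upwards [hev] with y hy
    apply bump_zero (lt_trans hδ0 hy.1)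
    intro v hv
    by_contra hcon
    push Not at hcon
    have := hy.2 v ⟨hv.1, hv.2.1, y, hy.1.le, hcon.le⟩ hv
    linarith

lemma bump_contDiffAt (ε : ℝ) {x : E3} (hx : x ∈ U) : ContDiffAt ℝ ∞ (bump ε) x := by
  rcases bump_local ε hx with ⟨v, -, -, h⟩ | ⟨-, h⟩
  · apply ContDiffAt.congr_of_eventuallyEq _ h
    exact contDiffAt_const.mul (chi_smooth.contDiffAt.comp x (q_contDiffAt v hx))
  · exact contDiffAt_const.congr_of_eventuallyEq h

/-- the bumps stay away from the walls -/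
lemma q_ge_on_wall {v : V} (hv : v ∈ VV) {b : V} (hb : b ∈ BB) {x : E3} (hx : x ∈ U)
    (h : F (hat x) b = 0) : 5 / 2 ≤ q v x := by
  have h2 : 2 ≤ |F v b| := by
    obtain ⟨k, hk⟩ := hv.2.2.2.F_cong hb.1
    obtain ⟨σ, l, hσ, -, hl⟩ := F_v0_BB hb
    rw [hl] at hk
    have : (2 : ℤ) ≤ |2 * σ + 8 * l + 8 * k| := by
      rw [le_abs]
      rcases hσ with rfl | rfl <;> omega
    rw [hk]
    exact_mod_cast this
  have h3 : 4 ≤ F v b ^ 2 := by
    rw [← sq_abs]; nlinarith [abs_nonneg (F v b)]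
  have h4 := rev_cs (F_hat_neg hx) (v - (F v b) • b)
  have e1 : F (hat x) (v - (F v b) • b) = F (hat x) v := by
    rw [F_sub_right, F_smul_right, h]; ring
  have e2 : F (v - (F v b) • b) (v - (F v b) • b) = -2 - F v b ^ 2 := by
    simp only [F_sub_left, F_sub_right, F_smul_left, F_smul_right, F_comm b v, hv.2.1, hb.2.1]
    ring
  rw [e1, e2, F_hat_self] at h4
  have hρ := mem_U.mp hx
  unfold q
  rw [le_div_iff₀ hρ]
  nlinarith

lemma bump_near_wall (ε : ℝ) {b : V} (hb : b ∈ BB) {x : E3} (hx : x ∈ U)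
    (h : F (hat x) b = 0) : bump ε =ᶠ[𝓝 x] fun _ => 0 := by
  rcases bump_local ε hx with ⟨v, hv, hq, -⟩ | ⟨-, h2⟩
  · have := q_ge_on_wall hv hb hx h
    linarith
  · exact h2

end Pool.Agent.H62.NegCurv
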