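import Pool.Agent.H62.NegCurv.Lattice

/-!
# The Klein chart, the projective action and the hyperbolic metric
-/

open scoped RealInnerProductSpace ContDiff

namespace Pool.Agent.H62.NegCurv

/-- homogeneous coordinates -/
noncomputable def hat (x : E3) : V := (1, x)

@[simp] lemma hat_fst (x : E3) : (hat x).1 = 1 := rfl
@[simp] lemma hat_snd (x : E3) : (hat x).2 = x := rfl

/-- `7 - |x|²` -/
noncomputable def rho (x : E3) : ℝ := 7 - ‖x‖ ^ 2

/-- the Klein ball -/
def U : Set E3 := {x | 0 < rho x}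

lemma mem_U {x : E3} : x ∈ U ↔ 0 < rho x := Iff.rfl

lemma continuous_rho : Continuous rho := by unfold rho; fun_prop

lemma isOpen_U : IsOpen U := isOpen_lt continuous_const continuous_rho

lemma U_eq_ball : U = Metric.ball (0 : E3) (Real.sqrt 7) := by
  ext x
  rw [mem_U, rho, Metric.mem_ball, dist_zero_right]
  constructor
  · intro h
    exact Real.lt_sqrt_of_sq_lt (by linarith)
  · intro h
    have := (Real.lt_sqrt (norm_nonneg x)).mp h
    linarith

lemma convex_U : Convex ℝ U := by rw [U_eq_ball]; exact convex_ball _ _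

lemma F_hat_self (x : E3) : F (hat x) (hat x) = - rho x := by
  rw [F_self]; simp [rho]

lemma F_hat_neg {x : E3} (hx : x ∈ U) : F (hat x) (hat x) < 0 := by
  rw [F_hat_self]; have := mem_U.mp hx; linarith

lemma isFut_hat {x : E3} (hx : x ∈ U) : IsFut (hat x) := ⟨F_hat_neg hx, by simp⟩

/-- the point of the chart given by a future vector -/
noncomputable def pt (a : V) : E3 := (a.1)⁻¹ • a.2

lemma hat_pt {a : V} (ha : a.1 ≠ 0) : hat (pt a) = (a.1)⁻¹ • a := by
  apply Prod.ext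
  · simp [ha]
  · simp [pt]

lemma pt_mem {a : V} (ha : IsFut a) : pt a ∈ U := by
  have h1 := F_hat_self (pt a)
  rw [hat_pt ha.2.ne', F_smul_left, F_smul_right] at h1
  rw [mem_U]
  have h2 : 0 < (a.1)⁻¹ := inv_pos.mpr ha.2
  have h3 : (a.1)⁻¹ * ((a.1)⁻¹ * F a a) < 0 := by
    have := ha.1
    have h4 : 0 < (a.1)⁻¹ * ((a.1)⁻¹ * (- F a a)) := by
      apply mul_pos h2 (mul_pos h2 (by linarith))
    linarith
  linarith

lemma pt_hat (x : E3) : pt (hat x) = x := by simp [pt]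

lemma pt_smul {t : ℝ} (ht : t ≠ 0) (a : V) : pt (t • a) = pt a := by
  simp only [pt, Prod.smul_fst, Prod.smul_snd, smul_smul, smul_eq_mul]
  congr 1
  field_simp

/-- the projective action -/
noncomputable def act (A : V ≃L[ℝ] V) (x : E3) : E3 := pt (A (hat x))

lemma fut_img {A : V ≃L[ℝ] V} (hA : A ∈ Lam) {x : E3} (hx : x ∈ U) : IsFut (A (hat x)) :=
  hA.1.fut _ (isFut_hat hx)

lemma act_mem {A : V ≃L[ℝ] V} (hA : A ∈ Lam) {x : E3} (hx : x ∈ U) : act A x ∈ U :=
  pt_mem (fut_img hA hx)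

lemma hat_act {A : V ≃L[ℝ] V} (hA : A ∈ Lam) {x : E3} (hx : x ∈ U) :
    hat (act A x) = ((A (hat x)).1)⁻¹ • A (hat x) := hat_pt (fut_img hA hx).2.ne'

lemma act_one (x : E3) : act 1 x = x := by
  unfold act; rw [one_app, pt_hat]

lemma act_mul {A B : V ≃L[ℝ] V} (hB : B ∈ Lam) {x : E3} (hx : x ∈ U) :
    act (A * B) x = act A (act B x) := by
  unfold act
  have h := hat_act hB hx
  unfold act at h
  rw [h, map_smul, pt_smul, mul_app]
  exact inv_ne_zero (fut_img hB hx).2.ne'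

lemma act_inv_act {A : V ≃L[ℝ] V} (hA : A ∈ Lam) {x : E3} (hx : x ∈ U) :
    act A⁻¹ (act A x) = x := by
  rw [← act_mul hA hx, inv_mul_cancel, act_one]

lemma act_act_inv {A : V ≃L[ℝ] V} (hA : A ∈ Lam) {x : E3} (hx : x ∈ U) :
    act A (act A⁻¹ x) = x := by
  rw [← act_mul (Lam.inv_mem hA) hx, mul_inv_cancel, act_one]

/-- sign of the pairing is independent of the normalisation -/
lemma F_hat_act {A : V ≃L[ℝ] V} (hA : A ∈ Lam) {x : E3} (hx : x ∈ U) (b : V) :
    F (hat (act A x)) b = ((A (hat x)).1)⁻¹ * F (hat x) (A⁻¹ b) := by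
  rw [hat_act hA hx, F_smul_left]
  congr 1
  rw [F_comm, F_comm _ (A⁻¹ b), F_inv hA]

lemma rho_act {A : V ≃L[ℝ] V} (hA : A ∈ Lam) {x : E3} (hx : x ∈ U) :
    rho (act A x) = (((A (hat x)).1)⁻¹) ^ 2 * rho x := by
  have h := F_hat_self (act A x)
  rw [hat_act hA hx, F_smul_left, F_smul_right, hA.1.isom, F_hat_self] at h
  linarith

/-- twice the squared hyperbolic cosine of the distance to `v` when `F v v = -2` -/
noncomputable def q (v : V) (x : E3) : ℝ := F (hat x) v ^ 2 / rho x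

lemma q_act {A : V ≃L[ℝ] V} (hA : A ∈ Lam) {x : E3} (hx : x ∈ U) (v : V) :
    q (A v) (act A x) = q v x := by
  unfold q
  rw [F_hat_act hA hx, inv_app_self, rho_act hA hx]
  have h1 : (A (hat x)).1 ≠ 0 := (fut_img hA hx).2.ne'
  have h2 : rho x ≠ 0 := (mem_U.mp hx).ne'
  field_simp

/-- the inner product as a bilinear form -/
noncomputable def ip : E3 →L[ℝ] E3 →L[ℝ] ℝ := innerSL ℝ

@[simp] lemma ip_apply (v w : E3) : ip v w = ⟪v, w⟫ := rfl

/-- the hyperbolic metric in the Klein chart -/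
noncomputable def gK (x : E3) : E3 →L[ℝ] E3 →L[ℝ] ℝ :=
  (rho x)⁻¹ • ip + ((rho x)⁻¹) ^ 2 • (ip x).smulRight (ip x)

lemma gK_apply (x v w : E3) :
    gK x v w = ⟪v, w⟫ / rho x + ⟪x, v⟫ * ⟪x, w⟫ / rho x ^ 2 := by
  simp only [gK, add_apply, smul_apply, ip_apply, ContinuousLinearMap.smulRight_apply,
    smul_eq_mul]
  field_simp

lemma gK_symm (x v w : E3) : gK x v w = gK x w v := by
  rw [gK_apply, gK_apply, real_inner_comm]; ring

lemma gK_eq_mf {x : E3} (hx : x ∈ U) (v w : E3) :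
    gK x v w = mf (hat x) (0, v) (0, w) / rho x := by
  have h2 : rho x ≠ 0 := (mem_U.mp hx).ne'
  rw [gK_apply, mf, F_hat_self]
  unfold F
  simp only [hat_fst, hat_snd]
  rw [real_inner_comm x v, real_inner_comm x w]
  field_simp
  ring

lemma gK_pos {x : E3} (hx : x ∈ U) {v : E3} (hv : v ≠ 0) : 0 < gK x v v := by
  rw [gK_apply]
  have h2 := mem_U.mp hx
  have h3 : 0 < ⟪v, v⟫ := real_inner_self_pos.mpr hv
  have h4 : 0 ≤ ⟪x, v⟫ * ⟪x, v⟫ / rho x ^ 2 := by
    apply div_nonneg (mul_self_nonneg _) (sq_nonneg _)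
  have h5 : 0 < ⟪v, v⟫ / rho x := div_pos h3 h2
  linarith

lemma gK_nonneg {x : E3} (hx : x ∈ U) (v : E3) : 0 ≤ gK x v v := by
  by_cases hv : v = 0
  · subst hv; simp
  · exact (gK_pos hx hv).le

lemma mf_smul_base {t : ℝ} (ht : t ≠ 0) (a w z : V) : mf (t • a) w z = mf a w z := by
  unfold mf
  simp only [F_smul_left, F_smul_right]
  by_cases h : F a a = 0
  · simp [h]
  · field_simp

lemma mf_add_base {a : V} (ha : F a a ≠ 0) (s : ℝ) (w z : V) : mf a (w + s • a) z = mf a w z := by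
  unfold mf
  simp only [F_add_left, F_smul_left, F_comm a z]
  field_simp
  ring

lemma mf_img {A : V ≃L[ℝ] V} (hA : A ∈ Lam) (a w z : V) : mf (A a) (A w) (A z) = mf a w z := by
  unfold mf; simp only [hA.1.isom]

/-- the derivative of the action -/
noncomputable def dact (A : V ≃L[ℝ] V) (x v : E3) : E3 :=
  ((A (hat x)).1)⁻¹ • ((A (0, v)).2 - (A (0, v)).1 • act A x)

lemma hat_eq (x : E3) : hat x = hat 0 + (ContinuousLinearMap.inr ℝ ℝ E3) x := by
  apply Prod.ext <;> simp [hat]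

lemma hasFDerivAt_hat (x : E3) : HasFDerivAt hat (ContinuousLinearMap.inr ℝ ℝ E3) x := by
  have h : hat = fun y => hat 0 + (ContinuousLinearMap.inr ℝ ℝ E3) y := funext hat_eq
  rw [h]
  exact (ContinuousLinearMap.inr ℝ ℝ E3).hasFDerivAt.const_add _

lemma contDiff_hat : ContDiff ℝ ∞ hat := by
  have h : hat = fun y => hat 0 + (ContinuousLinearMap.inr ℝ ℝ E3) y := funext hat_eq
  rw [h]
  exact contDiff_const.add (ContinuousLinearMap.contDiff _)

lemma act_smooth {A : V ≃L[ℝ] V} (hA : A ∈ Lam) : ContDiffOn ℝ ∞ (act A) U := by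
  have h1 : ContDiff ℝ ∞ (fun x => A (hat x)) := A.contDiff.comp contDiff_hat
  have h2 : ContDiff ℝ ∞ (fun x => (A (hat x)).1) := contDiff_fst.comp h1
  have h3 : ContDiff ℝ ∞ (fun x => (A (hat x)).2) := contDiff_snd.comp h1
  unfold act pt
  apply ContDiffOn.fun_smul
  · apply ContDiffOn.inv h2.contDiffOn
    intro x hx
    exact (fut_img hA hx).2.ne'
  · exact h3.contDiffOn

lemma fderiv_act {A : V ≃L[ℝ] V} (hA : A ∈ Lam) {x : E3} (hx : x ∈ U) (v : E3) :
    fderiv ℝ (act A) x v = dact A x v := by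
  have h0 : HasFDerivAt (fun x => A (hat x)) ((A : V →L[ℝ] V).comp
      (ContinuousLinearMap.inr ℝ ℝ E3)) x :=
    (A : V →L[ℝ] V).hasFDerivAt.comp x (hasFDerivAt_hat x)
  have h1 : HasFDerivAt (fun x => (A (hat x)).1) ((ContinuousLinearMap.fst ℝ ℝ E3).comp
      ((A : V →L[ℝ] V).comp (ContinuousLinearMap.inr ℝ ℝ E3))) x :=
    (ContinuousLinearMap.fst ℝ ℝ E3).hasFDerivAt.comp x h0
  have h2 : HasFDerivAt (fun x => (A (hat x)).2) ((ContinuousLinearMap.snd ℝ ℝ E3).comp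
      ((A : V →L[ℝ] V).comp (ContinuousLinearMap.inr ℝ ℝ E3))) x :=
    (ContinuousLinearMap.snd ℝ ℝ E3).hasFDerivAt.comp x h0
  have hne : (A (hat x)).1 ≠ 0 := (fut_img hA hx).2.ne'
  have h3 := ((hasDerivAt_inv hne).comp_hasFDerivAt x h1).fun_smul h2
  have h4 : act A = fun x => ((fun y => y⁻¹) ∘ fun x => (A (hat x)).1) x • (A (hat x)).2 := rfl
  rw [h4, h3.fderiv]
  simp only [add_apply, smul_apply,
    ContinuousLinearMap.comp_apply, ContinuousLinearMap.inr_apply,
    ContinuousLinearEquiv.coe_coe, ContinuousLinearMap.coe_snd', ContinuousLinearMap.coe_fst',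
    ContinuousLinearMap.smulRight_apply, smul_eq_mul]
  unfold dact act pt
  rw [smul_sub, smul_smul, smul_smul, sub_eq_add_neg, ← neg_smul]
  congr 2
  field_simp

lemma inr_dact (A : V ≃L[ℝ] V) (x v : E3) :
    ((0, dact A x v) : V) = ((A (hat x)).1)⁻¹ •
      (A (0, v) + (-(A (0, v)).1) • hat (act A x)) := by
  apply Prod.ext
  · simp
  · simp only [dact, Prod.smul_snd, Prod.snd_add, Prod.snd_neg, hat_snd, neg_smul,
      sub_eq_add_neg]

/-- the projective action is isometric for the hyperbolic metric -/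
lemma gK_act {A : V ≃L[ℝ] V} (hA : A ∈ Lam) {x : E3} (hx : x ∈ U) (v w : E3) :
    gK (act A x) (dact A x v) (dact A x w) = gK x v w := by
  have h1 : (A (hat x)).1 ≠ 0 := (fut_img hA hx).2.ne'
  have h2 : rho x ≠ 0 := (mem_U.mp hx).ne'
  have hy := act_mem hA hx
  have h3 : F (hat (act A x)) (hat (act A x)) ≠ 0 := (F_hat_neg hy).ne
  rw [gK_eq_mf hy, gK_eq_mf hx, inr_dact, inr_dact, mf_smul_left, mf_add_base h3,
    mf_comm, mf_smul_left, mf_add_base h3, mf_comm, hat_act hA hx,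
    mf_smul_base (inv_ne_zero h1), mf_img hA, rho_act hA hx]
  field_simp

end Pool.Agent.H62.NegCurv
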