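import Pool.Agent.H62.NegCurv.Defs

/-!
# Lengths of paths and the path metric
-/

open scoped ContDiff Topology

namespace Pool.Agent.H62.NegCurv

variable {n : ℕ} {g : E n → E n →L[ℝ] E n →L[ℝ] ℝ} {X : Set (E n)}

lemma curveLength_nonneg (g : E n → E n →L[ℝ] E n →L[ℝ] ℝ) (c : ℝ → E n) :
    0 ≤ curveLength g c := by
  unfold curveLength
  apply intervalIntegral.integral_nonneg (by norm_num)
  intro t _
  exact Real.sqrt_nonneg _

lemma PathLength.nonneg {x y : E n} {L : ℝ} (h : PathLength g X x y L) : 0 ≤ L := by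
  induction h with
  | nil => exact le_rfl
  | cons c z L hc hX h ih => exact add_nonneg (curveLength_nonneg g c) ih

lemma PathLength.cons' {x y z : E n} {L : ℝ} (c : ℝ → E n) (hc : ContDiff ℝ 1 c)
    (hX : ∀ t ∈ Set.Icc (0 : ℝ) 1, c t ∈ X) (h0 : c 0 = x) (h1 : c 1 = y)
    (h : PathLength g X y z L) : PathLength g X x z (curveLength g c + L) := by
  subst h0 h1
  exact PathLength.cons c z L hc hX h

lemma PathLength.single {x y : E n} (c : ℝ → E n) (hc : ContDiff ℝ 1 c)
    (hX : ∀ t ∈ Set.Icc (0 : ℝ) 1, c t ∈ X) (h0 : c 0 = x) (h1 : c 1 = y) :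
    PathLength g X x y (curveLength g c) := by
  have := PathLength.cons' (g := g) c hc hX h0 h1
    (PathLength.nil y (by rw [← h1]; exact hX 1 ⟨zero_le_one, le_rfl⟩))
  rwa [add_zero] at this

lemma PathLength.trans {x y z : E n} {L L' : ℝ} (h : PathLength g X x y L)
    (h' : PathLength g X y z L') : PathLength g X x z (L + L') := by
  induction h with
  | nil => rwa [zero_add]
  | cons c w L hc hX h ih =>
    rw [add_assoc]
    exact PathLength.cons c z _ hc hX (ih h')

lemma curveLength_rev (g : E n → E n →L[ℝ] E n →L[ℝ] ℝ) (c : ℝ → E n) :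
    curveLength g (fun t => c (1 - t)) = curveLength g c := by
  unfold curveLength
  have h1 : ∀ t, deriv (fun t => c (1 - t)) t = - deriv c (1 - t) := by
    intro t
    exact deriv_comp_const_sub c 1 t
  simp only [h1, map_neg, neg_apply, neg_neg]
  have := intervalIntegral.integral_comp_sub_left (a := 0) (b := 1)
    (fun t => Real.sqrt (g (c t) (deriv c t) (deriv c t))) 1
  simpa using this

lemma PathLength.symm {x y : E n} {L : ℝ} (h : PathLength g X x y L) : PathLength g X y x L := by
  induction h with
  | nil x hx => exact PathLength.nil x hx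
  | cons c z L hc hX h ih =>
    rw [add_comm]
    refine ih.trans ?_
    rw [← curveLength_rev]
    apply PathLength.single
    · exact hc.comp (contDiff_const.sub contDiff_id)
    · intro t ht
      exact hX _ ⟨by linarith [ht.2], by linarith [ht.1]⟩
    · simp
    · simp

/-- the straight segment -/
noncomputable def seg (x y : E n) (t : ℝ) : E n := x + t • (y - x)

lemma seg_contDiff (x y : E n) : ContDiff ℝ 1 (seg x y) := by
  unfold seg
  fun_prop

lemma deriv_seg (x y : E n) (t : ℝ) : deriv (seg x y) t = y - x := by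
  have h : HasDerivAt (seg x y) ((1 : ℝ) • (y - x)) t :=
    ((hasDerivAt_id t).smul_const (y - x)).const_add x
  rw [h.deriv, one_smul]

lemma seg_mem (hX : Convex ℝ X) {x y : E n} (hx : x ∈ X) (hy : y ∈ X) :
    ∀ t ∈ Set.Icc (0 : ℝ) 1, seg x y t ∈ X := by
  intro t ht
  exact hX.add_smul_sub_mem hx hy ht

lemma PathLength.seg (hX : Convex ℝ X) {x y : E n} (hx : x ∈ X) (hy : y ∈ X) :
    PathLength g X x y (curveLength g (seg x y)) := by
  apply PathLength.single _ (seg_contDiff x y) (seg_mem hX hx hy)
  · simp [NegCurv.seg]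
  · simp [NegCurv.seg]

lemma bddBelow_lengths (x y : E n) : BddBelow {L | PathLength g X x y L} :=
  ⟨0, fun _ h => h.nonneg⟩

lemma pathDist_le {x y : E n} {L : ℝ} (h : PathLength g X x y L) : pathDist g X x y ≤ L :=
  csInf_le (bddBelow_lengths x y) h

lemma pathDist_nonneg (x y : E n) : 0 ≤ pathDist g X x y :=
  Real.sInf_nonneg (fun _ h => PathLength.nonneg h)

lemma pathDist_self {x : E n} (hx : x ∈ X) : pathDist g X x x = 0 :=
  le_antisymm (pathDist_le (PathLength.nil x hx)) (pathDist_nonneg x x)

lemma pathDist_comm (x y : E n) : pathDist g X x y = pathDist g X y x := by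
  unfold pathDist
  congr 1
  ext L
  exact ⟨PathLength.symm, PathLength.symm⟩

lemma le_pathDist (hX : Convex ℝ X) {x y : E n} (hx : x ∈ X) (hy : y ∈ X) {m : ℝ}
    (h : ∀ L, PathLength g X x y L → m ≤ L) : m ≤ pathDist g X x y :=
  le_csInf ⟨_, PathLength.seg hX hx hy⟩ h

lemma pathDist_triangle (hX : Convex ℝ X) {x y z : E n} (hx : x ∈ X) (hy : y ∈ X) (hz : z ∈ X) :
    pathDist g X x z ≤ pathDist g X x y + pathDist g X y z := by
  rw [← sub_le_iff_le_add]
  apply le_pathDist hX hx hy
  intro L hL
  rw [sub_le_comm]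
  apply le_pathDist hX hy hz
  intro L' hL'
  have := pathDist_le (hL.trans hL')
  linarith

/-- calibration -/
lemma calibrate {U : Set (E n)} (hXU : X ⊆ U) (hg : ContinuousOn g U) (f : E n → ℝ)
    (f' : E n → (E n →L[ℝ] ℝ)) (hf : ∀ x ∈ U, HasFDerivAt f (f' x) x) (hf' : ContinuousOn f' U)
    (hb : ∀ x ∈ U, ∀ v, f' x v ≤ Real.sqrt (g x v v)) {x y : E n} {L : ℝ}
    (h : PathLength g X x y L) : f y - f x ≤ L := by
  induction h with
  | nil => simp
  | cons c z L hc hX h ih =>
    have hmaps : Set.MapsTo c (Set.Icc 0 1) U := fun t ht => hXU (hX t ht)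
    have hcd : ∀ t, HasDerivAt c (deriv c t) t := fun t =>
      (hc.differentiable (by norm_num)).differentiableAt.hasDerivAt
    have hd : ∀ t ∈ Set.Icc (0 : ℝ) 1, HasDerivAt (fun t => f (c t)) (f' (c t) (deriv c t)) t := by
      intro t ht
      exact (hf (c t) (hmaps ht)).comp_hasDerivAt t (hcd t)
    have hcont : Continuous c := hc.continuous
    have hcont' : Continuous (deriv c) := hc.continuous_deriv le_rfl
    have hi1 : ContinuousOn (fun t => f' (c t) (deriv c t)) (Set.Icc 0 1) :=
      (hf'.comp hcont.continuousOn hmaps).clm_apply hcont'.continuousOn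
    have hi2 : ContinuousOn (fun t => Real.sqrt (g (c t) (deriv c t) (deriv c t)))
        (Set.Icc 0 1) :=
      (((hg.comp hcont.continuousOn hmaps).clm_apply hcont'.continuousOn).clm_apply
        hcont'.continuousOn).sqrt
    have e1 : ∫ t in (0 : ℝ)..1, f' (c t) (deriv c t) = f (c 1) - f (c 0) := by
      apply intervalIntegral.integral_eq_sub_of_hasDerivAt (f := fun t => f (c t))
      · intro t ht
        rw [Set.uIcc_of_le zero_le_one] at ht
        exact hd t ht
      · apply ContinuousOn.intervalIntegrable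
        rw [Set.uIcc_of_le zero_le_one]
        exact hi1
    have e2 : f (c 1) - f (c 0) ≤ curveLength g c := by
      rw [← e1]
      unfold curveLength
      apply intervalIntegral.integral_mono_on zero_le_one
      · apply ContinuousOn.intervalIntegrable
        rw [Set.uIcc_of_le zero_le_one]
        exact hi1
      · apply ContinuousOn.intervalIntegrable
        rw [Set.uIcc_of_le zero_le_one]
        exact hi2
      · intro t ht
        exact hb _ (hmaps ht) _
    linarith

end Pool.Agent.H62.NegCurv
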