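import Pool.Agent.H62.NegCurv.AxisX
import Pool.Agent.H62.NegCurv.Length

/-!
# Distances along the axis and along the reflected axis
-/

open scoped RealInnerProductSpace ContDiff Topology

namespace Pool.Agent.H62.NegCurv

lemma continuousOn_gC (ε : ℝ) : ContinuousOn (gC (bump ε)) U :=
  (isRiemannianMetric_gC (bump_contDiffOn ε)).smooth.continuousOn

lemma exp_two (a : ℝ) : Real.exp (2 * a) = Real.exp a ^ 2 := by
  rw [← Real.exp_nat_mul]; norm_num

lemma gC_nonneg {u : E3 → ℝ} {x : E3} (hx : x ∈ U) (v : E3) : 0 ≤ gC u x v v := by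
  rw [gC_apply]; exact mul_nonneg (Real.exp_pos _).le (gK_nonneg hx v)

lemma gK_le_gC {ε : ℝ} (hε : 0 ≤ ε) {x : E3} (hx : x ∈ U) (v : E3) :
    gK x v v ≤ gC (bump ε) x v v := by
  rw [gC_apply]
  have h1 := gK_nonneg hx v
  have h2 : 1 ≤ Real.exp (2 * bump ε x) := Real.one_le_exp (by have := bump_nonneg hε x; linarith)
  nlinarith

lemma gC_le_gK {ε : ℝ} (hε : 0 ≤ ε) {x : E3} (hx : x ∈ U) (v : E3) :
    gC (bump ε) x v v ≤ Real.exp ε ^ 2 * gK x v v := by
  rw [gC_apply, ← exp_two]
  have h1 := gK_nonneg hx v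
  have h2 : Real.exp (2 * bump ε x) ≤ Real.exp (2 * ε) :=
    Real.exp_le_exp.mpr (by have := bump_le hε x; linarith)
  exact mul_le_mul_of_nonneg_right h2 h1

lemma PhL_PhL {x : E3} (hx : x ∈ U) : PhL (PhL x) = x := by
  have := act_phi_phi hx
  rwa [act_phi, act_phi] at this

lemma PhL_X {x : E3} (hx : x ∈ X) : PhL x ∈ X := by
  have := phi_X hx
  rwa [act_phi] at this

lemma deriv_PhL {c : ℝ → E3} (hc : ContDiff ℝ 1 c) (t : ℝ) :
    deriv (fun t => PhL (c t)) t = PhL (deriv c t) := by
  have h : HasDerivAt c (deriv c t) t :=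
    (hc.differentiable (by norm_num)).differentiableAt.hasDerivAt
  exact (PhL.hasFDerivAt.comp_hasDerivAt t h).deriv

lemma lengthFun_cont {g : E3 → E3 →L[ℝ] E3 →L[ℝ] ℝ} (hg : ContinuousOn g U) {c : ℝ → E3}
    (hc : ContDiff ℝ 1 c) (hX : ∀ t ∈ Set.Icc (0 : ℝ) 1, c t ∈ U) :
    ContinuousOn (fun t => Real.sqrt (g (c t) (deriv c t) (deriv c t))) (Set.Icc 0 1) :=
  have hcont' : Continuous (deriv c) := hc.continuous_deriv le_rfl
  (((hg.comp hc.continuous.continuousOn (fun t ht => hX t ht)).clm_apply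
    hcont'.continuousOn).clm_apply hcont'.continuousOn).sqrt

lemma curveLength_phi {ε : ℝ} (hε : 0 ≤ ε) {c : ℝ → E3} (hc : ContDiff ℝ 1 c)
    (hX : ∀ t ∈ Set.Icc (0 : ℝ) 1, c t ∈ X) :
    curveLength (gC (bump ε)) (fun t => PhL (c t)) ≤
      Real.exp ε * curveLength (gC (bump ε)) c := by
  have hc' : ContDiff ℝ 1 (fun t => PhL (c t)) := PhL.contDiff.comp hc
  have hi1 := lengthFun_cont (continuousOn_gC ε) hc' (fun t ht => (PhL_X (hX t ht)).1)
  have hi2 := lengthFun_cont (continuousOn_gC ε) hc (fun t ht => (hX t ht).1)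
  unfold curveLength
  rw [← intervalIntegral.integral_const_mul]
  apply intervalIntegral.integral_mono_on zero_le_one
  · apply ContinuousOn.intervalIntegrable
    rw [Set.uIcc_of_le zero_le_one]
    exact hi1
  · apply ContinuousOn.intervalIntegrable
    rw [Set.uIcc_of_le zero_le_one]
    exact continuousOn_const.mul hi2
  · intro t ht
    have hU := (hX t ht).1
    have hU' := (PhL_X (hX t ht)).1
    rw [deriv_PhL hc, Real.sqrt_le_iff]
    refine ⟨by positivity, ?_⟩
    rw [mul_pow, Real.sq_sqrt (gC_nonneg hU _)]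
    refine (gC_le_gK hε hU' _).trans ?_
    rw [gK_PhL hU]
    have := gK_le_gC hε hU (deriv c t)
    gcongr

lemma pathLength_phi {ε : ℝ} (hε : 0 ≤ ε) {x y : E3} {L : ℝ}
    (h : PathLength (gC (bump ε)) X x y L) :
    ∃ L', L' ≤ Real.exp ε * L ∧ PathLength (gC (bump ε)) X (PhL x) (PhL y) L' := by
  induction h with
  | nil x hx => exact ⟨0, by simp, PathLength.nil _ (PhL_X hx)⟩
  | cons c z L hc hX h ih =>
    obtain ⟨L', hL', hp⟩ := ih
    refine ⟨curveLength (gC (bump ε)) (fun t => PhL (c t)) + L', ?_, ?_⟩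
    · have := curveLength_phi hε hc hX
      linarith
    · exact PathLength.cons (fun t => PhL (c t)) _ L' (PhL.contDiff.comp hc)
        (fun t ht => PhL_X (hX t ht)) hp

lemma pathDist_phi {ε : ℝ} (hε : 0 ≤ ε) {x y : E3} (hx : x ∈ X) (hy : y ∈ X) :
    pathDist (gC (bump ε)) X (PhL x) (PhL y) ≤
      Real.exp ε * pathDist (gC (bump ε)) X x y := by
  have h1 : (Real.exp ε)⁻¹ * pathDist (gC (bump ε)) X (PhL x) (PhL y) ≤
      pathDist (gC (bump ε)) X x y := by
    apply le_pathDist convex_X hx hy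
    intro L hL
    obtain ⟨L', hL', hp⟩ := pathLength_phi hε hL
    rw [inv_mul_le_iff₀ (Real.exp_pos ε)]
    exact (pathDist_le hp).trans hL'
  rwa [inv_mul_le_iff₀ (Real.exp_pos ε)] at h1

/-- the reflected axis is short -/
lemma upper {ε : ℝ} {x y : E3} (hx : x ∈ U) (hy : y ∈ U) (hax : OnAx x)
    (hay : OnAx y) : pathDist (gC (bump ε)) X (PhL x) (PhL y) ≤ |TT y - TT x| := by
  have hxX := axis_mem_X hx hax
  have hyX := axis_mem_X hy hay
  obtain ⟨s, hs⟩ := hax
  obtain ⟨s', hs'⟩ := hay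
  have hv : ((0, y - x) : V) = (s' - s) • rs := by
    have e : ((0, y - x) : V) = hat y - hat x := by
      apply Prod.ext <;> simp
    rw [e, hs, hs']
    module
  have hU : ∀ t ∈ Set.Icc (0 : ℝ) 1, seg x y t ∈ U := seg_mem convex_U hx hy
  have hax' : ∀ t, hat (seg x y t) = rr + (s + t * (s' - s)) • rs := by
    intro t
    unfold seg
    rw [hat_line, hs, hs']
    module
  have hlen : PathLength (gC (bump ε)) X (PhL x) (PhL y)
      (curveLength (gC (bump ε)) (fun t => PhL (seg x y t))) := by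
    apply PathLength.single
    · exact PhL.contDiff.comp (seg_contDiff x y)
    · intro t ht
      exact PhL_X (axis_mem_X (hU t ht) ⟨_, hax' t⟩)
    · simp [seg]
    · simp [seg]
  refine (pathDist_le hlen).trans ?_
  have hpt : ∀ t ∈ Set.Icc (0 : ℝ) 1, Real.sqrt (gC (bump ε) (PhL (seg x y t))
      (deriv (fun t => PhL (seg x y t)) t) (deriv (fun t => PhL (seg x y t)) t)) =
      |dT (seg x y t) (y - x)| := by
    intro t ht
    have hyt := hU t ht
    have hb : bump ε (PhL (seg x y t)) = 0 := by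
      apply bump_zero (by rw [← act_phi]; exact act_mem phi_Lam hyt)
      intro v hv
      rw [← act_phi]
      have := q_phi_axis hyt ⟨_, hax' t⟩ hv
      linarith
    rw [deriv_PhL (seg_contDiff x y), deriv_seg, gC_apply, hb, gK_PhL hyt,
      (gK_axis hyt (hax' t) hv).2.1]
    simp [Real.sqrt_sq_eq_abs]
  have hint : ∫ t in (0 : ℝ)..1, dT (seg x y t) (y - x) = TT y - TT x := by
    have e : TT y - TT x = TT (seg x y 1) - TT (seg x y 0) := by simp [seg]
    rw [e]
    apply intervalIntegral.integral_eq_sub_of_hasDerivAt (f := fun t => TT (seg x y t))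
    · intro t ht
      rw [Set.uIcc_of_le zero_le_one] at ht
      have h1 : HasDerivAt (seg x y) (y - x) t := by
        have h : HasDerivAt (seg x y) ((1 : ℝ) • (y - x)) t :=
          ((hasDerivAt_id t).smul_const (y - x)).const_add x
        rwa [one_smul] at h
      exact (hasFDerivAt_TT (hU t ht)).comp_hasDerivAt t h1
    · apply ContinuousOn.intervalIntegrable
      rw [Set.uIcc_of_le zero_le_one]
      exact (continuousOn_dT.comp (seg_contDiff x y).continuous.continuousOn
        (fun t ht => hU t ht)).clm_apply continuousOn_const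
  have hcl : curveLength (gC (bump ε)) (fun t => PhL (seg x y t)) =
      ∫ t in (0 : ℝ)..1, |dT (seg x y t) (y - x)| := by
    unfold curveLength
    apply intervalIntegral.integral_congr
    intro t ht
    rw [Set.uIcc_of_le zero_le_one] at ht
    exact hpt t ht
  rw [hcl]
  have hd : 0 < sp - sm := by linarith [sp_gt, sm_lt]
  rcases le_total 0 (s' - s) with hc | hc
  · have : ∫ t in (0 : ℝ)..1, |dT (seg x y t) (y - x)| =
        ∫ t in (0 : ℝ)..1, - dT (seg x y t) (y - x) := by
      apply intervalIntegral.integral_congr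
      intro t ht
      rw [Set.uIcc_of_le zero_le_one] at ht
      obtain ⟨h1, -, h3⟩ := gK_axis (hU t ht) (hax' t) hv
      apply abs_of_nonpos
      rw [h1]
      have : 0 ≤ (s' - s) / 2 * ((sp - sm) / ((sp - (s + t * (s' - s))) *
        ((s + t * (s' - s)) - sm))) := by positivity
      linarith
    rw [this, intervalIntegral.integral_neg, hint]
    exact neg_le_abs _
  · have : ∫ t in (0 : ℝ)..1, |dT (seg x y t) (y - x)| =
        ∫ t in (0 : ℝ)..1, dT (seg x y t) (y - x) := by
      apply intervalIntegral.integral_congr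
      intro t ht
      rw [Set.uIcc_of_le zero_le_one] at ht
      obtain ⟨h1, -, h3⟩ := gK_axis (hU t ht) (hax' t) hv
      apply abs_of_nonneg
      rw [h1]
      have : 0 ≤ (-(s' - s)) / 2 * ((sp - sm) / ((sp - (s + t * (s' - s))) *
        ((s + t * (s' - s)) - sm))) := by
        have : 0 ≤ -(s' - s) := by linarith
        positivity
      linarith
    rw [this, hint]
    exact le_abs_self _

lemma abs_dT_le {ε : ℝ} (hε : 0 ≤ ε) {x : E3} (hx : x ∈ U) (v : E3) :
    |dT x v| ≤ Real.sqrt (gC (bump ε) x v v) := by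
  apply Real.abs_le_sqrt
  refine le_trans ?_ (gK_le_gC hε hx v)
  refine le_trans ?_ (dT_est hx v)
  have h1 := one_le_ss hx
  nlinarith [sq_nonneg (dT x v)]

/-- near the translates of the bump, the coordinate along the axis is strictly contracting -/
lemma key_est {ε : ℝ} (hε : 0 < ε) {γ : V ≃L[ℝ] V} {μ : ℝ} (h : Eig γ μ) (hG : γ ∈ Gam) :
    ∃ w > 0, ∃ κ > 0, ∀ x ∈ U, ∀ j : ℤ, |TT x - TT x0 - j * Real.log μ| < w → ∀ v,
      (1 + κ) * |dT x v| ≤ Real.sqrt (gC (bump ε) x v v) := by
  have hcosh : ∃ w > 0, ∀ t : ℝ, |t| < w → Real.cosh (2 * t) < 105 / 100 := by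
    have hc : ContinuousAt (fun t : ℝ => Real.cosh (2 * t)) 0 := by
      fun_prop
    have h1 : (fun t : ℝ => Real.cosh (2 * t)) 0 < 105 / 100 := by simp; norm_num
    obtain ⟨w, hw, hball⟩ := Metric.eventually_nhds_iff.mp (hc.eventually (gt_mem_nhds h1))
    refine ⟨w, hw, fun t ht => hball ?_⟩
    rw [Real.dist_eq, sub_zero]; exact ht
  obtain ⟨w, hw, hcosh⟩ := hcosh
  refine ⟨w, hw, min ε (1 / 200), lt_min hε (by norm_num), fun x hx j hj v => ?_⟩
  set κ := min ε (1 / 200) with hκ
  have hκ0 : 0 < κ := lt_min hε (by norm_num)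
  have hκ1 : κ ≤ ε := min_le_left _ _
  have hκ2 : κ ≤ 1 / 200 := min_le_right _ _
  -- translate back
  have hj2 : Eig (γ ^ (-j)) (μ ^ (-j)) := h.zpow (-j)
  have hjG : γ ^ j ∈ Gam := Gam.zpow_mem hG j
  have hy := act_mem hj2.mem hx
  have hT : TT (act (γ ^ (-j)) x) = TT x - j * Real.log μ := by
    rw [TT_act hj2 hx, Real.log_zpow]; push_cast; ring
  have hq : q ((γ ^ j) v0) x = q v0 (act (γ ^ (-j)) x) := by
    have h1 := q_act hj2.mem hx ((γ ^ j) v0)
    rw [← h1]
    congr 1
    rw [zpow_neg]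
    exact inv_app_self _ _
  have hq2 : q ((γ ^ j) v0) x = ss x * (1 + Real.cosh (2 * (TT x - TT x0 - j * Real.log μ))) := by
    rw [hq, q_v0_eq hy, ss_act hj2 hx, hT]
    congr 4
    ring
  have hcj := hcosh _ hj
  have hss := one_le_ss hx
  have hdT := dT_est hx v
  have hK := gK_nonneg hx v
  have key : ((1 + κ) * |dT x v|) ^ 2 ≤ gC (bump ε) x v v := by
    rw [mul_pow, sq_abs]
    by_cases hcase : ss x ≤ 102 / 100
    · have hq3 : q ((γ ^ j) v0) x ≤ 21 / 10 := by
        rw [hq2]
        have : 1 + Real.cosh (2 * (TT x - TT x0 - j * Real.log μ)) ≤ 205 / 100 := by linarith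
        have h0 : 0 ≤ 1 + Real.cosh (2 * (TT x - TT x0 - j * Real.log μ)) := by
          have := Real.cosh_pos (2 * (TT x - TT x0 - j * Real.log μ)); linarith
        nlinarith
      have hb : bump ε x = ε := by
        rw [bump_of (Gam_VV hjG v0_mem) hx (by linarith), chi_one hq3, mul_one]
      rw [gC_apply, hb, exp_two]
      have h1 : 1 + κ ≤ Real.exp ε := by
        have := Real.add_one_le_exp ε
        linarith
      have h2 : (1 + κ) ^ 2 ≤ Real.exp ε ^ 2 := by gcongr
      have h3 : dT x v ^ 2 ≤ gK x v v := by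
        nlinarith [sq_nonneg (dT x v)]
      calc (1 + κ) ^ 2 * dT x v ^ 2 ≤ Real.exp ε ^ 2 * dT x v ^ 2 := by gcongr
        _ ≤ Real.exp ε ^ 2 * gK x v v := by gcongr
    · push Not at hcase
      refine le_trans ?_ (gK_le_gC hε.le hx v)
      refine le_trans ?_ hdT
      have h2 : (1 + κ) ^ 2 ≤ ss x := by nlinarith
      gcongr
  exact Real.le_sqrt_of_sq_le key

/-- lower bound for distances along the axis -/
theorem lower {ε : ℝ} (hε : 0 < ε) {γ : V ≃L[ℝ] V} {μ : ℝ} (h : Eig γ μ) (hG : γ ∈ Gam)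
    (hμ : 1 < μ) : ∃ η > 0, ∀ n : ℕ,
      n * (Real.log μ + η) ≤ pathDist (gC (bump ε)) X x0 (act (γ ^ n) x0) := by
  obtain ⟨w, hw, κ, hκ, hest⟩ := key_est hε h hG
  set τ := Real.log μ with hτ
  have hτ0 : 0 < τ := Real.log_pos hμ
  let ψ : ℝ → ℝ := fun t => max 0 (w - ‖((t - TT x0 : ℝ) : AddCircle τ)‖)
  have hψc : Continuous ψ := by
    apply continuous_const.max
    apply continuous_const.sub
    apply continuous_norm.comp
    exact (AddCircle.continuous_mk' τ).comp (continuous_id.sub continuous_const)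
  have hψ0 : ∀ t, 0 ≤ ψ t := fun t => le_max_left _ _
  have hψw : ∀ t, ψ t ≤ w := fun t => max_le hw.le (by linarith [norm_nonneg ((t - TT x0 : ℝ) : AddCircle τ)])
  have hψp : Function.Periodic ψ τ := by
    intro t
    simp only [ψ]
    have : ((t + τ - TT x0 : ℝ) : AddCircle τ) = ((t - TT x0 : ℝ) : AddCircle τ) := by
      have e : t + τ - TT x0 = (t - TT x0) + τ := by ring
      rw [e, AddCircle.coe_add_period]
    rw [this]
  set δ := κ / w with hδ
  have hδ0 : 0 < δ := by positivity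
  let H : ℝ → ℝ := fun t => t + δ * ∫ s in (0 : ℝ)..t, ψ s
  have hH : ∀ t, HasDerivAt H (1 + δ * ψ t) t := by
    intro t
    exact (hasDerivAt_id t).add ((hψc.integral_hasStrictDerivAt 0 t).hasDerivAt.const_mul δ)
  set I := ∫ s in (TT x0)..(TT x0 + τ), ψ s with hI
  have hI0 : 0 < I := by
    apply intervalIntegral.integral_pos (by linarith) hψc.continuousOn (fun t _ => hψ0 t)
    refine ⟨TT x0, ⟨le_rfl, by linarith⟩, ?_⟩
    simp [ψ, hw]
  have hHn : ∀ n : ℕ, H (TT x0 + n * τ) - H (TT x0) = n * (τ + δ * I) := by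
    intro n
    induction n with
    | zero => simp
    | succ n ih =>
      have e1 : ∫ s in (0 : ℝ)..(TT x0 + (n + 1 : ℕ) * τ), ψ s =
          (∫ s in (0 : ℝ)..(TT x0 + n * τ), ψ s) + I := by
        have h1 := intervalIntegral.integral_add_adjacent_intervals
          (hψc.intervalIntegrable (μ := MeasureTheory.volume) 0 (TT x0 + n * τ))
          (hψc.intervalIntegrable (TT x0 + n * τ) (TT x0 + n * τ + τ))
        have h2 : ∫ s in (TT x0 + n * τ)..(TT x0 + n * τ + τ), ψ s = I :=
          hψp.intervalIntegral_add_eq _ _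
        rw [h2] at h1
        rw [h1]
        congr 1
        push_cast; ring
      have e2 : H (TT x0 + (n + 1 : ℕ) * τ) = H (TT x0 + n * τ) + (τ + δ * I) := by
        simp only [H]
        rw [e1]
        push_cast; ring
      rw [e2]
      push_cast
      linarith
  refine ⟨δ * I, by positivity, fun n => ?_⟩
  have hpow := h.pow n
  have hxn := act_mem hpow.mem x0_mem_X.1
  have hxnX := axis_mem_X hxn (onAx_act hpow x0_mem_X.1 onAx_x0)
  apply le_pathDist convex_X x0_mem_X hxnX
  intro L hL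
  have hcal := calibrate (U := U) (fun x hx => hx.1) (continuousOn_gC ε) (fun x => H (TT x))
    (fun x => (1 + δ * ψ (TT x)) • dT x)
    (fun x hx => (hH (TT x)).comp_hasFDerivAt x (hasFDerivAt_TT hx)) ?_ ?_ hL
  · rw [← hHn n]
    have e : TT (act (γ ^ n) x0) = TT x0 + n * τ := by
      rw [TT_act hpow x0_mem_X.1, Real.log_pow]
    rw [e] at hcal
    exact hcal
  · have hTc : ContinuousOn TT U := fun x hx =>
      (hasFDerivAt_TT hx).continuousAt.continuousWithinAt
    apply ContinuousOn.fun_smul _ continuousOn_dT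
    exact continuousOn_const.add (continuousOn_const.mul (hψc.comp_continuousOn hTc))
  · intro x hx v
    have h1 : (1 + δ * ψ (TT x)) * dT x v ≤ (1 + δ * ψ (TT x)) * |dT x v| := by
      apply mul_le_mul_of_nonneg_left (le_abs_self _)
      have := mul_nonneg hδ0.le (hψ0 (TT x))
      linarith
    refine h1.trans ?_
    by_cases hpos : 0 < ψ (TT x)
    · have hn : ‖((TT x - TT x0 : ℝ) : AddCircle τ)‖ < w := by
        simp only [ψ, lt_max_iff, lt_irrefl, false_or] at hpos
        linarith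
      rw [AddCircle.norm_eq] at hn
      have h2 := hest x hx (round (τ⁻¹ * (TT x - TT x0))) hn v
      refine le_trans ?_ h2
      apply mul_le_mul_of_nonneg_right _ (abs_nonneg _)
      have h3 : δ * ψ (TT x) ≤ δ * w := by
        apply mul_le_mul_of_nonneg_left (hψw _) hδ0.le
      have h4 : δ * w = κ := by rw [hδ]; field_simp
      linarith
    · have h0 : ψ (TT x) = 0 := le_antisymm (not_lt.mp hpos) (hψ0 _)
      rw [h0, mul_zero, add_zero, one_mul]
      exact abs_dT_le hε.le hx v

end Pool.Agent.H62.NegCurv
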