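import Mathlib

/-!
# Definitions for the statement

A compact connected Riemannian manifold `M` with boundary, of dimension `n`, whose universal
cover embeds in `ℝⁿ`, is presented by its universal cover: `M = X / Γ`, where `X` is a simply
connected domain with smooth boundary in an open set `U` of `ℝⁿ` carrying a Riemannian metric,
and `Γ` is a group acting on `U` by isometries, preserving `X`, and acting on `X` freely, properly
discontinuously and cocompactly.
-/

open scoped ContDiff Topology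

namespace Pool.Agent.H62.NegCurv

/-- Euclidean space of dimension `n`. -/
abbrev E (n : ℕ) := EuclideanSpace ℝ (Fin n)

/-- `g` is a smooth Riemannian metric on the set `U` (an open set in all uses). -/
structure IsRiemannianMetric {n : ℕ} (U : Set (E n)) (g : E n → E n →L[ℝ] E n →L[ℝ] ℝ) :
    Prop where
  smooth : ContDiffOn ℝ ∞ g U
  symm : ∀ x ∈ U, ∀ v w, g x v w = g x w v
  pos : ∀ x ∈ U, ∀ v, v ≠ 0 → 0 < g x v v

/-- `Γ` is the Levi-Civita connection of `g` on `U`: `Γ x a b` is the covariant derivative at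
`x`, in direction `a`, of the constant vector field `b`. This is Koszul's formula for constant
vector fields; it determines `Γ x` for each `x ∈ U`. -/
def IsLeviCivita {n : ℕ} (U : Set (E n)) (g : E n → E n →L[ℝ] E n →L[ℝ] ℝ)
    (Γ : E n → E n →L[ℝ] E n →L[ℝ] E n) : Prop :=
  ∀ x ∈ U, ∀ a b c, 2 * g x (Γ x a b) c =
    fderiv ℝ (fun y => g y b c) x a + fderiv ℝ (fun y => g y a c) x b
      - fderiv ℝ (fun y => g y a b) x c

/-- The vector `R(v,w)w = ∇_v ∇_w w - ∇_w ∇_v w` at `x`, for constant vector fields `v`, `w`. -/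
noncomputable def curvVec {n : ℕ} (Γ : E n → E n →L[ℝ] E n →L[ℝ] E n) (x v w : E n) : E n :=
  fderiv ℝ (fun y => Γ y w w) x v - fderiv ℝ (fun y => Γ y v w) x w
    + Γ x v (Γ x w w) - Γ x w (Γ x v w)

/-- The sectional curvature at `x` of the plane spanned by `v` and `w`. -/
noncomputable def sectional {n : ℕ} (g : E n → E n →L[ℝ] E n →L[ℝ] ℝ)
    (Γ : E n → E n →L[ℝ] E n →L[ℝ] E n) (x v w : E n) : ℝ :=
  g x (curvVec Γ x v w) v / (g x v v * g x w w - g x v w ^ 2)

/-- Near `p` the set `X` is `{ρ ≥ 0}` for a smooth function `ρ` with `ρ p = 0`, regular on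
`{ρ = 0}`, and the hypersurface `{ρ = 0}` is totally geodesic: the covariant Hessian of `ρ`
vanishes on its tangent vectors, that is, its second fundamental form is zero. -/
def TotallyGeodesicBoundaryAt {n : ℕ} (U : Set (E n)) (Γ : E n → E n →L[ℝ] E n →L[ℝ] E n)
    (X : Set (E n)) (p : E n) : Prop :=
  ∃ (W : Set (E n)) (ρ : E n → ℝ), IsOpen W ∧ p ∈ W ∧ W ⊆ U ∧ ContDiffOn ℝ ∞ ρ W ∧ ρ p = 0 ∧
    (∀ y ∈ W, (y ∈ X ↔ 0 ≤ ρ y)) ∧
    ∀ y ∈ W, ρ y = 0 → fderiv ℝ ρ y ≠ 0 ∧
      ∀ v, fderiv ℝ ρ y v = 0 →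
        fderiv ℝ (fun z => fderiv ℝ ρ z v) y v - fderiv ℝ ρ y (Γ y v v) = 0

/-- Length of the `C¹` curve `c` restricted to `[0,1]`. -/
noncomputable def curveLength {n : ℕ} (g : E n → E n →L[ℝ] E n →L[ℝ] ℝ) (c : ℝ → E n) : ℝ :=
  ∫ t in (0 : ℝ)..1, Real.sqrt (g (c t) (deriv c t) (deriv c t))

/-- `PathLength g X x y L`: there is a piecewise `C¹` path in `X` from `x` to `y`, of length `L`
(a finite concatenation of `C¹` paths). -/
inductive PathLength {n : ℕ} (g : E n → E n →L[ℝ] E n →L[ℝ] ℝ) (X : Set (E n)) :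
    E n → E n → ℝ → Prop
  | nil (x : E n) (hx : x ∈ X) : PathLength g X x x 0
  | cons (c : ℝ → E n) (z : E n) (L : ℝ) (hc : ContDiff ℝ 1 c)
      (hX : ∀ t ∈ Set.Icc (0 : ℝ) 1, c t ∈ X) (h : PathLength g X (c 1) z L) :
      PathLength g X (c 0) z (curveLength g c + L)

/-- The path metric on `X`: the infimum of the lengths of piecewise `C¹` paths in `X`. -/
noncomputable def pathDist {n : ℕ} (g : E n → E n →L[ℝ] E n →L[ℝ] ℝ) (X : Set (E n))
    (x y : E n) : ℝ :=
  sInf {L | PathLength g X x y L}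

/-- A compact connected Riemannian manifold `M = X / Γ` of dimension `n` with strictly negative
sectional curvature and nonempty totally geodesic boundary, presented by its universal cover `X`
and its deck group `Γ`. -/
structure CompactNegCurved (n : ℕ) where
  /-- an open set of `ℝⁿ` -/
  U : Set (E n)
  isOpen_U : IsOpen U
  /-- the Riemannian metric -/
  g : E n → E n →L[ℝ] E n →L[ℝ] ℝ
  isMetric : IsRiemannianMetric U g
  /-- its Levi-Civita connection -/
  conn : E n → E n →L[ℝ] E n →L[ℝ] E n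
  isLeviCivita : IsLeviCivita U g conn
  /-- the universal cover, a domain with boundary in `U` -/
  X : Set (E n)
  subset : X ⊆ U
  closed : ∃ C, IsClosed C ∧ X = U ∩ C
  simplyConnected : SimplyConnectedSpace X
  /-- strictly negative sectional curvature -/
  negative : ∀ x ∈ X, ∀ v w, LinearIndependent ℝ ![v, w] → sectional g conn x v w < 0
  /-- `X` is a manifold with boundary, and the boundary is totally geodesic -/
  boundary : ∀ p ∈ X, X ∈ 𝓝 p ∨ TotallyGeodesicBoundaryAt U conn X p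
  /-- the boundary is not empty -/
  boundary_nonempty : ∃ p ∈ X, X ∉ 𝓝 p
  /-- the deck group -/
  Deck : Type
  [groupDeck : Group Deck]
  /-- its action on `U` by diffeomorphisms -/
  act : Deck → E n → E n
  act_mem : ∀ γ, ∀ x ∈ U, act γ x ∈ U
  act_one : ∀ x ∈ U, act 1 x = x
  act_mul : ∀ γ δ, ∀ x ∈ U, act (γ * δ) x = act γ (act δ x)
  act_smooth : ∀ γ, ContDiffOn ℝ ∞ (act γ) U
  /-- the action is by isometries -/
  act_isometry : ∀ γ, ∀ x ∈ U, ∀ v w,
    g (act γ x) (fderiv ℝ (act γ) x v) (fderiv ℝ (act γ) x w) = g x v w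
  /-- the action preserves `X` -/
  act_mem_X : ∀ γ, ∀ x ∈ X, act γ x ∈ X
  /-- the action on `X` is free -/
  free : ∀ γ, ∀ x ∈ X, act γ x = x → γ = 1
  /-- the action on `X` is properly discontinuous -/
  proper : ∀ K ⊆ X, IsCompact K → {γ | (act γ '' K ∩ K).Nonempty}.Finite
  /-- the action on `X` is cocompact -/
  cocompact : ∃ K ⊆ X, IsCompact K ∧ ∀ x ∈ X, ∃ γ, act γ x ∈ K

/-- The path metric of the universal cover. -/
noncomputable def CompactNegCurved.dist {n : ℕ} (M : CompactNegCurved n) (x y : M.X) : ℝ :=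
  pathDist M.g M.X x y

/-- Quasi-isometries of a set `T` with distance function `d`. -/
def IsQuasiIsometry {T : Type} (d : T → T → ℝ) (f : T → T) : Prop :=
  ∃ L C : ℝ, 1 ≤ L ∧ 0 ≤ C ∧
    (∀ x y, L⁻¹ * d x y - C ≤ d (f x) (f y) ∧ d (f x) (f y) ≤ L * d x y + C) ∧
    ∀ y, ∃ x, d y (f x) ≤ C

/-- Isometries (distance preserving bijections) of a set `T` with distance function `d`. -/
def IsIsometry {T : Type} (d : T → T → ℝ) (ψ : T → T) : Prop :=
  Function.Bijective ψ ∧ ∀ x y, d (ψ x) (ψ y) = d x y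

/-- Two maps are at bounded distance. -/
def BoundedDistance {T : Type} (d : T → T → ℝ) (f ψ : T → T) : Prop :=
  ∃ C : ℝ, ∀ x, d (f x) (ψ x) ≤ C

end Pool.Agent.H62.NegCurv
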