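import Pool.Agent.H62.NegCurv.Bump
import Pool.Agent.H62.NegCurv.Defs

/-!
# Curvature of conformal perturbations of the hyperbolic metric
-/

open scoped RealInnerProductSpace ContDiff Topology

namespace Pool.Agent.H62.NegCurv

/-- the one-form `⟪x, ·⟫ / ρ(x)` -/
noncomputable def ph (x : E3) : E3 →L[ℝ] ℝ := (rho x)⁻¹ • ip x

lemma ph_apply (x v : E3) : ph x v = (rho x)⁻¹ * ip x v := rfl

lemma hasFDerivAt_rho (x : E3) : HasFDerivAt rho ((-2 : ℝ) • ip x) x := by
  have h1 : HasFDerivAt (fun y : E3 => ‖y‖ ^ 2) (2 • innerSL ℝ x) x :=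
    (hasStrictFDerivAt_norm_sq x).hasFDerivAt
  have h2 := h1.const_sub 7
  have h3 : (-2 : ℝ) • ip x = -(2 • innerSL ℝ x) := by
    ext v
    simp
  rw [h3]
  exact h2

lemma hasFDerivAt_rinv {x : E3} (hx : x ∈ U) :
    HasFDerivAt (fun y => (rho y)⁻¹) ((2 * (rho x)⁻¹ ^ 2) • ip x) x := by
  have h := (hasDerivAt_inv (mem_U.mp hx).ne').comp_hasFDerivAt x (hasFDerivAt_rho x)
  apply h.congr_fderiv
  ext v
  simp only [smul_apply, smul_eq_mul, ip_apply]
  have hne := (mem_U.mp hx).ne'
  field_simp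

lemma hasFDerivAt_ipl (b x : E3) : HasFDerivAt (fun y => ip y b) (ip.flip b) x :=
  (ip.flip b).hasFDerivAt

lemma gK_apply' (x v w : E3) :
    gK x v w = ip v w * (rho x)⁻¹ + ip x v * ip x w * ((rho x)⁻¹ * (rho x)⁻¹) := by
  rw [gK_apply]
  simp only [ip_apply]
  by_cases h : rho x = 0
  · simp [h]
  · field_simp

/-- derivative of the hyperbolic metric coefficients -/
lemma fderiv_gK {x : E3} (hx : x ∈ U) (a b c : E3) :
    fderiv ℝ (fun y => gK y b c) x a =
      2 * ph x a * gK x b c + ph x b * gK x a c + ph x c * gK x a b := by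
  have hr := hasFDerivAt_rinv hx
  have h1 := (hr.const_mul (ip b c)).add
    (((hasFDerivAt_ipl b x).mul (hasFDerivAt_ipl c x)).mul (hr.mul hr))
  have h2 : (fun y => gK y b c) = (fun y => ip b c * (rho y)⁻¹) +
      ((fun y => ip y b) * (fun y => ip y c)) * ((fun y => (rho y)⁻¹) * fun y => (rho y)⁻¹) := by
    funext y
    simp only [Pi.add_apply, Pi.mul_apply]
    rw [gK_apply']
  rw [h2, h1.fderiv]
  simp only [add_apply, smul_apply, smul_eq_mul,
    ContinuousLinearMap.flip_apply, gK_apply', ph_apply, Pi.mul_apply]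
  have e1 : ip a x = ip x a := by simp only [ip_apply]; exact real_inner_comm _ _
  have e2 : ip b x = ip x b := by simp only [ip_apply]; exact real_inner_comm _ _
  ring

lemma contDiffOn_rinv : ContDiffOn ℝ ∞ (fun y => (rho y)⁻¹) U :=
  contDiff_rho.contDiffOn.inv (fun _ hx => (mem_U.mp hx).ne')

lemma contDiffOn_gK : ContDiffOn ℝ ∞ gK U := by
  rw [contDiffOn_clm_apply]
  intro b
  rw [contDiffOn_clm_apply]
  intro c
  have h : (fun x => gK x b c) = fun x => ip b c * (rho x)⁻¹ +
      (ip.flip b) x * (ip.flip c) x * ((rho x)⁻¹ * (rho x)⁻¹) := by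
    funext x
    rw [gK_apply']
    rfl
  rw [h]
  exact (contDiffOn_const.mul contDiffOn_rinv).add
    (((ip.flip b).contDiff.contDiffOn.mul (ip.flip c).contDiff.contDiffOn).mul
      (contDiffOn_rinv.mul contDiffOn_rinv))

lemma contDiffOn_ph : ContDiffOn ℝ ∞ ph U := by
  unfold ph
  exact contDiffOn_rinv.smul ip.contDiff.contDiffOn

lemma differentiableAt_gK {x : E3} (hx : x ∈ U) : DifferentiableAt ℝ gK x :=
  (contDiffOn_gK.contDiffAt (isOpen_U.mem_nhds hx)).differentiableAt (by simp)

/-- evaluation commutes with the derivative -/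
lemma fderiv_eval2 {G : Type*} [NormedAddCommGroup G] [NormedSpace ℝ G]
    {T : E3 → E3 →L[ℝ] E3 →L[ℝ] G} {x : E3} (hT : DifferentiableAt ℝ T x) (a b c : E3) :
    fderiv ℝ (fun y => T y b c) x a = fderiv ℝ T x a b c := by
  have h1 := (hT.hasFDerivAt.clm_apply (hasFDerivAt_const b x)).clm_apply (hasFDerivAt_const c x)
  rw [h1.fderiv]
  simp

lemma fderiv_eval1 {G : Type*} [NormedAddCommGroup G] [NormedSpace ℝ G]
    {T : E3 → E3 →L[ℝ] G} {x : E3} (hT : DifferentiableAt ℝ T x) (a b : E3) :
    fderiv ℝ (fun y => T y b) x a = fderiv ℝ T x a b := by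
  have h1 := hT.hasFDerivAt.clm_apply (hasFDerivAt_const b x)
  rw [h1.fderiv]
  simp

/-- derivative of the one-form -/
lemma fderiv_ph {x : E3} (hx : x ∈ U) (a b : E3) :
    fderiv ℝ (fun y => ph y b) x a = gK x a b + ph x a * ph x b := by
  have h1 := (hasFDerivAt_rinv hx).mul (hasFDerivAt_ipl b x)
  have h2 : (fun y => ph y b) = (fun y => (rho y)⁻¹) * fun y => ip y b := by
    funext y; rfl
  rw [h2, h1.fderiv]
  simp only [add_apply, smul_apply, smul_eq_mul,
    ContinuousLinearMap.flip_apply, gK_apply', ph_apply]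
  ring

/-- the euclidean gradient -/
noncomputable def grd (u : E3 → ℝ) (x : E3) : E3 :=
  (InnerProductSpace.toDual ℝ E3).symm (fderiv ℝ u x)

lemma ip_grd (u : E3 → ℝ) (x v : E3) : ip (grd u x) v = fderiv ℝ u x v := by
  rw [ip_apply]
  exact InnerProductSpace.toDual_symm_apply

/-- the hyperbolic gradient -/
noncomputable def GG (u : E3 → ℝ) (x : E3) : E3 :=
  rho x • (grd u x - ((ip x (grd u x)) / 7) • x)

lemma gK_GG (u : E3 → ℝ) {x : E3} (hx : x ∈ U) (v : E3) :
    gK x (GG u x) v = fderiv ℝ u x v := by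
  have hρ := (mem_U.mp hx).ne'
  rw [gK_apply']
  have e1 : ip (GG u x) v = rho x * (fderiv ℝ u x v - ip x (grd u x) / 7 * ip x v) := by
    unfold GG
    simp only [map_smul, map_sub, smul_apply, sub_apply, smul_eq_mul, ip_grd]
  have e2 : ip x (GG u x) = rho x * (ip x (grd u x) - ip x (grd u x) / 7 * (7 - rho x)) := by
    unfold GG
    have : ip x x = 7 - rho x := by
      rw [ip_apply, real_inner_self_eq_norm_sq]; unfold rho; ring
    simp only [map_smul, map_sub, smul_eq_mul, this]
  rw [e1, e2]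
  field_simp
  ring

/-- the modified one-form -/
noncomputable def theta (u : E3 → ℝ) (x : E3) : E3 →L[ℝ] ℝ := ph x + fderiv ℝ u x

/-- the Levi-Civita connection of `exp(2u) gK` -/
noncomputable def Gm (u : E3 → ℝ) (x : E3) : E3 →L[ℝ] E3 →L[ℝ] E3 :=
  (theta u x).smulRight (ContinuousLinearMap.id ℝ E3) +
    ((theta u x).smulRight (ContinuousLinearMap.id ℝ E3)).flip -
    ((ContinuousLinearMap.compL ℝ E3 ℝ E3)
      (ContinuousLinearMap.toSpanSingleton ℝ (GG u x))).comp (gK x)

lemma Gm_apply (u : E3 → ℝ) (x a b : E3) :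
    Gm u x a b = theta u x a • b + theta u x b • a - gK x a b • GG u x := by
  simp [Gm]

/-- the conformal metric -/
noncomputable def gC (u : E3 → ℝ) (x : E3) : E3 →L[ℝ] E3 →L[ℝ] ℝ := Real.exp (2 * u x) • gK x

lemma gC_apply (u : E3 → ℝ) (x a b : E3) : gC u x a b = Real.exp (2 * u x) * gK x a b := rfl

lemma isRiemannianMetric_gC {u : E3 → ℝ} (hu : ContDiffOn ℝ ∞ u U) :
    IsRiemannianMetric (n := 3) U (gC u) where
  smooth := by
    rw [contDiffOn_clm_apply]
    intro b
    rw [contDiffOn_clm_apply]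
    intro c
    have h : (fun x => gC u x b c) = fun x => Real.exp (2 * u x) * gK x b c := by
      funext x
      exact gC_apply u x b c
    rw [h]
    exact (contDiffOn_const.mul hu).exp.mul
      ((contDiffOn_gK.clm_apply contDiffOn_const).clm_apply contDiffOn_const)
  symm x _ v w := by rw [gC_apply, gC_apply, gK_symm]
  pos x hx v hv := by
    rw [gC_apply]
    exact mul_pos (Real.exp_pos _) (gK_pos hx hv)

lemma isLeviCivita_Gm {u : E3 → ℝ} (hu : ContDiffOn ℝ ∞ u U) :
    IsLeviCivita (n := 3) U (gC u) (Gm u) := by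
  intro x hx a b c
  have hux : DifferentiableAt ℝ u x :=
    (hu.contDiffAt (isOpen_U.mem_nhds hx)).differentiableAt (by simp)
  have key : ∀ a b c, fderiv ℝ (fun y => gC u y b c) x a =
      Real.exp (2 * u x) * (2 * fderiv ℝ u x a * gK x b c +
        (2 * ph x a * gK x b c + ph x b * gK x a c + ph x c * gK x a b)) := by
    intro a b c
    have hg : DifferentiableAt ℝ (fun y => gK y b c) x :=
      ((differentiableAt_gK hx).clm_apply (differentiableAt_const b)).clm_apply
        (differentiableAt_const c)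
    have h1 := ((hux.hasFDerivAt.const_mul 2).exp).mul hg.hasFDerivAt
    have h2 : (fun y => gC u y b c) = (fun y => Real.exp (2 * u y)) * fun y => gK y b c := by
      funext y; rfl
    rw [h2, h1.fderiv]
    simp only [add_apply, smul_apply, smul_eq_mul, fderiv_gK hx]
    ring
  rw [key a b c, key b a c, key c a b, gC_apply, Gm_apply]
  simp only [map_sub, map_add, map_smul, sub_apply, add_apply, smul_apply, smul_eq_mul,
    gK_GG u hx, theta]
  rw [gK_symm x c b, gK_symm x c a, gK_symm x b a]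
  ring

lemma contDiffOn_fderiv {u : E3 → ℝ} (hu : ContDiffOn ℝ ∞ u U) :
    ContDiffOn ℝ ∞ (fderiv ℝ u) U :=
  hu.fderiv_of_isOpen isOpen_U (by simp)

lemma contDiffOn_GG {u : E3 → ℝ} (hu : ContDiffOn ℝ ∞ u U) : ContDiffOn ℝ ∞ (GG u) U := by
  have h1 : ContDiffOn ℝ ∞ (grd u) U := by
    unfold grd
    exact (InnerProductSpace.toDual ℝ E3).symm.contDiff.comp_contDiffOn (contDiffOn_fderiv hu)
  have h2 : ContDiffOn ℝ ∞ (fun x => ip x (grd u x)) U :=
    ip.contDiff.contDiffOn.clm_apply h1
  unfold GG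
  exact contDiff_rho.contDiffOn.smul (h1.sub ((h2.div_const 7).smul contDiffOn_id))

/-- The curvature numerator of the conformal metric. -/
lemma curv_formula {u : E3 → ℝ} (hu : ContDiffOn ℝ ∞ u U) {x : E3} (hx : x ∈ U) (v w : E3) :
    gK x (curvVec (n := 3) (Gm u) x v w) v =
      -(gK x v v * gK x w w - gK x v w ^ 2)
      - ((fderiv ℝ (fderiv ℝ u) x v v - 2 * ph x v * fderiv ℝ u x v) * gK x w w
        - 2 * (fderiv ℝ (fderiv ℝ u) x v w - ph x v * fderiv ℝ u x w
          - ph x w * fderiv ℝ u x v) * gK x v w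
        + (fderiv ℝ (fderiv ℝ u) x w w - 2 * ph x w * fderiv ℝ u x w) * gK x v v)
      + (fderiv ℝ u x v ^ 2 * gK x w w - 2 * fderiv ℝ u x v * fderiv ℝ u x w * gK x v w
        + fderiv ℝ u x w ^ 2 * gK x v v)
      - fderiv ℝ u x (GG u x) * (gK x v v * gK x w w - gK x v w ^ 2) := by
  have hUx := isOpen_U.mem_nhds hx
  have hDu : DifferentiableAt ℝ (fderiv ℝ u) x :=
    ((contDiffOn_fderiv hu).contDiffAt hUx).differentiableAt (by simp)
  have hG : DifferentiableAt ℝ (GG u) x :=
    ((contDiffOn_GG hu).contDiffAt hUx).differentiableAt (by simp)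
  have hgK := differentiableAt_gK hx
  have hph : DifferentiableAt ℝ ph x :=
    (contDiffOn_ph.contDiffAt hUx).differentiableAt (by simp)
  -- symmetry of the second derivative
  have hsymm : fderiv ℝ (fderiv ℝ u) x w v = fderiv ℝ (fderiv ℝ u) x v w := by
    have h1 : ContDiffAt ℝ ∞ u x := hu.contDiffAt hUx
    have h2 : IsSymmSndFDerivAt ℝ u x := h1.isSymmSndFDerivAt (by
      simp only [minSmoothness_of_isRCLikeNormedField]
      exact ENat.LEInfty.out)
    exact h2 w v
  -- derivative of the gradient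
  have hDG : ∀ a z, gK x (fderiv ℝ (GG u) x a) z = fderiv ℝ (fderiv ℝ u) x a z -
      (2 * ph x a * fderiv ℝ u x z + ph x (GG u x) * gK x a z + ph x z * fderiv ℝ u x a) := by
    intro a z
    have h1 := (hgK.hasFDerivAt.clm_apply hG.hasFDerivAt).clm_apply (hasFDerivAt_const z x)
    have h2 : (fun y => gK y (GG u y) z) =ᶠ[𝓝 x] fun y => fderiv ℝ u y z := by
      filter_upwards [hUx] with y hy
      exact gK_GG u hy z
    have h3 := h2.fderiv_eq (𝕜 := ℝ)
    rw [h1.fderiv] at h3
    have h4 := DFunLike.congr_fun h3 a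
    simp only [add_apply, ContinuousLinearMap.comp_apply, ContinuousLinearMap.flip_apply,
      _root_.zero_apply, map_zero, zero_add] at h4
    rw [fderiv_eval1 hDu] at h4
    rw [← fderiv_eval2 hgK, fderiv_gK hx] at h4
    rw [gK_symm x a (GG u x), gK_GG u hx, gK_GG u hx] at h4
    linarith
  -- derivative of the connection applied to constant vectors
  have hGm : ∀ a b c, fderiv ℝ (fun y => Gm u y b c) x a =
      (gK x a b + ph x a * ph x b + fderiv ℝ (fderiv ℝ u) x a b) • c +
      (gK x a c + ph x a * ph x c + fderiv ℝ (fderiv ℝ u) x a c) • b -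
      ((2 * ph x a * gK x b c + ph x b * gK x a c + ph x c * gK x a b) • GG u x +
        gK x b c • fderiv ℝ (GG u) x a) := by
    intro a b c
    have hth : ∀ b, HasFDerivAt (fun y => theta u y b)
        (fderiv ℝ (fun y => ph y b) x + fderiv ℝ (fun y => fderiv ℝ u y b) x) x := by
      intro b
      have h1 : HasFDerivAt (fun y => ph y b) (fderiv ℝ (fun y => ph y b) x) x :=
        (hph.clm_apply (differentiableAt_const b)).hasFDerivAt
      have h2 : HasFDerivAt (fun y => fderiv ℝ u y b) (fderiv ℝ (fun y => fderiv ℝ u y b) x) x :=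
        (hDu.clm_apply (differentiableAt_const b)).hasFDerivAt
      exact h1.add h2
    have hgbc : HasFDerivAt (fun y => gK y b c) (fderiv ℝ (fun y => gK y b c) x) x :=
      ((hgK.clm_apply (differentiableAt_const b)).clm_apply
        (differentiableAt_const c)).hasFDerivAt
    have h1 := (((hth b).smul_const c).add ((hth c).smul_const b)).sub
      (hgbc.fun_smul hG.hasFDerivAt)
    have h2 : (fun y => Gm u y b c) = ((fun y => theta u y b • c) + fun y => theta u y c • b) -
        fun y => gK y b c • GG u y := by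
      funext y
      simp only [Pi.add_apply, Pi.sub_apply]
      exact Gm_apply u y b c
    rw [h2, h1.fderiv]
    simp only [sub_apply, add_apply, ContinuousLinearMap.smulRight_apply, smul_apply,
      fderiv_gK hx, fderiv_ph hx]
    rw [fderiv_eval1 hDu, fderiv_eval1 hDu]
    module
  unfold curvVec
  rw [hGm, hGm]
  simp only [Gm_apply, map_sub, map_add, map_smul, sub_apply, add_apply, smul_apply,
    smul_eq_mul, gK_GG u hx, theta, hDG]
  have e1 : gK x w v = gK x v w := gK_symm x w v
  have e2 : gK x v (GG u x) = fderiv ℝ u x v := by rw [gK_symm, gK_GG u hx]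
  have e3 : gK x w (GG u x) = fderiv ℝ u x w := by rw [gK_symm, gK_GG u hx]
  rw [e1, e2, e3, hsymm]
  ring

end Pool.Agent.H62.NegCurv
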