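import Pool.Agent.H62.NegCurv.Compare
import Pool.Agent.H62.NegCurv.Statement

/-!
# The counterexample
-/

open scoped RealInnerProductSpace ContDiff Topology

namespace Pool.Agent.H62.NegCurv

lemma snd_ne_zero {b : V} (hb : b ∈ BB) : b.2 ≠ 0 := by
  intro h
  have h1 := hb.2.1
  rw [F_self, h] at h1
  simp at h1
  nlinarith [sq_nonneg b.1]

/-- unbundled metric -/
noncomputable def gU (ε : ℝ) (x v w : E3) : ℝ := gC (bump ε) x v w

/-- unbundled connection -/
noncomputable def cU (ε : ℝ) (x v w : E3) : E3 := Gm (bump ε) x v w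

lemma contDiffOn_gU (ε : ℝ) (v w : E3) : ContDiffOn ℝ ∞ (fun x => gU ε x v w) U :=
  ((isRiemannianMetric_gC (bump_contDiffOn ε)).smooth.clm_apply contDiffOn_const).clm_apply
    contDiffOn_const

lemma isMetric_gU (ε : ℝ) : CompactNeg.IsRiemannianMetric (n := 3) U (gU ε) where
  smooth v w := contDiffOn_gU ε v w
  linear x _ a v v' w := by
    unfold gU
    rw [map_add, map_smul]
    simp only [add_apply, smul_apply, smul_eq_mul]
  symm x hx v w := (isRiemannianMetric_gC (bump_contDiffOn ε)).symm x hx v w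
  pos x hx v hv := (isRiemannianMetric_gC (bump_contDiffOn ε)).pos x hx v hv

lemma lineDeriv_gU (ε : ℝ) {x : E3} (hx : x ∈ U) (v w a : E3) :
    lineDeriv ℝ (fun y => gU ε y v w) x a = fderiv ℝ (fun y => gC (bump ε) y v w) x a := by
  have h : DifferentiableAt ℝ (fun y => gU ε y v w) x :=
    ((contDiffOn_gU ε v w).contDiffAt (isOpen_U.mem_nhds hx)).differentiableAt (by simp)
  exact h.lineDeriv_eq_fderiv

lemma isLeviCivita_cU (ε : ℝ) : CompactNeg.IsLeviCivita (n := 3) U (gU ε) (cU ε) := by
  intro x hx a b c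
  rw [lineDeriv_gU ε hx, lineDeriv_gU ε hx, lineDeriv_gU ε hx]
  exact isLeviCivita_Gm (bump_contDiffOn ε) x hx a b c

lemma differentiableAt_cU (ε : ℝ) {x : E3} (hx : x ∈ U) (v w : E3) :
    DifferentiableAt ℝ (fun y => Gm (bump ε) y v w) x := by
  have hu := bump_contDiffOn ε
  have hUx := isOpen_U.mem_nhds hx
  have hDu : DifferentiableAt ℝ (fderiv ℝ (bump ε)) x :=
    ((contDiffOn_fderiv hu).contDiffAt hUx).differentiableAt (by simp)
  have hG : DifferentiableAt ℝ (GG (bump ε)) x :=
    ((contDiffOn_GG hu).contDiffAt hUx).differentiableAt (by simp)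
  have hgK := differentiableAt_gK hx
  have hph : DifferentiableAt ℝ ph x :=
    (contDiffOn_ph.contDiffAt hUx).differentiableAt (by simp)
  have hth : ∀ a, DifferentiableAt ℝ (fun y => theta (bump ε) y a) x := by
    intro a
    have : DifferentiableAt ℝ (theta (bump ε)) x := hph.add hDu
    exact this.clm_apply (differentiableAt_const a)
  have hg2 : DifferentiableAt ℝ (fun y => gK y v w) x :=
    (hgK.clm_apply (differentiableAt_const v)).clm_apply (differentiableAt_const w)
  simp only [Gm_apply]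
  exact (((hth v).smul_const w).add ((hth w).smul_const v)).sub (hg2.fun_smul hG)

lemma sectional_cU (ε : ℝ) {x : E3} (hx : x ∈ U) (v w : E3) :
    CompactNeg.sectional (n := 3) (gU ε) (cU ε) x v w =
      sectional (n := 3) (gC (bump ε)) (Gm (bump ε)) x v w := by
  have h : CompactNeg.curvVec (n := 3) (cU ε) x v w = curvVec (n := 3) (Gm (bump ε)) x v w := by
    have e1 : lineDeriv ℝ (fun y => cU ε y w w) x v =
        fderiv ℝ (fun y => Gm (bump ε) y w w) x v :=
      (differentiableAt_cU ε hx w w).lineDeriv_eq_fderiv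
    have e2 : lineDeriv ℝ (fun y => cU ε y v w) x w =
        fderiv ℝ (fun y => Gm (bump ε) y v w) x w :=
      (differentiableAt_cU ε hx v w).lineDeriv_eq_fderiv
    unfold CompactNeg.curvVec curvVec
    rw [e1, e2]
    rfl
  unfold CompactNeg.sectional sectional
  rw [h]
  rfl

lemma totallyGeodesic (ε : ℝ) {p : E3} {b : V} (hb : b ∈ BB)
    (hbp : F (hat p) b = 0) {r : ℝ} (hr : 0 < r) (hball : Metric.ball p r ⊆ U)
    (hX : ∀ y ∈ Metric.ball p r, (y ∈ X ↔ F (hat y) b ≤ 0)) :
    CompactNeg.TotallyGeodesicBoundaryAt (n := 3) U (cU ε) X p := by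
  have hd : ∀ y v, lineDeriv ℝ (fun y : E3 => - F (hat y) b) y v = -(ip b.2 v) := fun y v => by
    have h : HasFDerivAt (fun y : E3 => - F (hat y) b) (-(ip b.2)) y := (hasFDerivAt_l b y).neg
    rw [h.differentiableAt.lineDeriv_eq_fderiv, h.fderiv]
    rfl
  refine ⟨Metric.ball p r, fun y => - F (hat y) b, Metric.isOpen_ball,
    Metric.mem_ball_self hr, hball, (contDiff_F_hat b).neg.contDiffOn, by simp [hbp], ?_, ?_⟩
  · intro y hy
    rw [hX y hy]
    constructor <;> intro h <;> linarith
  · intro y hy hy0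
    have hyU := hball hy
    have hyb : F (hat y) b = 0 := by linarith
    refine ⟨⟨b.2, ?_⟩, ?_⟩
    · rw [hd]
      simp only [ip_apply, ne_eq, neg_eq_zero, inner_self_eq_zero]
      exact snd_ne_zero hb
    · intro v hv
      have hv' : ip b.2 v = 0 := by
        rw [hd] at hv
        linarith
      have e1 : (fun z => lineDeriv ℝ (fun y : E3 => - F (hat y) b) z v) =
          fun _ => -(ip b.2 v) := by
        funext z
        rw [hd z]
      have e2 : lineDeriv ℝ (fun _ : E3 => -(ip b.2 v)) y v = 0 := by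
        rw [(differentiableAt_const _).lineDeriv_eq_fderiv, fderiv_const_apply]
        rfl
      rw [e1, e2, hd]
      -- the conformal factor is trivial near the wall
      have hz := bump_near_wall ε hb hyU hyb
      have hfd : fderiv ℝ (bump ε) y = 0 := by
        rw [hz.fderiv_eq, fderiv_const_apply]
      have hgrd : GG (bump ε) y = 0 := by
        have : grd (bump ε) y = 0 := by
          unfold grd; rw [hfd, map_zero]
        unfold GG
        rw [this]; simp
      unfold cU
      rw [Gm_apply, hgrd]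
      simp only [smul_zero, sub_zero, map_add, map_smul, hv', neg_zero, smul_eq_mul,
        mul_zero, add_zero]

instance contractible_X : ContractibleSpace X := convex_X.contractibleSpace ⟨x0, x0_mem_X⟩

lemma lineDeriv_act {A : V ≃L[ℝ] V} (hA : A ∈ Lam) {x : E3} (hx : x ∈ U) (v : E3) :
    lineDeriv ℝ (act A) x v = dact A x v := by
  have h : DifferentiableAt ℝ (act A) x :=
    ((act_smooth hA).contDiffAt (isOpen_U.mem_nhds hx)).differentiableAt (by simp)
  rw [h.lineDeriv_eq_fderiv, fderiv_act hA hx]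

/-- the manifold -/
noncomputable def model (ε : ℝ) (hε : ∀ x ∈ U, ∀ z, -(1 / 4) * gK x z z ≤
      fderiv ℝ (fderiv ℝ (bump ε)) x z z - 2 * ph x z * fderiv ℝ (bump ε) x z) :
    CompactNeg.CompactNegCurved 3 where
  U := U
  isOpen_U := isOpen_U
  g := gU ε
  isMetric := isMetric_gU ε
  conn := cU ε
  isLeviCivita := isLeviCivita_cU ε
  X := X
  subset := fun x hx => hx.1
  closed := ⟨Hs, isClosed_Hs, X_eq⟩
  simplyConnected := inferInstance
  negative := fun x hx v w h => by
    rw [sectional_cU ε hx.1]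
    exact sectional_neg (bump_contDiffOn ε) hx.1 (hε x hx.1) h
  boundary := by
    intro p hp
    rcases X_local hp with h | ⟨b, hb, hbp, r, hr, hball, hX⟩
    · exact Or.inl (mem_interior_iff_mem_nhds.mpr h)
    · exact Or.inr (totallyGeodesic ε hb hbp hr hball hX)
  boundary_nonempty := by
    obtain ⟨p, hp, hp'⟩ := boundary_nonempty
    exact ⟨p, hp, fun h => hp' (mem_interior_iff_mem_nhds.mp h)⟩
  Deck := Deck
  act := fun γ x => act γ.1 x
  act_mem := fun γ x hx => act_mem γ.2.1.1 hx
  act_one := fun x _ => act_one x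
  act_mul := fun γ δ x hx => act_mul δ.2.1.1 hx
  act_smooth := fun γ => act_smooth γ.2.1.1
  act_isometry := by
    intro γ x hx v w
    have hL := γ.2.1.1
    have e1 := lineDeriv_act hL hx v
    have e2 := lineDeriv_act hL hx w
    unfold gU
    rw [e1, e2, gC_apply, gC_apply, gK_act hL hx, bump_act γ.2.1 hx]
  act_mem_X := fun γ x hx => Deck_act γ.2 hx
  free := by
    intro γ x hx h
    exact Subtype.ext (free γ.2.1 hx.1 h)
  proper := by
    intro K hK hKc
    rcases K.eq_empty_or_nonempty with rfl | hne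
    · simp
    · obtain ⟨z, hz, hmin⟩ := hKc.exists_isMinOn hne continuous_rho.continuousOn
      have hz0 : 0 < rho z := (hK hz).1
      apply Set.Finite.of_finite_image (f := Subtype.val) _ Subtype.val_injective.injOn
      apply (finite_Lam (rho z) hz0).subset
      rintro _ ⟨γ, ⟨y, ⟨x, hx, rfl⟩, hy⟩, rfl⟩
      exact ⟨γ.2.1.1, x, hmin hx, hmin hy⟩
  cocompact := by
    obtain ⟨δ, hδ, h⟩ := Deck_cocompact
    refine ⟨XK δ, fun x hx => hx.1, isCompact_XK hδ, fun x hx => ?_⟩
    obtain ⟨A, hA, hA2⟩ := h x hx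
    exact ⟨⟨A, hA⟩, Deck_act hA hx, hA2⟩

/-- the two notions of path length agree -/
lemma pathLength_iff {ε : ℝ} {x y : E3} {L : ℝ} :
    CompactNeg.PathLength (n := 3) (gU ε) X x y L ↔ PathLength (gC (bump ε)) X x y L := by
  constructor
  · intro h
    induction h with
    | nil x hx => exact PathLength.nil x hx
    | cons c z L hc hX h ih => exact PathLength.cons c z L hc hX ih
  · intro h
    induction h with
    | nil x hx => exact CompactNeg.PathLength.nil x hx
    | cons c z L hc hX h ih => exact CompactNeg.PathLength.cons c z L hc hX ih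

lemma pathDist_eq (ε : ℝ) (x y : E3) :
    CompactNeg.pathDist (n := 3) (gU ε) X x y = pathDist (gC (bump ε)) X x y := by
  unfold CompactNeg.pathDist pathDist
  simp only [pathLength_iff]

/-- the quasi-isometry -/
noncomputable def flip (x : X) : X := ⟨PhL x.1, PhL_X x.2⟩

lemma flip_flip (x : X) : flip (flip x) = x := Subtype.ext (PhL_PhL x.2.1)

lemma one_lt_lam_pow {k : ℕ} (hk : 0 < k) : 1 < lam ^ k := one_lt_pow₀ lam_gt hk.ne'

/-- the statement for the distance function of the model -/
theorem core {ε : ℝ} (hε0 : 0 < ε) (d : X → X → ℝ)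
    (hd : ∀ x y, d x y = pathDist (gC (bump ε)) X x.1 y.1) :
    CompactNeg.IsQuasiIsometry d flip ∧
    ∀ ψ : X → X, CompactNeg.IsIsometry d ψ → ¬ CompactNeg.BoundedDistance d flip ψ := by
  constructor
  · -- quasi-isometry
    have h1 : 1 ≤ Real.exp ε := Real.one_le_exp hε0.le
    refine ⟨Real.exp ε, 0, h1, le_rfl, fun x y => ⟨?_, ?_⟩, fun y => ⟨flip y, ?_⟩⟩
    · rw [sub_zero, inv_mul_le_iff₀ (Real.exp_pos ε), hd, hd]
      have h2 := pathDist_phi hε0.le (flip x).2 (flip y).2
      have h3 : PhL (flip x).1 = x.1 := congrArg Subtype.val (flip_flip x)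
      have h4 : PhL (flip y).1 = y.1 := congrArg Subtype.val (flip_flip y)
      rw [h3, h4] at h2
      exact h2
    · rw [add_zero, hd, hd]
      exact pathDist_phi hε0.le x.2 y.2
    · rw [flip_flip, hd]
      exact (pathDist_self y.2).le
  · rintro ψ ⟨-, hψ⟩ ⟨C, hC⟩
    simp only [hd] at hψ hC
    obtain ⟨k, hk, hkG⟩ := exists_pow_mem axA_Lam
    have hE := eig_axA.pow k
    obtain ⟨η, hη, hlow⟩ := lower hε0 hE hkG (one_lt_lam_pow hk)
    set γ := axA ^ k with hγ
    set τ := Real.log (lam ^ k) with hτ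
    have hτ0 : 0 < τ := Real.log_pos (one_lt_lam_pow hk)
    -- choose `n` large
    obtain ⟨n, hn⟩ := exists_nat_gt (2 * C / η)
    have hn' : 2 * C < n * η := by rwa [div_lt_iff₀ hη] at hn
    have hpow := hE.pow n
    have hxn := act_mem hpow.mem x0_mem_X.1
    have hax := onAx_act hpow x0_mem_X.1 onAx_x0
    have hxnX := axis_mem_X hxn hax
    set a : X := ⟨x0, x0_mem_X⟩ with ha
    set b : X := ⟨act (γ ^ n) x0, hxnX⟩ with hb
    have hup : pathDist (gC (bump ε)) X (flip a).1 (flip b).1 ≤ n * τ := by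
      refine (upper x0_mem_X.1 hxn onAx_x0 hax).trans ?_
      rw [TT_act hpow x0_mem_X.1, Real.log_pow, ← hτ]
      have : TT x0 + n * τ - TT x0 = n * τ := by ring
      rw [this, abs_of_nonneg (by positivity)]
    have hlo : n * (τ + η) ≤ pathDist (gC (bump ε)) X a.1 b.1 := hlow n
    have hiso : pathDist (gC (bump ε)) X (ψ a).1 (ψ b).1 = pathDist (gC (bump ε)) X a.1 b.1 :=
      hψ a b
    have hCa : pathDist (gC (bump ε)) X (flip a).1 (ψ a).1 ≤ C := hC a
    have hCb : pathDist (gC (bump ε)) X (flip b).1 (ψ b).1 ≤ C := hC b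
    have t1 := pathDist_triangle (g := gC (bump ε)) convex_X (ψ a).2 (flip a).2 (ψ b).2
    have t2 := pathDist_triangle (g := gC (bump ε)) convex_X (flip a).2 (flip b).2 (ψ b).2
    have hCa' : pathDist (gC (bump ε)) X (ψ a).1 (flip a).1 ≤ C := by
      rw [pathDist_comm]; exact hCa
    have : (n : ℝ) * (τ + η) ≤ C + (n * τ + C) := by linarith
    nlinarith

theorem main : ∃ (M : CompactNeg.CompactNegCurved 3) (f : M.X → M.X),
    CompactNeg.IsQuasiIsometry M.dist f ∧
    ∀ ψ : M.X → M.X, CompactNeg.IsIsometry M.dist ψ →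
      ¬ CompactNeg.BoundedDistance M.dist f ψ := by
  obtain ⟨ε, hε0, hε⟩ := bump_hessian
  exact ⟨model ε hε, flip, core hε0 _ (fun x y => pathDist_eq ε x.1 y.1)⟩

end Pool.Agent.H62.NegCurv
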