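import Pool.Agent.H62.NegCurv.Chart

/-!
# Finiteness, proper discontinuity and freeness
-/

open scoped RealInnerProductSpace ContDiff

namespace Pool.Agent.H62.NegCurv

/-- the positive definite majorant of `F` at `x`, as a bilinear form -/
noncomputable def hb (x : E3) (v w : V) : ℝ := F v w + 2 * F (hat x) v * F (hat x) w / rho x

lemma hb_sub_left (x : E3) (v v' w : V) : hb x (v - v') w = hb x v w - hb x v' w := by
  unfold hb; rw [F_sub_left, F_sub_right]; ring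

lemma hb_smul_left (x : E3) (t : ℝ) (v w : V) : hb x (t • v) w = t * hb x v w := by
  unfold hb; rw [F_smul_left, F_smul_right]; ring

lemma hb_comm (x : E3) (v w : V) : hb x v w = hb x w v := by
  unfold hb; rw [F_comm v w]; ring

lemma hb_self_eq {x : E3} (hx : x ∈ U) (v : V) :
    hb x v v = mf (hat x) v v + F (hat x) v ^ 2 / rho x := by
  unfold hb mf
  rw [F_hat_self, F_comm v (hat x)]
  have h := (mem_U.mp hx).ne'
  field_simp
  ring

lemma hb_ge {x : E3} (hx : x ∈ U) (v : V) : rho x * ‖v.2‖ ^ 2 / 14 ≤ hb x v v := by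
  have hρ := mem_U.mp hx
  have hm : ⟪x, v.2⟫ ^ 2 ≤ ‖x‖ ^ 2 * ‖v.2‖ ^ 2 := by
    have := abs_real_inner_le_norm x v.2
    calc ⟪x, v.2⟫ ^ 2 = |⟪x, v.2⟫| ^ 2 := (sq_abs _).symm
      _ ≤ (‖x‖ * ‖v.2‖) ^ 2 := by gcongr
      _ = _ := by ring
  unfold hb
  have e : F (hat x) v = ⟪x, v.2⟫ - 7 * v.1 := by simp [F]
  rw [F_self, e]
  set m := ⟪x, v.2⟫
  set y := ‖x‖ ^ 2 with hy
  set W := ‖v.2‖ ^ 2
  set s := v.1
  have hr : rho x = 7 - y := rfl
  rw [hr] at hρ ⊢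
  have hy0 : 0 ≤ y := sq_nonneg _
  have hW0 : 0 ≤ W := sq_nonneg _
  have key : (7 - y) ^ 2 * W / 14 ≤ (7 - y) * (W - 7 * s ^ 2) + 2 * (m - 7 * s) ^ 2 := by
    have h1 : (7 + y) * ((7 - y) * (W - 7 * s ^ 2) + 2 * (m - 7 * s) ^ 2) =
        7 * ((7 + y) * s - 2 * m) ^ 2 - 2 * (7 - y) * m ^ 2 + (7 + y) * (7 - y) * W := by ring
    have h2 : (7 - y) ^ 2 * W ≤ (7 + y) * ((7 - y) * (W - 7 * s ^ 2) + 2 * (m - 7 * s) ^ 2) := by
      rw [h1]
      have h3 : 2 * (7 - y) * m ^ 2 ≤ 2 * (7 - y) * (y * W) := by gcongr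
      nlinarith [sq_nonneg ((7 + y) * s - 2 * m)]
    have h4 : 0 ≤ (7 - y) ^ 2 * W := by positivity
    by_contra hcon
    push Not at hcon
    have h5 : (7 + y) * ((7 - y) * (W - 7 * s ^ 2) + 2 * (m - 7 * s) ^ 2) <
        (7 + y) * ((7 - y) ^ 2 * W / 14) := by
      apply mul_lt_mul_of_pos_left hcon; linarith
    have h6 : (7 + y) * ((7 - y) ^ 2 * W / 14) ≤ (7 - y) ^ 2 * W := by
      have : (7 + y) / 14 ≤ 1 := by linarith
      calc (7 + y) * ((7 - y) ^ 2 * W / 14) = ((7 + y) / 14) * ((7 - y) ^ 2 * W) := by ring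
        _ ≤ 1 * ((7 - y) ^ 2 * W) := by gcongr
        _ = _ := one_mul _
    linarith
  have e2 : W - 7 * s ^ 2 + 2 * (m - 7 * s) * (m - 7 * s) / (7 - y) =
      ((7 - y) * (W - 7 * s ^ 2) + 2 * (m - 7 * s) ^ 2) / (7 - y) := by
    field_simp
  rw [e2, le_div_iff₀ hρ]
  calc (7 - y) * W / 14 * (7 - y) = (7 - y) ^ 2 * W / 14 := by ring
    _ ≤ _ := key

lemma hb_ge' {x : E3} (hx : x ∈ U) (v : V) : F (hat x) v ^ 2 / rho x ≤ hb x v v := by
  rw [hb_self_eq hx]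
  have := mf_nonneg (F_hat_neg hx) v
  linarith

lemma hb_nonneg {x : E3} (hx : x ∈ U) (v : V) : 0 ≤ hb x v v := by
  have h1 := hb_ge hx v
  have h2 : 0 ≤ rho x * ‖v.2‖ ^ 2 / 14 := by
    have := mem_U.mp hx
    positivity
  linarith

lemma eq_zero_of_hb {x : E3} (hx : x ∈ U) {v : V} (h : hb x v v ≤ 0) : v = 0 := by
  have hρ := mem_U.mp hx
  have h1 := hb_ge hx v
  have h2 : ‖v.2‖ ^ 2 = 0 := by
    by_contra hne
    have : 0 < ‖v.2‖ ^ 2 := lt_of_le_of_ne (sq_nonneg _) (Ne.symm hne)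
    have : 0 < rho x * ‖v.2‖ ^ 2 / 14 := by positivity
    linarith
  have h3 : v.2 = 0 := by
    have := pow_eq_zero_iff (two_ne_zero) |>.mp h2
    exact norm_eq_zero.mp this
  have h4 := hb_ge' hx v
  have h5 : F (hat x) v = 0 := by
    by_contra hne
    have : 0 < F (hat x) v ^ 2 / rho x := by positivity
    linarith
  have h6 : F (hat x) v = - 7 * v.1 := by simp [F, h3]
  have h7 : v.1 = 0 := by rw [h6] at h5; linarith
  exact Prod.ext h7 h3

lemma rho_le (x : E3) : rho x ≤ 7 := by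
  unfold rho
  have := sq_nonneg ‖x‖
  linarith

/-- Integral vectors with bounded majorant are finite in number, locally uniformly. -/
lemma finite_hb (δ B : ℝ) (hδ : 0 < δ) :
    {v : V | IsInt v ∧ ∃ x, δ ≤ rho x ∧ hb x v v ≤ B}.Finite := by
  set R : ℝ := Real.sqrt (14 * |B| / δ) with hR
  set S : ℝ := Real.sqrt (7 * |B|) with hS
  refine (finite_int (R + S + 3 * R)).subset ?_
  rintro v ⟨hv, x, hx, hB⟩
  have hxU : x ∈ U := lt_of_lt_of_le hδ hx
  have hρ := mem_U.mp hxU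
  have hB' : hb x v v ≤ |B| := hB.trans (le_abs_self B)
  have h1 := hb_ge hxU v
  have hR0 : 0 ≤ R := Real.sqrt_nonneg _
  have hS0 : 0 ≤ S := Real.sqrt_nonneg _
  have hn : ‖v.2‖ ≤ R := by
    apply Real.le_sqrt_of_sq_le
    rw [le_div_iff₀ hδ]
    have : δ * ‖v.2‖ ^ 2 ≤ rho x * ‖v.2‖ ^ 2 := by gcongr
    linarith
  have h2 := hb_ge' hxU v
  have h3 : F (hat x) v ^ 2 ≤ 7 * |B| := by
    have h4 : F (hat x) v ^ 2 / rho x ≤ |B| := h2.trans hB'
    rw [div_le_iff₀ hρ] at h4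
    have h5 : |B| * rho x ≤ |B| * 7 := by
      gcongr
      exact rho_le x
    linarith
  have h6 : |F (hat x) v| ≤ S := Real.abs_le_sqrt h3
  have e : F (hat x) v = ⟪x, v.2⟫ - 7 * v.1 := by simp [F]
  have h7 : |⟪x, v.2⟫| ≤ ‖x‖ * ‖v.2‖ := abs_real_inner_le_norm x v.2
  have hx3 : ‖x‖ ≤ 3 := by
    have h8 : 0 < 7 - ‖x‖ ^ 2 := hρ
    by_contra hcon
    push Not at hcon
    nlinarith [norm_nonneg x]
  have h9 : ‖x‖ * ‖v.2‖ ≤ 3 * R := by gcongr
  refine ⟨hv, ?_, by linarith⟩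
  rw [e] at h6
  rw [abs_le] at h6 h7 ⊢
  constructor <;> linarith [h6.1, h6.2, h7.1, h7.2]

lemma hb_eq_q (v : V) (x : E3) : hb x v v = F v v + 2 * q v x := by
  unfold hb q; ring

/-- local finiteness in terms of the distance function -/
lemma finite_q (c δ B : ℝ) (hδ : 0 < δ) :
    {v : V | IsInt v ∧ F v v = c ∧ ∃ x, δ ≤ rho x ∧ q v x ≤ B}.Finite := by
  refine (finite_hb δ (c + 2 * B) hδ).subset ?_
  rintro v ⟨h1, h2, x, h3, h4⟩
  refine ⟨h1, x, h3, ?_⟩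
  rw [hb_eq_q, h2]; linarith

lemma q_bvec_le {x : E3} (hx : x ∈ U) (j : Fin 4) : q (bvec j) x ≤ 49 / rho x := by
  have hρ := mem_U.mp hx
  have hn : ‖x‖ ^ 2 < 7 := by unfold rho at hρ; linarith
  have hc : ∀ i, x i ^ 2 ≤ ‖x‖ ^ 2 := by
    intro i
    have : |x i| ≤ ‖x‖ := by simpa using PiLp.norm_apply_le x i
    calc x i ^ 2 = |x i| ^ 2 := (sq_abs _).symm
      _ ≤ _ := by gcongr
  unfold q
  gcongr
  rw [F_coord]
  fin_cases j
  · simp [bvec]; norm_num
  · simp [bvec]; linarith [hc 0]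
  · simp [bvec]; linarith [hc 1]
  · simp [bvec]; linarith [hc 2]

/-- proper discontinuity of the arithmetic group -/
lemma finite_Lam (δ : ℝ) (hδ : 0 < δ) :
    {A : V ≃L[ℝ] V | A ∈ Lam ∧ ∃ x, δ ≤ rho x ∧ δ ≤ rho (act A x)}.Finite := by
  let T : Fin 4 → Set V := fun j =>
    {v : V | IsInt v ∧ F v v = F (bvec j) (bvec j) ∧ ∃ x, δ ≤ rho x ∧ q v x ≤ 49 / δ}
  have hT : (Set.pi Set.univ T).Finite := Set.Finite.pi (fun j => finite_q _ δ _ hδ)
  have hinj : Set.InjOn (fun (A : V ≃L[ℝ] V) (j : Fin 4) => A (bvec j))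
      {A : V ≃L[ℝ] V | A ∈ Lam ∧ ∃ x, δ ≤ rho x ∧ δ ≤ rho (act A x)} := by
    intro A _ B _ h
    exact eq_of_basis (fun j => congrFun h j)
  apply Set.Finite.of_finite_image (hT.subset _) hinj
  rintro _ ⟨A, ⟨hA, x, hx, hAx⟩, rfl⟩ j -
  have hxU : x ∈ U := lt_of_lt_of_le hδ hx
  refine ⟨hA.1.int _ (isInt_bvec j), hA.1.isom _ _, act A x, hAx, ?_⟩
  rw [q_act hA hxU]
  refine (q_bvec_le hxU j).trans ?_
  gcongr

lemma hb_img {A : V ≃L[ℝ] V} (hA : A ∈ Lam) {x : E3} (hx : A (hat x) = hat x) (v w : V) :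
    hb x (A v) (A w) = hb x v w := by
  unfold hb
  have h : ∀ v, F (hat x) (A v) = F (hat x) v := by
    intro v
    conv_lhs => rw [← hx]
    exact hA.1.isom _ _
  rw [hA.1.isom, h, h]

/-- the congruence subgroup acts freely on the ball -/
lemma free {A : V ≃L[ℝ] V} (hA : A ∈ Gam) {x : E3} (hx : x ∈ U) (h : act A x = x) : A = 1 := by
  have hL := hA.1
  have h1 := hat_act hL hx
  rw [h] at h1
  have hc : 0 < (A (hat x)).1 := (fut_img hL hx).2
  set c := (A (hat x)).1 with hcdef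
  have h2 : A (hat x) = c • hat x := by
    conv_rhs => rw [h1]
    rw [smul_smul, mul_inv_cancel₀ hc.ne', one_smul]
  have h3 : c ^ 2 = 1 := by
    have h4 := hL.1.isom (hat x) (hat x)
    rw [h2, F_smul_left, F_smul_right] at h4
    have h5 := (F_hat_neg hx).ne
    have h6 : (c ^ 2 - 1) * F (hat x) (hat x) = 0 := by linear_combination h4
    rcases mul_eq_zero.mp h6 with h7 | h7
    · linarith
    · exact absurd h7 h5
  have hc1 : c = 1 := by nlinarith
  have hfix : A (hat x) = hat x := by rw [h2, hc1, one_smul]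
  by_contra hne
  -- there is an integral vector which is moved
  have hex : ∃ v, IsInt v ∧ A v ≠ v := by
    by_contra hcon
    push Not at hcon
    exact hne (eq_of_basis (B := 1) (fun j => hcon _ (isInt_bvec j)))
  obtain ⟨v0, hv0, hv0'⟩ := hex
  have hfin : {v : V | (IsInt v ∧ A v ≠ v) ∧ hb x v v ≤ hb x v0 v0}.Finite := by
    refine (finite_hb (rho x) (hb x v0 v0) (mem_U.mp hx)).subset ?_
    rintro v ⟨⟨h4, -⟩, h5⟩
    exact ⟨h4, x, le_rfl, h5⟩
  obtain ⟨v, ⟨⟨hv1, hv2⟩, hv3⟩, hmin⟩ := Set.exists_min_image _ (fun v => hb x v v) hfin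
    ⟨v0, ⟨hv0, hv0'⟩, le_rfl⟩
  obtain ⟨w, hw, hw'⟩ := hA.2 v hv1
  have hvpos : 0 < hb x v v := by
    by_contra hcon
    have := eq_zero_of_hb hx (not_lt.mp hcon)
    apply hv2; rw [this]; simp
  have hpar : hb x (A v - v) (A v - v) ≤ 4 * hb x v v := by
    have e1 : hb x (A v - v) (A v - v) + hb x (A v + v) (A v + v) =
        2 * hb x (A v) (A v) + 2 * hb x v v := by
      unfold hb
      simp only [F_add_left, F_add_right, F_sub_left, F_sub_right]
      ring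
    rw [hb_img hL hfix] at e1
    have := hb_nonneg hx (A v + v)
    linarith
  have hw64 : hb x (A v - v) (A v - v) = 64 * hb x w w := by
    rw [hw', hb_smul_left, hb_comm, hb_smul_left]; ring
  have hwfix : A w = w := by
    by_contra hcon
    have h5 : hb x w w ≤ hb x v0 v0 := by
      have : hb x w w ≤ hb x v v := by linarith
      linarith
    have := hmin w ⟨⟨hw, hcon⟩, h5⟩
    linarith
  have hz : A (A v - v) = A v - v := by rw [hw', map_smul, hwfix]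
  have h6 : hb x (A v - v) (A v - v) = 0 := by
    have e1 : hb x (A v) (A v - v) = hb x v (A v - v) := by
      conv_lhs => rw [← hz]
      exact hb_img hL hfix _ _
    rw [hb_sub_left, e1]; ring
  have h7 := eq_zero_of_hb hx h6.le
  exact hv2 (sub_eq_zero.mp h7)

end Pool.Agent.H62.NegCurv
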