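import Mathlib

/-!
# The Lorentz form `-7 x₀² + x₁² + x₂² + x₃²`
-/

open scoped RealInnerProductSpace

namespace Pool.Agent.H62.NegCurv

/-- Euclidean 3-space -/
abbrev E3 := EuclideanSpace ℝ (Fin 3)

/-- The Lorentz space. -/
abbrev V := ℝ × E3

/-- The Lorentz form. -/
noncomputable def F (a b : V) : ℝ := ⟪a.2, b.2⟫ - 7 * a.1 * b.1

lemma F_comm (a b : V) : F a b = F b a := by
  simp only [F, real_inner_comm]; ring

lemma F_add_left (a b c : V) : F (a + b) c = F a c + F b c := by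
  simp only [F, Prod.fst_add, Prod.snd_add, inner_add_left]; ring

lemma F_add_right (a b c : V) : F a (b + c) = F a b + F a c := by
  simp only [F, Prod.fst_add, Prod.snd_add, inner_add_right]; ring

lemma F_smul_left (t : ℝ) (a b : V) : F (t • a) b = t * F a b := by
  simp only [F, Prod.smul_fst, Prod.smul_snd, inner_smul_left, smul_eq_mul, conj_trivial]; ring

lemma F_smul_right (t : ℝ) (a b : V) : F a (t • b) = t * F a b := by
  rw [F_comm, F_smul_left, F_comm]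

lemma F_neg_left (a b : V) : F (-a) b = - F a b := by
  simp only [F, Prod.fst_neg, Prod.snd_neg, inner_neg_left]; ring

lemma F_neg_right (a b : V) : F a (-b) = - F a b := by
  rw [F_comm, F_neg_left, F_comm]

lemma F_sub_left (a b c : V) : F (a - b) c = F a c - F b c := by
  rw [sub_eq_add_neg, F_add_left, F_neg_left]; ring

lemma F_sub_right (a b c : V) : F a (b - c) = F a b - F a c := by
  rw [F_comm, F_sub_left, F_comm b, F_comm c]

lemma F_zero_left (a : V) : F 0 a = 0 := by simp [F]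

lemma F_zero_right (a : V) : F a 0 = 0 := by simp [F]

lemma F_self (a : V) : F a a = ‖a.2‖ ^ 2 - 7 * a.1 ^ 2 := by
  simp only [F, real_inner_self_eq_norm_sq]; ring

/-- `F` is continuous. -/
lemma continuous_F : Continuous (fun p : V × V => F p.1 p.2) := by
  unfold F
  fun_prop

/-- future directed time-like vectors -/
def IsFut (a : V) : Prop := F a a < 0 ∧ 0 < a.1

lemma norm_lt_of_F_neg {a : V} (h : F a a < 0) : ‖a.2‖ ^ 2 < 7 * a.1 ^ 2 := by
  rw [F_self] at h; linarith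

/-- a future vector pairs negatively with a causal future vector -/
lemma F_neg_of_fut {a b : V} (ha : IsFut a) (hb : F b b ≤ 0) (hb1 : 0 < b.1) : F a b < 0 := by
  obtain ⟨h1, h2⟩ := ha
  have h3 := norm_lt_of_F_neg h1
  have h4 : ‖b.2‖ ^ 2 ≤ 7 * b.1 ^ 2 := by rw [F_self] at hb; linarith
  have h5 : ⟪a.2, b.2⟫ ≤ ‖a.2‖ * ‖b.2‖ := real_inner_le_norm _ _
  have h6 : ‖a.2‖ * ‖b.2‖ < 7 * a.1 * b.1 := by
    have hpos : 0 < 7 * a.1 * b.1 := by positivity
    have h7 : (‖a.2‖ * ‖b.2‖) ^ 2 < (7 * a.1 * b.1) ^ 2 := by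
      have e1 : (‖a.2‖ * ‖b.2‖) ^ 2 = ‖a.2‖ ^ 2 * ‖b.2‖ ^ 2 := by ring
      have e2 : (7 * a.1 * b.1) ^ 2 = (7 * a.1 ^ 2) * (7 * b.1 ^ 2) := by ring
      rw [e1, e2]
      have hb2 : 0 < 7 * b.1 ^ 2 := by positivity
      calc ‖a.2‖ ^ 2 * ‖b.2‖ ^ 2 ≤ ‖a.2‖ ^ 2 * (7 * b.1 ^ 2) := by gcongr
        _ < (7 * a.1 ^ 2) * (7 * b.1 ^ 2) := by gcongr
    exact lt_of_pow_lt_pow_left₀ 2 hpos.le h7
  unfold F
  linarith

/-- The orthogonal complement of a time-like vector is positive definite. -/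
lemma pos_of_orth {a w : V} (ha : F a a < 0) (h : F a w = 0) : 0 ≤ F w w := by
  have h1 := norm_lt_of_F_neg ha
  have h2 : ⟪a.2, w.2⟫ = 7 * a.1 * w.1 := by unfold F at h; linarith
  have h3 : |⟪a.2, w.2⟫| ≤ ‖a.2‖ * ‖w.2‖ := abs_real_inner_le_norm _ _
  rw [h2] at h3
  have h4 : (7 * a.1 * w.1) ^ 2 ≤ (‖a.2‖ * ‖w.2‖) ^ 2 := by
    rw [← sq_abs (7 * a.1 * w.1)]
    gcongr
  have ha1 : 0 < a.1 ^ 2 := by
    have := sq_nonneg ‖a.2‖
    by_contra h'
    have : a.1 ^ 2 ≤ 0 := not_lt.mp h'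
    nlinarith
  have h5 : 49 * a.1 ^ 2 * w.1 ^ 2 ≤ 7 * a.1 ^ 2 * ‖w.2‖ ^ 2 := by
    calc 49 * a.1 ^ 2 * w.1 ^ 2 = (7 * a.1 * w.1) ^ 2 := by ring
      _ ≤ (‖a.2‖ * ‖w.2‖) ^ 2 := h4
      _ = ‖a.2‖ ^ 2 * ‖w.2‖ ^ 2 := by ring
      _ ≤ 7 * a.1 ^ 2 * ‖w.2‖ ^ 2 := by gcongr
  rw [F_self]
  have h6 : 7 * w.1 ^ 2 ≤ ‖w.2‖ ^ 2 := by
    have h7 : (7 * a.1 ^ 2) * (7 * w.1 ^ 2) ≤ (7 * a.1 ^ 2) * ‖w.2‖ ^ 2 := by nlinarith
    exact le_of_mul_le_mul_left h7 (by positivity)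
  linarith

lemma eq_zero_of_orth {a w : V} (ha : F a a < 0) (h : F a w = 0) (hw : F w w ≤ 0) : w = 0 := by
  have h1 := norm_lt_of_F_neg ha
  have h2 : ⟪a.2, w.2⟫ = 7 * a.1 * w.1 := by unfold F at h; linarith
  have h3 : |⟪a.2, w.2⟫| ≤ ‖a.2‖ * ‖w.2‖ := abs_real_inner_le_norm _ _
  rw [h2] at h3
  have h4 : (7 * a.1 * w.1) ^ 2 ≤ (‖a.2‖ * ‖w.2‖) ^ 2 := by
    rw [← sq_abs (7 * a.1 * w.1)]
    gcongr
  have ha1 : 0 < a.1 ^ 2 := by
    have := sq_nonneg ‖a.2‖
    by_contra h'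
    have : a.1 ^ 2 ≤ 0 := not_lt.mp h'
    nlinarith
  rw [F_self] at hw
  have hw2 : ‖w.2‖ = 0 := by
    by_contra hne
    have hpos : 0 < ‖w.2‖ ^ 2 := by positivity
    have h5 : 49 * a.1 ^ 2 * w.1 ^ 2 < 7 * a.1 ^ 2 * ‖w.2‖ ^ 2 := by
      calc 49 * a.1 ^ 2 * w.1 ^ 2 = (7 * a.1 * w.1) ^ 2 := by ring
        _ ≤ (‖a.2‖ * ‖w.2‖) ^ 2 := h4
        _ = ‖a.2‖ ^ 2 * ‖w.2‖ ^ 2 := by ring
        _ < 7 * a.1 ^ 2 * ‖w.2‖ ^ 2 := by gcongr
    have h7 : (7 * a.1 ^ 2) * (7 * w.1 ^ 2) < (7 * a.1 ^ 2) * ‖w.2‖ ^ 2 := by nlinarith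
    have h8 := lt_of_mul_lt_mul_left h7 (by positivity)
    linarith
  have hw1 : w.1 = 0 := by
    rw [hw2] at h4
    have : (7 * a.1 * w.1) ^ 2 ≤ 0 := by simpa using h4
    have h9 : 7 * a.1 * w.1 = 0 := by
      have := le_antisymm this (sq_nonneg _)
      exact pow_eq_zero_iff (two_ne_zero) |>.mp this
    rcases mul_eq_zero.mp h9 with h10 | h10
    · exfalso
      have : a.1 = 0 := by linarith
      rw [this] at ha1; simp at ha1
    · exact h10
  exact Prod.ext hw1 (norm_eq_zero.mp hw2)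

/-- the projected form, positive semidefinite for time-like `a` -/
noncomputable def mf (a w z : V) : ℝ := F w z - F w a * F z a / F a a

lemma mf_eq {a : V} (ha : F a a ≠ 0) (w z : V) :
    mf a w z = F (w - (F w a / F a a) • a) (z - (F z a / F a a) • a) := by
  unfold mf
  simp only [F_sub_left, F_sub_right, F_smul_left, F_smul_right, F_comm a z]
  field_simp
  ring

lemma orth_proj {a : V} (ha : F a a ≠ 0) (w : V) : F a (w - (F w a / F a a) • a) = 0 := by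
  simp only [F_sub_right, F_smul_right, F_comm a w]
  field_simp
  ring

lemma mf_nonneg {a : V} (ha : F a a < 0) (w : V) : 0 ≤ mf a w w := by
  rw [mf_eq ha.ne]
  exact pos_of_orth ha (orth_proj ha.ne w)

/-- reversed Cauchy-Schwarz inequality -/
lemma rev_cs {a : V} (ha : F a a < 0) (b : V) : F a a * F b b ≤ F a b ^ 2 := by
  have h := mf_nonneg ha b
  unfold mf at h
  rw [F_comm b a] at h
  have h2 : F b b * F a a - F a b * F a b ≤ 0 := by
    have : (F b b - F a b * F a b / F a a) * F a a = F b b * F a a - F a b * F a b := by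
      have hne := ha.ne
      field_simp
    rw [← this]
    exact mul_nonpos_of_nonneg_of_nonpos h ha.le
  nlinarith

lemma mf_add_left (a w w' z : V) : mf a (w + w') z = mf a w z + mf a w' z := by
  unfold mf; rw [F_add_left, F_add_left]; ring

lemma mf_smul_left (a : V) (t : ℝ) (w z : V) : mf a (t • w) z = t * mf a w z := by
  unfold mf; rw [F_smul_left, F_smul_left]; ring

lemma mf_comm (a w z : V) : mf a w z = mf a z w := by
  unfold mf; rw [F_comm w z]; ring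

/-- Cauchy-Schwarz for the projected form -/
lemma mf_cs {a : V} (ha : F a a < 0) (w z : V) : mf a w z ^ 2 ≤ mf a w w * mf a z z := by
  have key : ∀ t : ℝ, 0 ≤ mf a z z * (t * t) + (2 * mf a w z) * t + mf a w w := by
    intro t
    have h := mf_nonneg ha (w + t • z)
    have e : mf a (w + t • z) (w + t • z)
        = mf a z z * (t * t) + (2 * mf a w z) * t + mf a w w := by
      rw [mf_add_left, mf_smul_left, mf_comm a w, mf_comm a z (w + t • z), mf_add_left,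
        mf_add_left, mf_smul_left, mf_smul_left, mf_comm a z w]
      ring
    rw [e] at h
    exact h
  have := discrim_le_zero key
  unfold discrim at this
  nlinarith

end Pool.Agent.H62.NegCurv
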