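import Pool.Agent.H62.NegCurv.Form

/-!
# Integral vectors, congruences, the arithmetic group
-/

open scoped RealInnerProductSpace

namespace Pool.Agent.H62.NegCurv

/-- integral vectors -/
def IsInt (a : V) : Prop := ∃ (n : ℤ) (m : Fin 3 → ℤ), a.1 = n ∧ ∀ i, a.2 i = m i

/-- the vector with given coordinates -/
noncomputable def vec (a b c d : ℝ) : V := (a, !₂[b, c, d])

@[simp] lemma vec_fst (a b c d : ℝ) : (vec a b c d).1 = a := rfl
@[simp] lemma vec_snd_0 (a b c d : ℝ) : (vec a b c d).2 0 = b := rfl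
@[simp] lemma vec_snd_1 (a b c d : ℝ) : (vec a b c d).2 1 = c := rfl
@[simp] lemma vec_snd_2 (a b c d : ℝ) : (vec a b c d).2 2 = d := rfl

lemma F_coord (a b : V) : F a b = a.2 0 * b.2 0 + a.2 1 * b.2 1 + a.2 2 * b.2 2
    - 7 * a.1 * b.1 := by
  unfold F
  rw [EuclideanSpace.inner_eq_star_dotProduct]
  simp [dotProduct, Fin.sum_univ_three]
  ring

lemma ext_coord {a b : V} (h : a.1 = b.1) (h0 : a.2 0 = b.2 0) (h1 : a.2 1 = b.2 1)
    (h2 : a.2 2 = b.2 2) : a = b := by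
  refine Prod.ext h ?_
  ext i
  fin_cases i
  · exact h0
  · exact h1
  · exact h2

lemma eq_vec (a : V) : a = vec a.1 (a.2 0) (a.2 1) (a.2 2) :=
  ext_coord rfl rfl rfl rfl

lemma isInt_vec (a b c d : ℤ) : IsInt (vec a b c d) := by
  refine ⟨a, ![b, c, d], rfl, fun i => ?_⟩
  fin_cases i <;> rfl

lemma IsInt.exists_vec {a : V} (h : IsInt a) : ∃ n m k l : ℤ, a = vec n m k l := by
  obtain ⟨n, m, h1, h2⟩ := h
  refine ⟨n, m 0, m 1, m 2, ext_coord h1 (h2 0) (h2 1) (h2 2)⟩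

lemma IsInt.add {a b : V} (ha : IsInt a) (hb : IsInt b) : IsInt (a + b) := by
  obtain ⟨n, m, h1, h2⟩ := ha
  obtain ⟨n', m', h1', h2'⟩ := hb
  refine ⟨n + n', m + m', ?_, fun i => ?_⟩
  · simp [h1, h1']
  · simp [h2, h2']

lemma IsInt.zsmul {a : V} (ha : IsInt a) (k : ℤ) : IsInt ((k : ℝ) • a) := by
  obtain ⟨n, m, h1, h2⟩ := ha
  refine ⟨k * n, fun i => k * m i, ?_, fun i => ?_⟩
  · simp [h1]
  · simp [h2]

lemma IsInt.neg {a : V} (ha : IsInt a) : IsInt (-a) := by
  have := ha.zsmul (-1)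
  simpa using this

lemma IsInt.sub {a b : V} (ha : IsInt a) (hb : IsInt b) : IsInt (a - b) := by
  rw [sub_eq_add_neg]; exact ha.add hb.neg

lemma isInt_zero : IsInt 0 := ⟨0, 0, by simp, by simp⟩

lemma IsInt.F_int {a b : V} (ha : IsInt a) (hb : IsInt b) : ∃ k : ℤ, F a b = k := by
  obtain ⟨n, m, k, l, rfl⟩ := ha.exists_vec
  obtain ⟨n', m', k', l', rfl⟩ := hb.exists_vec
  refine ⟨m * m' + k * k' + l * l' - 7 * n * n', ?_⟩
  rw [F_coord]
  push_cast
  simp

/-- congruence modulo 8 -/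
def Cong (a b : V) : Prop := ∃ c, IsInt c ∧ a - b = (8 : ℝ) • c

lemma Cong.refl (a : V) : Cong a a := ⟨0, isInt_zero, by simp⟩

lemma Cong.symm {a b : V} (h : Cong a b) : Cong b a := by
  obtain ⟨c, hc, h⟩ := h
  exact ⟨-c, hc.neg, by rw [smul_neg, ← h]; abel⟩

lemma Cong.trans {a b c : V} (h : Cong a b) (h' : Cong b c) : Cong a c := by
  obtain ⟨d, hd, h⟩ := h
  obtain ⟨e, he, h'⟩ := h'
  exact ⟨d + e, hd.add he, by rw [smul_add, ← h, ← h']; abel⟩

lemma Cong.add {a b c d : V} (h : Cong a b) (h' : Cong c d) : Cong (a + c) (b + d) := by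
  obtain ⟨e, he, h⟩ := h
  obtain ⟨f, hf, h'⟩ := h'
  exact ⟨e + f, he.add hf, by rw [smul_add, ← h, ← h']; abel⟩

lemma Cong.zsmul {a b : V} (h : Cong a b) (k : ℤ) : Cong ((k : ℝ) • a) ((k : ℝ) • b) := by
  obtain ⟨e, he, h⟩ := h
  exact ⟨(k : ℝ) • e, he.zsmul k, by rw [← smul_sub, h, smul_comm]⟩

lemma Cong.neg {a b : V} (h : Cong a b) : Cong (-a) (-b) := by
  have := h.zsmul (-1)
  simpa using this

lemma Cong.isInt {a b : V} (h : Cong a b) (hb : IsInt b) : IsInt a := by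
  obtain ⟨e, he, h⟩ := h
  have : a = b + (8 : ℝ) • e := by rw [← h]; abel
  rw [this]
  exact hb.add (he.zsmul 8)

/-- congruent vectors have congruent products with integral vectors -/
lemma Cong.F_cong {a b c : V} (h : Cong a b) (hc : IsInt c) : ∃ k : ℤ, F a c = F b c + 8 * k := by
  obtain ⟨e, he, h⟩ := h
  obtain ⟨k, hk⟩ := he.F_int hc
  refine ⟨k, ?_⟩
  have : a = b + (8 : ℝ) • e := by rw [← h]; abel
  rw [this, F_add_left, F_smul_left, hk]

/-- integral vectors in a bounded set are finite in number -/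
lemma finite_int (B : ℝ) : {a : V | IsInt a ∧ |a.1| ≤ B ∧ ‖a.2‖ ≤ B}.Finite := by
  have hfin : ((Set.Icc (-⌈B⌉) ⌈B⌉ : Set ℤ) ×ˢ
      (Set.Icc (fun _ => -⌈B⌉) (fun _ => ⌈B⌉) : Set (Fin 3 → ℤ))).Finite :=
    (Set.finite_Icc _ _).prod (Set.finite_Icc _ _)
  refine (hfin.image (fun p : ℤ × (Fin 3 → ℤ) => vec p.1 (p.2 0) (p.2 1) (p.2 2))).subset ?_
  rintro a ⟨⟨n, m, h1, h2⟩, h3, h4⟩
  have key : ∀ (x : ℤ), |(x : ℝ)| ≤ B → -⌈B⌉ ≤ x ∧ x ≤ ⌈B⌉ := by
    intro x hx
    rw [abs_le] at hx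
    constructor
    · have h5 : ((-x : ℤ) : ℝ) ≤ B := by push_cast; linarith
      have h6 : ((-x : ℤ) : ℝ) ≤ (⌈B⌉ : ℝ) := le_trans h5 (Int.le_ceil B)
      have h7 : -x ≤ ⌈B⌉ := by exact_mod_cast h6
      omega
    · exact_mod_cast le_trans hx.2 (Int.le_ceil B)
  refine ⟨(n, m), ⟨?_, ?_, ?_⟩, ?_⟩
  · exact key n (by rw [← h1]; exact h3)
  · intro i
    have : |a.2 i| ≤ ‖a.2‖ := by simpa using PiLp.norm_apply_le a.2 i
    exact (key (m i) (by rw [← h2]; linarith)).1
  · intro i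
    have : |a.2 i| ≤ ‖a.2‖ := by simpa using PiLp.norm_apply_le a.2 i
    exact (key (m i) (by rw [← h2]; linarith)).2
  · exact (ext_coord h1 (h2 0) (h2 1) (h2 2)).symm

/-- `F(·, r)` as a continuous linear functional -/
noncomputable def FL (r : V) : V →L[ℝ] ℝ :=
  (innerSL ℝ r.2).comp (ContinuousLinearMap.snd ℝ ℝ E3) -
    (7 * r.1) • ContinuousLinearMap.fst ℝ ℝ E3

@[simp] lemma FL_apply (r a : V) : FL r a = F a r := by
  simp only [FL, F, sub_apply, ContinuousLinearMap.comp_apply,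
    ContinuousLinearMap.coe_snd', innerSL_apply_apply, smul_apply,
    ContinuousLinearMap.coe_fst', smul_eq_mul, real_inner_comm]
  ring

/-- reflection as a continuous linear map -/
noncomputable def reflMap (r : V) : V →L[ℝ] V :=
  ContinuousLinearMap.id ℝ V - (2 / F r r) • (FL r).smulRight r

lemma reflMap_apply (r a : V) : reflMap r a = a - (2 * F a r / F r r) • r := by
  simp only [reflMap, sub_apply, ContinuousLinearMap.id_apply,
    smul_apply, ContinuousLinearMap.smulRight_apply, FL_apply, smul_smul]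
  congr 2
  ring

lemma reflMap_invol (r : V) (hr : F r r ≠ 0) : Function.LeftInverse (reflMap r) (reflMap r) := by
  intro a
  rw [reflMap_apply, reflMap_apply, F_sub_left, F_smul_left]
  have : 2 * (F a r - 2 * F a r / F r r * F r r) / F r r = - (2 * F a r / F r r) := by
    field_simp; ring
  rw [this]
  module

/-- reflection in a vector `r` of non-zero norm -/
noncomputable def refl (r : V) (hr : F r r ≠ 0) : V ≃L[ℝ] V :=
  ContinuousLinearEquiv.equivOfInverse (reflMap r) (reflMap r) (reflMap_invol r hr)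
    (reflMap_invol r hr)

lemma refl_apply (r : V) (hr : F r r ≠ 0) (a : V) :
    refl r hr a = a - (2 * F a r / F r r) • r := reflMap_apply r a

lemma refl_inv (r : V) (hr : F r r ≠ 0) : (refl r hr)⁻¹ = refl r hr := rfl

lemma mul_app (A B : V ≃L[ℝ] V) (a : V) : (A * B) a = A (B a) := rfl
lemma one_app (a : V) : (1 : V ≃L[ℝ] V) a = a := rfl
lemma inv_app_self (A : V ≃L[ℝ] V) (a : V) : A⁻¹ (A a) = a := A.symm_apply_apply a
lemma app_inv_self (A : V ≃L[ℝ] V) (a : V) : A (A⁻¹ a) = a := A.apply_symm_apply a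

/-- the defining conditions of the arithmetic group -/
structure Arith (A : V ≃L[ℝ] V) : Prop where
  isom : ∀ a b, F (A a) (A b) = F a b
  int : ∀ a, IsInt a → IsInt (A a)
  fut : ∀ a, IsFut a → IsFut (A a)

lemma Arith.mul {A B : V ≃L[ℝ] V} (hA : Arith A) (hB : Arith B) : Arith (A * B) where
  isom a b := by rw [mul_app, mul_app, hA.isom, hB.isom]
  int a ha := hA.int _ (hB.int a ha)
  fut a ha := hA.fut _ (hB.fut a ha)

lemma arith_one : Arith 1 := ⟨fun _ _ => rfl, fun _ h => h, fun _ h => h⟩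

/-- the arithmetic group -/
noncomputable def Lam : Subgroup (V ≃L[ℝ] V) where
  carrier := {A | Arith A ∧ Arith A⁻¹}
  mul_mem' := by
    rintro A B ⟨h1, h2⟩ ⟨h3, h4⟩
    exact ⟨h1.mul h3, by rw [mul_inv_rev]; exact h4.mul h2⟩
  one_mem' := ⟨arith_one, by rw [inv_one]; exact arith_one⟩
  inv_mem' := by
    rintro A ⟨h1, h2⟩
    exact ⟨h2, by rw [inv_inv]; exact h1⟩

lemma mem_Lam {A : V ≃L[ℝ] V} : A ∈ Lam ↔ Arith A ∧ Arith A⁻¹ := Iff.rfl

lemma F_inv {A : V ≃L[ℝ] V} (hA : A ∈ Lam) (a b : V) : F (A⁻¹ a) b = F a (A b) := by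
  rw [← hA.1.isom, app_inv_self]

/-- reflections in space-like vectors preserve the future cone -/
lemma refl_fut {r : V} (hr : 0 < F r r) {a : V} (ha : IsFut a) : IsFut (refl r hr.ne' a) := by
  have hiso : F (refl r hr.ne' a) (refl r hr.ne' a) = F a a := by
    rw [refl_apply]
    simp only [F_sub_left, F_sub_right, F_smul_left, F_smul_right, F_comm r a]
    field_simp
    ring
  refine ⟨by rw [hiso]; exact ha.1, ?_⟩
  -- otherwise the negative of the image is future, which contradicts the pairing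
  have hne : (refl r hr.ne' a).1 ≠ 0 := by
    intro h0
    have h1 := norm_lt_of_F_neg (a := refl r hr.ne' a) (by rw [hiso]; exact ha.1)
    rw [h0] at h1
    have := sq_nonneg ‖(refl r hr.ne' a).2‖
    linarith
  by_contra hle
  have hlt : (refl r hr.ne' a).1 < 0 := lt_of_le_of_ne (not_lt.mp hle) hne
  have hfut : IsFut (-(refl r hr.ne' a)) := by
    refine ⟨?_, by simpa using hlt⟩
    rw [F_neg_left, F_neg_right, neg_neg, hiso]; exact ha.1
  have h2 := F_neg_of_fut ha hfut.1.le hfut.2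
  rw [F_neg_right, refl_apply, F_sub_right, F_smul_right] at h2
  have h3 : F a a - 2 * F a r / F r r * F a r ≤ F a a := by
    have : 0 ≤ 2 * F a r / F r r * F a r := by
      have : 2 * F a r / F r r * F a r = 2 * F a r ^ 2 / F r r := by ring
      rw [this]
      positivity
    linarith
  have := ha.1
  linarith

lemma refl_mem_Lam {r : V} (hr : IsInt r) (h : F r r = 1 ∨ F r r = 2) (h0 : 0 < F r r) :
    refl r h0.ne' ∈ Lam := by
  have key : Arith (refl r h0.ne') := by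
    refine ⟨fun a b => ?_, fun a ha => ?_, fun a ha => refl_fut h0 ha⟩
    · rw [refl_apply, refl_apply]
      simp only [F_sub_left, F_sub_right, F_smul_left, F_smul_right, F_comm r b]
      field_simp
      ring
    · rw [refl_apply]
      obtain ⟨k, hk⟩ := ha.F_int hr
      rcases h with h | h
      · have : 2 * F a r / F r r = ((2 * k : ℤ) : ℝ) := by rw [h, hk]; push_cast; ring
        rw [this]
        exact ha.sub (hr.zsmul _)
      · have : 2 * F a r / F r r = (k : ℝ) := by rw [h, hk]; ring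
        rw [this]
        exact ha.sub (hr.zsmul _)
  exact ⟨key, by rw [refl_inv]; exact key⟩

/-- the principal congruence subgroup of level 8 -/
noncomputable def Gam : Subgroup (V ≃L[ℝ] V) where
  carrier := {A | A ∈ Lam ∧ ∀ a, IsInt a → Cong (A a) a}
  mul_mem' := by
    rintro A B ⟨h1, h2⟩ ⟨h3, h4⟩
    exact ⟨Lam.mul_mem h1 h3, fun a ha => (h2 _ (h3.1.int a ha)).trans (h4 a ha)⟩
  one_mem' := ⟨Lam.one_mem, fun a _ => Cong.refl a⟩
  inv_mem' := by
    rintro A ⟨h1, h2⟩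
    refine ⟨Lam.inv_mem h1, fun a ha => ?_⟩
    have := h2 (A⁻¹ a) (h1.2.int a ha)
    rw [app_inv_self] at this
    exact this.symm

lemma mem_Gam {A : V ≃L[ℝ] V} : A ∈ Gam ↔ A ∈ Lam ∧ ∀ a, IsInt a → Cong (A a) a := Iff.rfl

/-- elements of the arithmetic group preserve congruences -/
lemma Arith.cong {A : V ≃L[ℝ] V} (hA : Arith A) {a b : V} (h : Cong a b) :
    Cong (A a) (A b) := by
  obtain ⟨c, hc, h⟩ := h
  exact ⟨A c, hA.int c hc, by rw [← map_sub, h, map_smul]⟩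

/-- the standard basis -/
noncomputable def bvec : Fin 4 → V :=
  ![vec 1 0 0 0, vec 0 1 0 0, vec 0 0 1 0, vec 0 0 0 1]

lemma isInt_bvec (j : Fin 4) : IsInt (bvec j) := by
  fin_cases j
  · exact ⟨1, ![0, 0, 0], by simp [bvec], fun i => by fin_cases i <;> simp [bvec]⟩
  · exact ⟨0, ![1, 0, 0], by simp [bvec], fun i => by fin_cases i <;> simp [bvec]⟩
  · exact ⟨0, ![0, 1, 0], by simp [bvec], fun i => by fin_cases i <;> simp [bvec]⟩
  · exact ⟨0, ![0, 0, 1], by simp [bvec], fun i => by fin_cases i <;> simp [bvec]⟩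

lemma vec_eq_sum (n m k l : ℝ) : vec n m k l =
    n • bvec 0 + m • bvec 1 + k • bvec 2 + l • bvec 3 := by
  apply ext_coord <;> simp [bvec, vec]

/-- linear maps which agree modulo 8 on the basis agree modulo 8 on integral vectors -/
lemma cong_of_basis {A B : V ≃L[ℝ] V} (h : ∀ j, Cong (A (bvec j)) (B (bvec j))) {a : V}
    (ha : IsInt a) : Cong (A a) (B a) := by
  obtain ⟨n, m, k, l, rfl⟩ := ha.exists_vec
  rw [vec_eq_sum]
  simp only [map_add, map_smul]
  exact ((((h 0).zsmul n).add ((h 1).zsmul m)).add ((h 2).zsmul k)).add ((h 3).zsmul l)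

lemma eq_of_basis {A B : V ≃L[ℝ] V} (h : ∀ j, A (bvec j) = B (bvec j)) : A = B := by
  apply ContinuousLinearEquiv.ext
  funext a
  rw [eq_vec a, vec_eq_sum]
  simp only [map_add, map_smul, h]

/-- reduction modulo 8 of an integral vector -/
noncomputable def red (a : V) : Fin 4 → ZMod 8 :=
  ![(⌊a.1⌋ : ZMod 8), (⌊a.2 0⌋ : ZMod 8), (⌊a.2 1⌋ : ZMod 8), (⌊a.2 2⌋ : ZMod 8)]

lemma red_vec (n m k l : ℤ) : red (vec n m k l) = ![(n : ZMod 8), m, k, l] := by
  simp [red]

lemma cong_of_red {a b : V} (ha : IsInt a) (hb : IsInt b) (h : red a = red b) : Cong a b := by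
  obtain ⟨n, m, k, l, rfl⟩ := ha.exists_vec
  obtain ⟨n', m', k', l', rfl⟩ := hb.exists_vec
  rw [red_vec, red_vec] at h
  have h0 := congrFun h 0
  have h1 := congrFun h 1
  have h2 := congrFun h 2
  have h3 := congrFun h 3
  simp only [Matrix.cons_val] at h0 h1 h2 h3
  rw [ZMod.intCast_eq_intCast_iff_dvd_sub] at h0 h1 h2 h3
  obtain ⟨c0, h0⟩ := h0
  obtain ⟨c1, h1⟩ := h1
  obtain ⟨c2, h2⟩ := h2
  obtain ⟨c3, h3⟩ := h3
  refine ⟨-(vec c0 c1 c2 c3), (isInt_vec c0 c1 c2 c3).neg, ?_⟩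
  have e0 : (n' : ℝ) - n = 8 * c0 := by exact_mod_cast h0
  have e1 : (m' : ℝ) - m = 8 * c1 := by exact_mod_cast h1
  have e2 : (k' : ℝ) - k = 8 * c2 := by exact_mod_cast h2
  have e3 : (l' : ℝ) - l = 8 * c3 := by exact_mod_cast h3
  apply ext_coord
  · simp; linarith
  · simp; linarith
  · simp; linarith
  · simp; linarith

/-- The congruence subgroup has finite index: there are finitely many elements `μ` of `Lam` such
that each element of `Lam` is `μ * γ` with `γ` in `Gam`. -/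
lemma exists_finite_reps : ∃ S : Set (V ≃L[ℝ] V), S.Finite ∧ S ⊆ Lam ∧
    ∀ A ∈ Lam, ∃ μ ∈ S, μ⁻¹ * A ∈ Gam := by
  classical
  let R : (V ≃L[ℝ] V) → (Fin 4 → Fin 4 → ZMod 8) := fun A j => red (A (bvec j))
  let T : Set (Fin 4 → Fin 4 → ZMod 8) := R '' (Lam : Set (V ≃L[ℝ] V))
  have hT : T.Finite := Set.toFinite T
  choose! g hg using fun (t : Fin 4 → Fin 4 → ZMod 8) (ht : t ∈ T) => ht
  refine ⟨g '' T, hT.image g, ?_, ?_⟩
  · rintro _ ⟨t, ht, rfl⟩
    exact (hg t ht).1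
  · intro A hA
    have hRA : R A ∈ T := ⟨A, hA, rfl⟩
    refine ⟨g (R A), ⟨R A, hRA, rfl⟩, ?_⟩
    obtain ⟨h1, h2⟩ := hg (R A) hRA
    refine ⟨Lam.mul_mem (Lam.inv_mem h1) hA, fun a ha => ?_⟩
    have h3 : Cong (A a) (g (R A) a) := by
      apply cong_of_basis _ ha
      intro j
      apply cong_of_red
      · exact hA.1.int _ (isInt_bvec j)
      · exact h1.1.int _ (isInt_bvec j)
      · exact (congrFun h2 j).symm
    have h4 := h1.2.cong h3
    rw [inv_app_self] at h4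
    exact h4

/-- some positive power of an element of `Lam` lies in `Gam` -/
lemma exists_pow_mem {A : V ≃L[ℝ] V} (hA : A ∈ Lam) : ∃ k : ℕ, 0 < k ∧ A ^ k ∈ Gam := by
  classical
  let R : ℕ → (Fin 4 → Fin 4 → ZMod 8) := fun n j => red ((A ^ n) (bvec j))
  obtain ⟨i, j, hij, hR⟩ := Finite.exists_ne_map_eq_of_infinite R
  wlog hlt : i < j generalizing i j
  · exact this j i hij.symm hR.symm (lt_of_le_of_ne (not_lt.mp hlt) hij.symm)
  refine ⟨j - i, Nat.sub_pos_of_lt hlt, ?_⟩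
  have hpow : ∀ n : ℕ, A ^ n ∈ Lam := fun n => Lam.pow_mem hA n
  refine ⟨hpow _, fun a ha => ?_⟩
  have h3 : Cong ((A ^ j) a) ((A ^ i) a) := by
    apply cong_of_basis _ ha
    intro l
    apply cong_of_red
    · exact (hpow j).1.int _ (isInt_bvec l)
    · exact (hpow i).1.int _ (isInt_bvec l)
    · exact (congrFun hR l).symm
  have h4 := (hpow i).2.cong h3
  rw [inv_app_self] at h4
  have e : (A ^ i)⁻¹ * A ^ j = A ^ (j - i) := by
    rw [eq_comm, pow_sub A hlt.le, (Commute.pow_pow_self A j i |>.inv_right).eq]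
  rw [← e]
  exact h4

end Pool.Agent.H62.NegCurv
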