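import Pool.Agent.H62.NegCurv.Curvature

/-!
# Negative curvature of the perturbed metric
-/

open scoped RealInnerProductSpace ContDiff Topology

namespace Pool.Agent.H62.NegCurv

lemma gram_pos {x : E3} (hx : x ∈ U) {v w : E3} (h : LinearIndependent ℝ ![v, w]) :
    0 < gK x v v * gK x w w - gK x v w ^ 2 := by
  have hw : w ≠ 0 := h.ne_zero 1
  have hww := gK_pos hx hw
  have hz : gK x w w • v + (-(gK x v w)) • w ≠ 0 := by
    intro h0
    rw [LinearIndependent.pair_iff] at h
    have := (h _ _ h0).1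
    linarith
  have h1 := gK_pos hx hz
  have e : gK x (gK x w w • v + (-(gK x v w)) • w) (gK x w w • v + (-(gK x v w)) • w) =
      gK x w w * (gK x v v * gK x w w - gK x v w ^ 2) := by
    simp only [map_add, map_smul, add_apply, smul_apply, smul_eq_mul, gK_symm x w v]
    ring
  rw [e] at h1
  exact (mul_pos_iff_of_pos_left hww).mp h1

lemma gram_three {x : E3} (hx : x ∈ U) {v w : E3} (z : E3)
    (hA : 0 < gK x v v * gK x w w - gK x v w ^ 2) :
    gK x z v ^ 2 * gK x w w - 2 * gK x z v * gK x z w * gK x v w + gK x z w ^ 2 * gK x v v ≤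
      gK x z z * (gK x v v * gK x w w - gK x v w ^ 2) := by
  set A := gK x v v * gK x w w - gK x v w ^ 2 with hAdef
  set p := gK x z v * gK x w w - gK x z w * gK x v w with hp
  set r := gK x z w * gK x v v - gK x z v * gK x v w with hr
  have h1 := gK_nonneg hx (A • z + (-p) • v + (-r) • w)
  have e : gK x (A • z + (-p) • v + (-r) • w) (A • z + (-p) • v + (-r) • w) =
      A * (gK x z z * A - (gK x z v ^ 2 * gK x w w - 2 * gK x z v * gK x z w * gK x v w +
        gK x z w ^ 2 * gK x v v)) := by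
    simp only [map_add, map_smul, add_apply, smul_apply, smul_eq_mul, gK_symm x w v,
      gK_symm x v z, gK_symm x w z, hp, hr, hAdef]
    ring
  rw [e] at h1
  have h2 := nonneg_of_mul_nonneg_right h1 hA
  linarith

/-- sufficient condition for negative curvature -/
lemma sectional_neg {u : E3 → ℝ} (hu : ContDiffOn ℝ ∞ u U) {x : E3} (hx : x ∈ U)
    (hH : ∀ z, -(1 / 4) * gK x z z ≤
      fderiv ℝ (fderiv ℝ u) x z z - 2 * ph x z * fderiv ℝ u x z)
    {v w : E3} (h : LinearIndependent ℝ ![v, w]) :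
    sectional (n := 3) (gC u) (Gm u) x v w < 0 := by
  have hA := gram_pos hx h
  have hw : w ≠ 0 := h.ne_zero 1
  have hww := gK_pos hx hw
  have hsymm : ∀ a b, fderiv ℝ (fderiv ℝ u) x a b = fderiv ℝ (fderiv ℝ u) x b a := by
    intro a b
    have h1 : ContDiffAt ℝ ∞ u x := hu.contDiffAt (isOpen_U.mem_nhds hx)
    have h2 : IsSymmSndFDerivAt ℝ u x := h1.isSymmSndFDerivAt (by
      simp only [minSmoothness_of_isRCLikeNormedField]
      exact ENat.LEInfty.out)
    exact h2 a b
  have h1 := gram_three hx (GG u x) hA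
  rw [gK_GG u hx, gK_GG u hx, gK_GG u hx] at h1
  -- the Hessian term
  have h2 := hH (gK x w w • v + (-(gK x v w)) • w)
  have h3 := hH w
  have e1 : gK x (gK x w w • v + (-(gK x v w)) • w) (gK x w w • v + (-(gK x v w)) • w) =
      gK x w w * (gK x v v * gK x w w - gK x v w ^ 2) := by
    simp only [map_add, map_smul, add_apply, smul_apply, smul_eq_mul, gK_symm x w v]
    ring
  rw [e1] at h2
  simp only [map_add, map_smul, add_apply, smul_apply, smul_eq_mul, hsymm w v] at h2
  have hnum : gK x (curvVec (n := 3) (Gm u) x v w) v < 0 := by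
    rw [curv_formula hu hx]
    set A := gK x v v * gK x w w - gK x v w ^ 2 with hAdef
    set S := (fderiv ℝ (fderiv ℝ u) x v v - 2 * ph x v * fderiv ℝ u x v) * gK x w w
        - 2 * (fderiv ℝ (fderiv ℝ u) x v w - ph x v * fderiv ℝ u x w
          - ph x w * fderiv ℝ u x v) * gK x v w
        + (fderiv ℝ (fderiv ℝ u) x w w - 2 * ph x w * fderiv ℝ u x w) * gK x v v with hS
    have h4 : -(1 / 2) * A * gK x w w ≤ S * gK x w w := by
      have h5 : A * (-(1 / 4) * gK x w w) ≤
          A * (fderiv ℝ (fderiv ℝ u) x w w - 2 * ph x w * fderiv ℝ u x w) := by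
        gcongr
      have h6 : -(1 / 4) * (gK x w w * A) + A * (-(1 / 4) * gK x w w) ≤ S * gK x w w := by
        refine (add_le_add h2 h5).trans (le_of_eq ?_)
        rw [hS, hAdef]
        ring
      linarith
    have h5 : -(1 / 2) * A ≤ S := le_of_mul_le_mul_right h4 hww
    linarith
  unfold sectional
  have hpos : 0 < gC u x v v * gC u x w w - gC u x v w ^ 2 := by
    have : gC u x v v * gC u x w w - gC u x v w ^ 2 =
        Real.exp (2 * u x) ^ 2 * (gK x v v * gK x w w - gK x v w ^ 2) := by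
      simp only [gC_apply]; ring
    rw [this]
    exact mul_pos (pow_pos (Real.exp_pos _) 2) hA
  apply div_neg_of_neg_of_pos _ hpos
  rw [gC_apply]
  exact mul_neg_of_pos_of_neg (Real.exp_pos _) hnum

/-- derivative of the distance function -/
noncomputable def dq (v : V) (y : E3) : E3 →L[ℝ] ℝ :=
  (2 * F (hat y) v * (rho y)⁻¹) • ip v.2 + (2 * F (hat y) v ^ 2 * ((rho y)⁻¹ * (rho y)⁻¹)) • ip y

lemma hasFDerivAt_l (v : V) (x : E3) : HasFDerivAt (fun y => F (hat y) v) (ip v.2) x := by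
  have h : (fun y => F (hat y) v) = fun y => ip v.2 y - 7 * v.1 := by
    funext y
    simp only [F, hat_fst, hat_snd, ip_apply, real_inner_comm]
    ring
  rw [h]
  exact (ip v.2).hasFDerivAt.sub_const _

lemma hasFDerivAt_q (v : V) {x : E3} (hx : x ∈ U) : HasFDerivAt (q v) (dq v x) x := by
  have h1 := ((hasFDerivAt_l v x).mul (hasFDerivAt_l v x)).mul (hasFDerivAt_rinv hx)
  have h2 : q v = ((fun y => F (hat y) v) * fun y => F (hat y) v) * fun y => (rho y)⁻¹ := by
    funext y
    simp only [q, Pi.mul_apply]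
    ring
  rw [h2]
  apply h1.congr_fderiv
  ext w
  simp only [dq, add_apply, smul_apply, smul_eq_mul, Pi.mul_apply]
  ring

lemma dq_apply (v : V) (y w : E3) : dq v y w = 2 * F (hat y) v * (rho y)⁻¹ * ip v.2 w +
    2 * F (hat y) v ^ 2 * ((rho y)⁻¹ * (rho y)⁻¹) * ip y w := rfl

lemma fderiv_dq (v : V) {x : E3} (hx : x ∈ U) (w : E3) :
    HasFDerivAt (fun y => dq v y w)
      ((2 * (rho x)⁻¹ * ip v.2 w) • ip v.2
        + (4 * F (hat x) v * (rho x)⁻¹ ^ 2 * ip v.2 w) • ip x
        + (4 * F (hat x) v * (rho x)⁻¹ ^ 2 * ip x w) • ip v.2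
        + (8 * F (hat x) v ^ 2 * (rho x)⁻¹ ^ 3 * ip x w) • ip x
        + (2 * F (hat x) v ^ 2 * (rho x)⁻¹ ^ 2) • ip.flip w) x := by
  have hl := hasFDerivAt_l v x
  have hr := hasFDerivAt_rinv hx
  have h1 := ((hl.mul hr).const_mul (2 * ip v.2 w)).add
    ((((hl.mul hl).mul (hr.mul hr)).mul (hasFDerivAt_ipl w x)).const_mul 2)
  have h2 : (fun y => dq v y w) = fun y => 2 * ip v.2 w *
      ((fun y => F (hat y) v) * fun y => (rho y)⁻¹) y + 2 * ((((fun y => F (hat y) v) *
      fun y => F (hat y) v) * ((fun y => (rho y)⁻¹) * fun y => (rho y)⁻¹)) *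
      fun y => ip y w) y := by
    funext y
    simp only [dq_apply, Pi.mul_apply]
    ring
  rw [h2]
  apply h1.congr_fderiv
  ext z
  simp only [add_apply, smul_apply, smul_eq_mul, Pi.mul_apply]
  ring

/-- The Cauchy-Schwarz estimate. -/
lemma cs_est {v : V} (hv : F v v = -2) {x : E3} (hx : x ∈ U) (z : E3) :
    (ip v.2 z + F (hat x) v * (rho x)⁻¹ * ip x z) ^ 2 ≤ (q v x - 2) * (rho x * gK x z z) := by
  have hρ := (mem_U.mp hx).ne'
  have h := mf_cs (F_hat_neg hx) v ((0, z) : V)
  have e1 : mf (hat x) v ((0, z) : V) = ip v.2 z + F (hat x) v * (rho x)⁻¹ * ip x z := by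
    unfold mf
    rw [F_hat_self, F_comm v (hat x)]
    have h1 : F v ((0, z) : V) = ip v.2 z := by simp [F]
    have h2 : F ((0, z) : V) (hat x) = ip x z := by simp [F, real_inner_comm]
    rw [h1, h2]
    field_simp
    ring
  have e2 : mf (hat x) v v = q v x - 2 := by
    unfold mf q
    rw [F_hat_self, hv, F_comm v (hat x)]
    field_simp
    ring
  have e3 : mf (hat x) ((0, z) : V) ((0, z) : V) = rho x * gK x z z := by
    rw [gK_eq_mf hx]
    field_simp
  rw [e1, e2, e3] at h
  exact h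

lemma chi_bound : ∃ C : ℝ, 0 < C ∧ ∀ t ∈ Set.Icc (2 : ℝ) (5 / 2),
    |deriv chi t| ≤ C ∧ |deriv (deriv chi) t| ≤ C := by
  have h1 : Continuous (deriv chi) := chi_smooth.continuous_deriv (by simp)
  have h2 : ContDiff ℝ ∞ (deriv chi) := by
    have h := chi_smooth
    rw [show (∞ : WithTop ℕ∞) = ∞ + 1 by rfl] at h
    exact (contDiff_succ_iff_deriv.mp h).2.2
  have h3 : Continuous (deriv (deriv chi)) := h2.continuous_deriv (by simp)
  obtain ⟨C1, hC1⟩ := isCompact_Icc.exists_bound_of_continuousOn (s := Set.Icc (2 : ℝ) (5 / 2))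
    h1.continuousOn
  obtain ⟨C2, hC2⟩ := isCompact_Icc.exists_bound_of_continuousOn (s := Set.Icc (2 : ℝ) (5 / 2))
    h3.continuousOn
  refine ⟨max 1 (max C1 C2), by positivity, fun t ht => ⟨?_, ?_⟩⟩
  · exact (hC1 t ht).trans ((le_max_left _ _).trans (le_max_right _ _))
  · exact (hC2 t ht).trans ((le_max_right _ _).trans (le_max_right _ _))

lemma bump_contDiffOn (ε : ℝ) : ContDiffOn ℝ ∞ (bump ε) U := fun _ hx =>
  (bump_contDiffAt ε hx).contDiffWithinAt

/-- the Hessian bound for small bumps -/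
lemma bump_hessian : ∃ ε : ℝ, 0 < ε ∧ ∀ x ∈ U, ∀ z, -(1 / 4) * gK x z z ≤
      fderiv ℝ (fderiv ℝ (bump ε)) x z z - 2 * ph x z * fderiv ℝ (bump ε) x z := by
  obtain ⟨C, hC0, hC⟩ := chi_bound
  refine ⟨1 / (44 * C), by positivity, fun x hx z => ?_⟩
  set ε : ℝ := 1 / (44 * C) with hε
  have hε0 : 0 < ε := by positivity
  have hg := gK_nonneg hx z
  have hUx := isOpen_U.mem_nhds hx
  have hDu : DifferentiableAt ℝ (fderiv ℝ (bump ε)) x :=
    ((contDiffOn_fderiv (bump_contDiffOn ε)).contDiffAt hUx).differentiableAt (by simp)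
  rcases bump_local ε hx with ⟨v, hv, hq, hloc⟩ | ⟨-, hloc⟩
  · have hρ := mem_U.mp hx
    have hρne := hρ.ne'
    have hchi : ∀ t, HasDerivAt chi (deriv chi t) t := fun t =>
      (chi_smooth.differentiable (by simp) t).hasDerivAt
    have hchi2 : ∀ t, HasDerivAt (deriv chi) (deriv (deriv chi) t) t := by
      intro t
      have h2 : ContDiff ℝ ∞ (deriv chi) := by
        have h := chi_smooth
        rw [show (∞ : WithTop ℕ∞) = ∞ + 1 by rfl] at h
        exact (contDiff_succ_iff_deriv.mp h).2.2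
      exact (h2.differentiable (by simp) t).hasDerivAt
    -- first derivative near `x`
    have hfd : ∀ y ∈ U, HasFDerivAt (fun y => ε * chi (q v y))
        (ε • (deriv chi (q v y) • dq v y)) y := by
      intro y hy
      exact ((hchi (q v y)).comp_hasFDerivAt y (hasFDerivAt_q v hy)).const_mul ε
    have hev : ∀ᶠ y in 𝓝 x, fderiv ℝ (bump ε) y = ε • (deriv chi (q v y) • dq v y) := by
      filter_upwards [hloc.eventuallyEq_nhds, hUx] with y hy hyU
      rw [hy.fderiv_eq, (hfd y hyU).fderiv]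
    have hev2 : (fun y => fderiv ℝ (bump ε) y z) =ᶠ[𝓝 x]
        fun y => ε * (deriv chi (q v y) * dq v y z) := by
      filter_upwards [hev] with y hy
      rw [hy]; simp
    have h1 : fderiv ℝ (bump ε) x z = ε * (deriv chi (q v x) * dq v x z) := hev2.self_of_nhds
    have h2 : fderiv ℝ (fderiv ℝ (bump ε)) x z z = fderiv ℝ (fun y => fderiv ℝ (bump ε) y z) x z :=
      (fderiv_eval1 hDu z z).symm
    have h3 := (((hchi2 (q v x)).comp_hasFDerivAt x (hasFDerivAt_q v hx)).mul
      (fderiv_dq v hx z)).const_mul ε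
    have h4 : (fun y => ε * (deriv chi (q v y) * dq v y z)) =
        fun y => ε * ((deriv chi ∘ q v) * fun y => dq v y z) y := by
      funext y; rfl
    rw [h2, hev2.fderiv_eq, h4, h3.fderiv, h1]
    simp only [add_apply, smul_apply, smul_eq_mul, Function.comp_apply,
      ContinuousLinearMap.flip_apply]
    -- abbreviations
    have hcs := cs_est hv.2.1 hx z
    have hq2 := q_ge_two hv.2.1 hx
    obtain ⟨hb1, hb2⟩ := hC (q v x) ⟨hq2, hq.le⟩
    have hqdef : q v x * rho x = F (hat x) v ^ 2 := by unfold q; field_simp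
    set l := F (hat x) v with hl
    set Q := q v x with hQ
    set G := gK x z z with hG
    set a := ip v.2 z with ha
    set b := ip x z with hb
    set χ1 := deriv chi Q
    set χ2 := deriv (deriv chi) Q
    set s := (rho x)⁻¹ with hs
    have hsr : s * rho x = 1 := by rw [hs]; field_simp
    have hspos : 0 < s := inv_pos.mpr hρ
    have hGdef : G = ip z z * s + b * b * (s * s) := by rw [hG, gK_apply']
    have hQs : Q = l ^ 2 * s := by
      have : Q * (s * rho x) = l ^ 2 * s := by rw [← hqdef]; ring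
      rw [hsr, mul_one] at this; exact this
    set m := a + l * s * b with hm
    -- bound for `m ^ 2 * s`
    have hm2 : m ^ 2 * s ≤ (Q - 2) * G := by
      have : m ^ 2 * s ≤ (Q - 2) * (rho x * G) * s := by gcongr
      calc m ^ 2 * s ≤ (Q - 2) * (rho x * G) * s := this
        _ = (Q - 2) * G * (s * rho x) := by ring
        _ = (Q - 2) * G := by rw [hsr, mul_one]
    have hdq : dq v x z = 2 * l * s * m := by rw [dq_apply]; ring
    have hQ52 : Q ≤ 5 / 2 := hq.le
    have hmG : m ^ 2 * s ≤ 1 / 2 * G := hm2.trans (by gcongr; linarith)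
    have hms0 : 0 ≤ m ^ 2 * s := by positivity
    -- the Hessian of `q`
    have key : ε * (χ2 * dq v x z * dq v x z + χ1 * (2 * s * a * a + 4 * l * s ^ 2 * a * b
        + 4 * l * s ^ 2 * b * a + 8 * l ^ 2 * s ^ 3 * b * b + 2 * l ^ 2 * s ^ 2 * ip z z))
        - 2 * ph x z * (ε * (χ1 * dq v x z)) =
        ε * (χ2 * (4 * Q * (m ^ 2 * s)) + χ1 * (2 * Q * G + 2 * (m ^ 2 * s))) := by
      have hph : ph x z = s * b := rfl
      rw [hph, hdq, hGdef, hQs, hm]
      ring
    have hfin : -(1 / 4) * G ≤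
        ε * (χ2 * (4 * Q * (m ^ 2 * s)) + χ1 * (2 * Q * G + 2 * (m ^ 2 * s))) := by
      have k1 : 0 ≤ 4 * Q * (m ^ 2 * s) := by positivity
      have k2 : 4 * Q * (m ^ 2 * s) ≤ 5 * G := by
        calc 4 * Q * (m ^ 2 * s) ≤ 4 * (5 / 2) * (1 / 2 * G) := by gcongr
          _ = 5 * G := by ring
      have k3 : 0 ≤ 2 * Q * G + 2 * (m ^ 2 * s) := by positivity
      have k4 : 2 * Q * G + 2 * (m ^ 2 * s) ≤ 6 * G := by
        calc 2 * Q * G + 2 * (m ^ 2 * s) ≤ 2 * (5 / 2) * G + 2 * (1 / 2 * G) := by gcongr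
          _ = 6 * G := by ring
      have k5 : -(C * (5 * G)) ≤ χ2 * (4 * Q * (m ^ 2 * s)) := by
        have : |χ2 * (4 * Q * (m ^ 2 * s))| ≤ C * (5 * G) := by
          rw [abs_mul, abs_of_nonneg k1]; gcongr
        exact (abs_le.mp this).1
      have k6 : -(C * (6 * G)) ≤ χ1 * (2 * Q * G + 2 * (m ^ 2 * s)) := by
        have : |χ1 * (2 * Q * G + 2 * (m ^ 2 * s))| ≤ C * (6 * G) := by
          rw [abs_mul, abs_of_nonneg k3]; gcongr
        exact (abs_le.mp this).1
      have k7 : -(C * (5 * G)) + -(C * (6 * G)) ≤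
          χ2 * (4 * Q * (m ^ 2 * s)) + χ1 * (2 * Q * G + 2 * (m ^ 2 * s)) := add_le_add k5 k6
      have k8 : ε * (-(C * (5 * G)) + -(C * (6 * G))) ≤
          ε * (χ2 * (4 * Q * (m ^ 2 * s)) + χ1 * (2 * Q * G + 2 * (m ^ 2 * s))) := by gcongr
      refine le_trans (le_of_eq ?_) k8
      rw [hε]
      field_simp
      ring
    refine hfin.trans (le_of_eq ?_)
    rw [← key]
    ring
  · have h0 : fderiv ℝ (bump ε) =ᶠ[𝓝 x] fun _ => 0 := by
      filter_upwards [hloc.eventuallyEq_nhds] with y hy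
      rw [hy.fderiv_eq]; simp
    rw [h0.fderiv_eq, h0.self_of_nhds]
    simp
    exact hg

end Pool.Agent.H62.NegCurv
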