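import Pool.Agent.H62.NegCurv.Walls

/-!
# The region `X` and cocompactness
-/

open scoped RealInnerProductSpace ContDiff

namespace Pool.Agent.H62.NegCurv

/-- the base vector -/
noncomputable def v0 : V := vec 1 2 1 0

lemma isInt_v0 : IsInt v0 := by
  have := isInt_vec 1 2 1 0
  simpa [v0] using this

lemma F_v0 : F v0 v0 = -2 := by rw [F_coord]; simp [v0]; norm_num

lemma isFut_v0 : IsFut v0 := ⟨by rw [F_v0]; norm_num, by simp [v0]⟩

/-- the base vector lies on no wall -/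
lemma F_v0_BB {b : V} (hb : b ∈ BB) : ∃ (σ k : ℤ), (σ = 1 ∨ σ = -1) ∧
    Cong b ((σ : ℝ) • b0) ∧ F v0 b = 2 * σ + 8 * k := by
  obtain ⟨σ, hσ, hbσ⟩ := BB_sign hb
  obtain ⟨k, hk⟩ := BB_F hbσ isInt_v0
  refine ⟨σ, k, hσ, hbσ, ?_⟩
  rw [hk, F_coord]
  simp [v0, b0]
  ring

lemma F_v0_ne {b : V} (hb : b ∈ BB) : 2 ≤ |F v0 b| := by
  obtain ⟨σ, k, hσ, -, h⟩ := F_v0_BB hb
  have : (2 : ℤ) ≤ |2 * σ + 8 * k| := by
    rw [le_abs]
    rcases hσ with rfl | rfl <;> omega
  rw [h]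
  exact_mod_cast this

/-- the region determined by a vector `w` lying on no wall -/
def Reg (w : V) : Set E3 := {x | x ∈ U ∧ ∀ b ∈ BB, F w b < 0 → F (hat x) b ≤ 0}

/-- the region -/
def X : Set E3 := Reg v0

lemma Reg_sub (w : V) : Reg w ⊆ U := fun _ h => h.1

lemma Reg_pos {w : V} {x : E3} (hx : x ∈ Reg w) {b : V} (hb : b ∈ BB) (h : 0 < F w b) :
    0 ≤ F (hat x) b := by
  have h1 := hx.2 (-b) (BB_neg hb) (by rw [F_neg_right]; linarith)
  rw [F_neg_right] at h1
  linarith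

/-- equality of sign patterns gives equality of regions -/
lemma Reg_eq {w w' : V} (h : ∀ b ∈ BB, F w b < 0 ↔ F w' b < 0) : Reg w = Reg w' := by
  ext x
  constructor
  · rintro ⟨h1, h2⟩
    exact ⟨h1, fun b hb hw => h2 b hb ((h b hb).mpr hw)⟩
  · rintro ⟨h1, h2⟩
    exact ⟨h1, fun b hb hw => h2 b hb ((h b hb).mp hw)⟩

/-- images of regions -/
lemma act_Reg {A : V ≃L[ℝ] V} (hA : A ∈ Lam) (hB : ∀ b ∈ BB, A⁻¹ b ∈ BB) {w : V} {x : E3}
    (hx : x ∈ Reg w) : act A x ∈ Reg (A w) := by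
  refine ⟨act_mem hA hx.1, fun b hb hw => ?_⟩
  rw [F_hat_act hA hx.1]
  have h1 : F w (A⁻¹ b) < 0 := by
    rw [F_comm, F_inv hA, F_comm]; exact hw
  have h2 := hx.2 _ (hB b hb) h1
  have h3 : 0 < ((A (hat x)).1)⁻¹ := inv_pos.mpr (fut_img hA hx.1).2
  exact mul_nonpos_of_nonneg_of_nonpos h3.le h2

lemma convex_X : Convex ℝ X := by
  intro x hx y hy s t hs ht hst
  refine ⟨convex_U hx.1 hy.1 hs ht hst, fun b hb hw => ?_⟩
  have e : hat (s • x + t • y) = s • hat x + t • hat y := by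
    apply Prod.ext
    · simp [hst]
    · simp
  rw [e, F_add_left, F_smul_left, F_smul_left]
  have h1 := hx.2 b hb hw
  have h2 := hy.2 b hb hw
  nlinarith [mul_nonpos_of_nonneg_of_nonpos hs h1, mul_nonpos_of_nonneg_of_nonpos ht h2]

/-- closed half spaces -/
def Hs : Set E3 := {x | ∀ b ∈ BB, F v0 b < 0 → F (hat x) b ≤ 0}

lemma continuous_F_hat (b : V) : Continuous (fun x : E3 => F (hat x) b) := by
  unfold F hat
  fun_prop

lemma isClosed_Hs : IsClosed Hs := by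
  have : Hs = ⋂ b ∈ BB, ⋂ (_ : F v0 b < 0), {x : E3 | F (hat x) b ≤ 0} := by
    ext x; simp [Hs]
  rw [this]
  apply isClosed_biInter
  intro b _
  apply isClosed_iInter
  intro _
  exact isClosed_le (continuous_F_hat b) continuous_const

lemma X_eq : X = U ∩ Hs := rfl

/-- a compact part of the region -/
def XK (δ : ℝ) : Set E3 := {x | x ∈ X ∧ δ ≤ rho x}

lemma isCompact_XK {δ : ℝ} (hδ : 0 < δ) : IsCompact (XK δ) := by
  have h1 : XK δ = Hs ∩ {x : E3 | δ ≤ rho x} := by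
    ext x
    constructor
    · rintro ⟨⟨_, h2⟩, h3⟩; exact ⟨h2, h3⟩
    · rintro ⟨h2, h3⟩; exact ⟨⟨lt_of_lt_of_le hδ h3, h2⟩, h3⟩
  have h2 : IsClosed (XK δ) := by
    rw [h1]
    exact isClosed_Hs.inter (isClosed_le continuous_const continuous_rho)
  apply Metric.isCompact_of_isClosed_isBounded h2
  apply (Metric.isBounded_closedBall (x := (0 : E3)) (r := 3)).subset
  rintro x ⟨_, h3⟩
  rw [mem_closedBall_zero_iff]
  have h4 : δ ≤ 7 - ‖x‖ ^ 2 := h3
  nlinarith [norm_nonneg x]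

/-- reflecting a point towards a base vector decreases the distance -/
lemma q_refl_lt {c r : V} (hc : IsFut c) (hr : IsInt r) (hr2 : F r r = 1 ∨ F r r = 2)
    (h0 : 0 < F r r) {z : E3} (hz : z ∈ U) (h1 : F c r < 0) (h2 : 0 < F (hat z) r) :
    q c (act (refl r h0.ne') z) < q c z := by
  have hL := refl_mem_Lam hr hr2 h0
  have e : c = refl r h0.ne' (refl r h0.ne' c) := by
    have := inv_app_self (refl r h0.ne') c
    rw [refl_inv] at this
    exact this.symm
  have e2 : q c (act (refl r h0.ne') z) = q (refl r h0.ne' c) z := by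
    conv_lhs => rw [e]
    exact q_act hL hz _
  rw [e2]
  unfold q
  have hρ := mem_U.mp hz
  have h3 : F (hat z) c < 0 := F_neg_of_fut (isFut_hat hz) hc.1.le hc.2
  have hs := refl_fut h0 hc
  have h4 : F (hat z) (refl r h0.ne' c) < 0 := F_neg_of_fut (isFut_hat hz) hs.1.le hs.2
  have h5 : F (hat z) c < F (hat z) (refl r h0.ne' c) := by
    rw [refl_apply, F_sub_right, F_smul_right]
    have : 2 * F c r / F r r * F (hat z) r < 0 := by
      apply mul_neg_of_neg_of_pos _ h2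
      apply div_neg_of_neg_of_pos _ h0
      linarith
    linarith
  gcongr ?_ / _
  nlinarith

/-- minimisation of the distance over an orbit -/
lemma exists_min {c : V} (hc : IsInt c) (S : Set (V ≃L[ℝ] V)) (hS : S ⊆ Lam) (h1 : 1 ∈ S)
    {y : E3} (hy : y ∈ U) : ∃ A ∈ S, ∀ B ∈ S, q c (act A y) ≤ q c (act B y) := by
  have hfin : {v : V | (∃ A ∈ S, v = A⁻¹ c) ∧ q v y ≤ q c y}.Finite := by
    refine (finite_q (F c c) (rho y) (q c y) (mem_U.mp hy)).subset ?_
    rintro v ⟨⟨A, hA, rfl⟩, hv⟩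
    have hL := hS hA
    exact ⟨hL.2.int c hc, hL.2.isom c c, y, le_rfl, hv⟩
  have hqa : ∀ A ∈ S, q c (act A y) = q (A⁻¹ c) y := by
    intro A hA
    have := q_act (hS hA) hy (A⁻¹ c)
    rw [app_inv_self] at this
    exact this
  obtain ⟨v, ⟨⟨A, hA, rfl⟩, hv⟩, hmin⟩ := Set.exists_min_image _ (fun v => q v y) hfin
    ⟨c, ⟨1, h1, by rw [inv_one]; rfl⟩, le_rfl⟩
  refine ⟨A, hA, fun B hB => ?_⟩
  rw [hqa A hA, hqa B hB]
  by_cases h : q (B⁻¹ c) y ≤ q c y
  · exact hmin _ ⟨⟨B, hB, rfl⟩, h⟩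
  · exact hv.trans (not_le.mp h).le

/-- the centre -/
noncomputable def c0 : V := vec 1 0 0 0

lemma isInt_c0 : IsInt c0 := by simpa [bvec, c0] using isInt_bvec 0

lemma isFut_c0 : IsFut c0 := ⟨by rw [F_coord]; simp [c0], by simp [c0]⟩

lemma q_c0 {x : E3} : q c0 x = 49 / rho x := by
  unfold q
  congr 1
  rw [F_coord]; simp [c0]; norm_num

/-- the arithmetic group acts cocompactly on the ball -/
lemma Lam_cocompact {y : E3} (hy : y ∈ U) : ∃ A ∈ Lam, 7 / 36 ≤ rho (act A y) := by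
  obtain ⟨A, hA, hmin⟩ := exists_min isInt_c0 (Lam : Set (V ≃L[ℝ] V)) subset_rfl Lam.one_mem hy
  refine ⟨A, hA, ?_⟩
  have hz := act_mem hA hy
  set z := act A y with hzdef
  -- root inequalities
  have hroot : ∀ (n m k l : ℤ), (F (vec n m k l) (vec n m k l) = 1 ∨
      F (vec n m k l) (vec n m k l) = 2) → 0 < n → F (hat z) (vec n m k l) ≤ 0 := by
    intro n m k l h hn
    by_contra hcon
    push Not at hcon
    have h0 : 0 < F (vec n m k l) (vec n m k l) := by rcases h with h | h <;> rw [h] <;> norm_num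
    have h1 : F c0 (vec n m k l) < 0 := by
      rw [F_coord]; simp [c0]
      exact_mod_cast hn
    have h2 := q_refl_lt isFut_c0 (isInt_vec n m k l) h h0 hz h1 hcon
    have hr := refl_mem_Lam (isInt_vec n m k l) h h0
    have h3 := hmin _ (Lam.mul_mem hr hA)
    rw [act_mul hA hy] at h3
    linarith
  have hF : ∀ (n m k l : ℤ), F (hat z) (vec n m k l) = z 0 * m + z 1 * k + z 2 * l - 7 * n := by
    intro n m k l
    rw [F_coord]
    simp
  have e31 : ∀ s : ℤ, s = 1 ∨ s = -1 → z 0 * (3 * s) ≤ 7 := by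
    intro s hs
    have := hroot 1 (3 * s) 0 0 (by rw [F_coord]; rcases hs with rfl | rfl <;> simp <;> norm_num)
      (by norm_num)
    rw [hF] at this; push_cast at this; linarith
  have e32 : ∀ s : ℤ, s = 1 ∨ s = -1 → z 1 * (3 * s) ≤ 7 := by
    intro s hs
    have := hroot 1 0 (3 * s) 0 (by rw [F_coord]; rcases hs with rfl | rfl <;> simp <;> norm_num)
      (by norm_num)
    rw [hF] at this; push_cast at this; linarith
  have e33 : ∀ s : ℤ, s = 1 ∨ s = -1 → z 2 * (3 * s) ≤ 7 := by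
    intro s hs
    have := hroot 1 0 0 (3 * s) (by rw [F_coord]; rcases hs with rfl | rfl <;> simp <;> norm_num)
      (by norm_num)
    rw [hF] at this; push_cast at this; linarith
  have e221 : ∀ s t u : ℤ, (s = 1 ∨ s = -1) → (t = 1 ∨ t = -1) → (u = 1 ∨ u = -1) →
      z 0 * (2 * s) + z 1 * (2 * t) + z 2 * u ≤ 7 := by
    intro s t u hs ht hu
    have := hroot 1 (2 * s) (2 * t) u (by
      rw [F_coord]; rcases hs with rfl | rfl <;> rcases ht with rfl | rfl <;>
        rcases hu with rfl | rfl <;> simp <;> norm_num) (by norm_num)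
    rw [hF] at this; push_cast at this; linarith
  have e212 : ∀ s t u : ℤ, (s = 1 ∨ s = -1) → (t = 1 ∨ t = -1) → (u = 1 ∨ u = -1) →
      z 0 * (2 * s) + z 1 * t + z 2 * (2 * u) ≤ 7 := by
    intro s t u hs ht hu
    have := hroot 1 (2 * s) t (2 * u) (by
      rw [F_coord]; rcases hs with rfl | rfl <;> rcases ht with rfl | rfl <;>
        rcases hu with rfl | rfl <;> simp <;> norm_num) (by norm_num)
    rw [hF] at this; push_cast at this; linarith
  have e122 : ∀ s t u : ℤ, (s = 1 ∨ s = -1) → (t = 1 ∨ t = -1) → (u = 1 ∨ u = -1) →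
      z 0 * s + z 1 * (2 * t) + z 2 * (2 * u) ≤ 7 := by
    intro s t u hs ht hu
    have := hroot 1 s (2 * t) (2 * u) (by
      rw [F_coord]; rcases hs with rfl | rfl <;> rcases ht with rfl | rfl <;>
        rcases hu with rfl | rfl <;> simp <;> norm_num) (by norm_num)
    rw [hF] at this; push_cast at this; linarith
  have habs : ∀ x : ℝ, ∃ s : ℤ, (s = 1 ∨ s = -1) ∧ |x| = x * s := by
    intro x
    rcases le_total 0 x with h | h
    · exact ⟨1, Or.inl rfl, by rw [abs_of_nonneg h]; simp⟩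
    · exact ⟨-1, Or.inr rfl, by rw [abs_of_nonpos h]; simp⟩
  obtain ⟨s, hs, hs'⟩ := habs (z 0)
  obtain ⟨t, ht, ht'⟩ := habs (z 1)
  obtain ⟨u, hu, hu'⟩ := habs (z 2)
  have a1 := e31 s hs
  have a2 := e32 t ht
  have a3 := e33 u hu
  have a4 := e221 s t u hs ht hu
  have a5 := e212 s t u hs ht hu
  have a6 := e122 s t u hs ht hu
  have hnorm : ‖z‖ ^ 2 = |z 0| ^ 2 + |z 1| ^ 2 + |z 2| ^ 2 := by
    rw [EuclideanSpace.norm_sq_eq]
    simp [Fin.sum_univ_three]
  -- the polytope lies inside the ball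
  have poly : ∀ a b c : ℝ, 0 ≤ a → 0 ≤ b → 0 ≤ c → 3 * a ≤ 7 → 2 * a + 2 * b + c ≤ 7 →
      b ≤ a → c ≤ b → a ^ 2 + b ^ 2 + c ^ 2 ≤ 245 / 36 := by
    intro a b c ha hb hc h1 h2 h3 h4
    by_cases h5 : a ≤ 3 / 2
    · have k1 : b ^ 2 ≤ a ^ 2 := by gcongr
      have k2 : c ^ 2 ≤ b ^ 2 := by gcongr
      have k3 : a ^ 2 ≤ (3 / 2) ^ 2 := by gcongr
      linarith
    · push Not at h5
      have h6 : b ^ 2 + c ^ 2 ≤ (b + c / 2) ^ 2 := by
        have : 0 ≤ c * (b - c) := mul_nonneg hc (by linarith)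
        nlinarith
      have h7 : b + c / 2 ≤ 7 / 2 - a := by linarith
      have h8 : (b + c / 2) ^ 2 ≤ (7 / 2 - a) ^ 2 := by
        have : 0 ≤ b + c / 2 := by positivity
        gcongr
      have h9 : (a - 7 / 3) * (a - 7 / 6) ≤ 0 := by
        apply mul_nonpos_of_nonpos_of_nonneg <;> linarith
      nlinarith
  have hfin : |z 0| ^ 2 + |z 1| ^ 2 + |z 2| ^ 2 ≤ 245 / 36 := by
    have p0 := abs_nonneg (z 0)
    have p1 := abs_nonneg (z 1)
    have p2 := abs_nonneg (z 2)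
    rcases le_total (|z 0|) (|z 1|) with h01 | h01 <;>
    rcases le_total (|z 1|) (|z 2|) with h12 | h12 <;>
    rcases le_total (|z 0|) (|z 2|) with h02 | h02
    · have := poly (|z 2|) (|z 1|) (|z 0|) p2 p1 p0 (by linarith) (by linarith) h12 h01
      linarith
    · have := poly (|z 2|) (|z 1|) (|z 0|) p2 p1 p0 (by linarith) (by linarith) h12 h01
      linarith
    · have := poly (|z 1|) (|z 2|) (|z 0|) p1 p2 p0 (by linarith) (by linarith) h12 h02
      linarith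
    · have := poly (|z 1|) (|z 0|) (|z 2|) p1 p0 p2 (by linarith) (by linarith) h01 h02
      linarith
    · have := poly (|z 2|) (|z 0|) (|z 1|) p2 p0 p1 (by linarith) (by linarith) h02 h01
      linarith
    · have := poly (|z 0|) (|z 2|) (|z 1|) p0 p2 p1 (by linarith) (by linarith) h02 h12
      linarith
    · have := poly (|z 0|) (|z 1|) (|z 2|) p0 p1 p2 (by linarith) (by linarith) h01 h12
      linarith
    · have := poly (|z 0|) (|z 1|) (|z 2|) p0 p1 p2 (by linarith) (by linarith) h01 h12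
      linarith
  unfold rho
  linarith

/-- upper bound for the distance function in terms of `rho` -/
lemma q_le {x : E3} (hx : x ∈ U) (v : V) {δ : ℝ} (hδ : 0 < δ) (h : δ ≤ rho x) :
    q v x ≤ (3 * ‖v.2‖ + 7 * |v.1|) ^ 2 / δ := by
  unfold q
  have hx3 : ‖x‖ ≤ 3 := by
    have h8 : 0 < 7 - ‖x‖ ^ 2 := mem_U.mp hx
    by_contra hcon
    push Not at hcon
    nlinarith [norm_nonneg x]
  have e : F (hat x) v = ⟪x, v.2⟫ - 7 * v.1 := by simp [F]
  have h7 : |⟪x, v.2⟫| ≤ ‖x‖ * ‖v.2‖ := abs_real_inner_le_norm x v.2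
  have h9 : ‖x‖ * ‖v.2‖ ≤ 3 * ‖v.2‖ := by gcongr
  have h10 : |F (hat x) v| ≤ 3 * ‖v.2‖ + 7 * |v.1| := by
    rw [e]
    calc |⟪x, v.2⟫ - 7 * v.1| ≤ |⟪x, v.2⟫| + |7 * v.1| := abs_sub _ _
      _ ≤ 3 * ‖v.2‖ + 7 * |v.1| := by
        rw [abs_mul, abs_of_pos (by norm_num : (0 : ℝ) < 7)]; linarith
  have h11 : F (hat x) v ^ 2 ≤ (3 * ‖v.2‖ + 7 * |v.1|) ^ 2 := by
    rw [← sq_abs (F (hat x) v)]
    gcongr
  exact div_le_div₀ (sq_nonneg _) h11 hδ h

/-- lower bound for the distance to the base point -/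
lemma q_v0_ge {x : E3} (hx : x ∈ U) : 1 / rho x ≤ q v0 x := by
  unfold q
  have hρ := mem_U.mp hx
  have h1 : 1 ≤ F (hat x) v0 ^ 2 := by
    have e : F (hat x) v0 = 2 * x 0 + x 1 - 7 := by rw [F_coord]; simp [v0]; ring
    have hn : ‖x‖ ^ 2 = x 0 ^ 2 + x 1 ^ 2 + x 2 ^ 2 := by
      rw [EuclideanSpace.norm_sq_eq]; simp [Fin.sum_univ_three]
    have hρ' : 0 < 7 - ‖x‖ ^ 2 := hρ
    rw [hn] at hρ'
    have h2 : 2 * x 0 + x 1 ≤ 6 := by
      nlinarith [sq_nonneg (x 0 - 2 * x 1), sq_nonneg (x 2), sq_nonneg (2 * x 0 + x 1)]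
    rw [e]
    nlinarith
  gcongr

/-- the congruence subgroup acts cocompactly on the ball -/
lemma Gam_cocompact : ∃ R : ℝ, 0 < R ∧ ∀ y ∈ U, ∃ A ∈ Gam, q v0 (act A y) ≤ R := by
  obtain ⟨S, hS, hSL, hS2⟩ := exists_finite_reps
  obtain ⟨R, hR⟩ := (hS.image (fun μ => (3 * ‖(μ v0).2‖ + 7 * |(μ v0).1|) ^ 2 / (7 / 36))).bddAbove
  refine ⟨max R 1, lt_max_of_lt_right one_pos, fun y hy => ?_⟩
  obtain ⟨A, hA, hAy⟩ := Lam_cocompact hy
  obtain ⟨μ, hμ, hμA⟩ := hS2 A hA
  refine ⟨μ⁻¹ * A, hμA, ?_⟩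
  have hz := act_mem hA hy
  have e1 : act (μ⁻¹ * A) y = act μ⁻¹ (act A y) := act_mul hA hy
  have e2 : q v0 (act μ⁻¹ (act A y)) = q (μ v0) (act A y) := by
    have := q_act (Lam.inv_mem (hSL hμ)) hz (μ v0)
    rw [inv_app_self] at this
    exact this
  rw [e1, e2]
  refine (q_le hz (μ v0) (by norm_num) hAy).trans ((hR ?_).trans (le_max_left _ _))
  exact ⟨μ, hμ, rfl⟩

/-- every point of the ball can be moved into the region, close to the base point -/
lemma move_to_X : ∃ R : ℝ, 0 < R ∧ ∀ y ∈ U, ∃ A ∈ G1, act A y ∈ X ∧ q v0 (act A y) ≤ R := by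
  obtain ⟨R, hR0, hR⟩ := Gam_cocompact
  refine ⟨R, hR0, fun y hy => ?_⟩
  obtain ⟨A, hA, hmin⟩ := exists_min isInt_v0 G1 (fun _ h => G1_Lam h) (Or.inl Gam.one_mem) hy
  have hz := act_mem (G1_Lam hA) hy
  refine ⟨A, hA, ⟨hz, fun b hb hneg => ?_⟩, ?_⟩
  · by_contra hcon
    push Not at hcon
    have h2 := q_refl_lt isFut_v0 hb.1 (Or.inl hb.2.1) (pos_BB hb) hz hneg hcon
    have h3 := hmin _ (G1_refl hb hA)
    rw [act_mul (G1_Lam hA) hy] at h3
    have h4 : sB b hb = refl b (pos_BB hb).ne' := rfl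
    rw [h4] at h3
    linarith
  · obtain ⟨B, hB, hB2⟩ := hR y hy
    exact (hmin B (Or.inl hB)).trans hB2

/-- the sign pattern is that of the base vector -/
def SameSide (w : V) : Prop := ∀ b ∈ BB, F v0 b < 0 ↔ F w b < 0

lemma G1_ne {A : V ≃L[ℝ] V} (hA : A ∈ G1) {b : V} (hb : b ∈ BB) : F (A v0) b ≠ 0 := by
  have h1 : F (A v0) b = F v0 (A⁻¹ b) := by
    rw [← inv_inv A, F_inv (Lam.inv_mem (G1_Lam hA)), inv_inv]
  rw [h1]
  intro h
  have := F_v0_ne (G1_BB (G1_inv hA) hb)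
  rw [h] at this
  norm_num at this

lemma sameSide_of_common {w : V} (hw : ∀ b ∈ BB, F w b ≠ 0) {y : E3} (h1 : y ∈ X)
    (h2 : y ∈ Reg w) {b : V} (hb : b ∈ BB) (hne : F (hat y) b ≠ 0) :
    F v0 b < 0 ↔ F w b < 0 := by
  have hv : F v0 b ≠ 0 := by
    intro h
    have := F_v0_ne hb
    rw [h] at this; norm_num at this
  constructor
  · intro h
    by_contra hcon
    have h3 : 0 < F w b := lt_of_le_of_ne (not_lt.mp hcon) (hw b hb).symm
    have h4 := Reg_pos h2 hb h3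
    have h5 := h1.2 b hb h
    exact hne (le_antisymm h5 h4)
  · intro h
    by_contra hcon
    have h3 : 0 < F v0 b := lt_of_le_of_ne (not_lt.mp hcon) hv.symm
    have h4 := Reg_pos h1 hb h3
    have h5 := h2.2 b hb h
    exact hne (le_antisymm h5 h4)

/-- an element of `G1` moving a point of `X` into `X` can be corrected to preserve `X` -/
lemma correct {A : V ≃L[ℝ] V} (hA : A ∈ G1) {y : E3} (hy : y ∈ X) (hAy : act A y ∈ X) :
    ∃ B ∈ G1, SameSide (B v0) ∧ act B y = act A y := by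
  have hL := G1_Lam hA
  have hyU : y ∈ U := hy.1
  set z := act A y with hz
  have hzA : z ∈ Reg (A v0) := act_Reg hL (fun b hb => G1_BB (G1_inv hA) hb) hy
  by_cases hcase : SameSide (A v0)
  · exact ⟨A, hA, hcase, rfl⟩
  · unfold SameSide at hcase
    push Not at hcase
    obtain ⟨b, hb, hb2⟩ := hcase
    have hzb : F (hat z) b = 0 := by
      by_contra hne
      have := sameSide_of_common (fun b hb => G1_ne hA hb) hAy hzA hb hne
      rcases hb2 with ⟨h1, h2⟩ | ⟨h1, h2⟩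
      · exact absurd (this.mp h1) (not_lt.mpr h2)
      · exact absurd (this.mpr h2) (not_lt.mpr h1)
    have hB : sB b hb * A ∈ G1 := G1_refl hb hA
    have hfix : act (sB b hb) z = z := by
      unfold act
      rw [sB_apply, hzb]
      simp [pt_hat]
    have hBz : act (sB b hb * A) y = z := by rw [act_mul hL hyU, ← hz, hfix]
    refine ⟨sB b hb * A, hB, ?_, hBz⟩
    have hzB : z ∈ Reg ((sB b hb * A) v0) := by
      have := act_Reg (G1_Lam hB) (fun c hc => G1_BB (G1_inv hB) hc) hy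
      rw [hBz] at this
      exact this
    have hBb : F ((sB b hb * A) v0) b = - F (A v0) b := by
      rw [mul_app, sB_apply, F_sub_left, F_smul_left, hb.2.1]; ring
    have hv : F v0 b ≠ 0 := by
      intro h
      have := F_v0_ne hb
      rw [h] at this; norm_num at this
    have hAb := G1_ne hA hb
    have main : F v0 b < 0 ↔ F ((sB b hb * A) v0) b < 0 := by
      rw [hBb]
      rcases hb2 with ⟨h1, h2⟩ | ⟨h1, h2⟩
      · have : 0 < F (A v0) b := lt_of_le_of_ne h2 hAb.symm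
        constructor
        · intro _; linarith
        · intro _; exact h1
      · have : 0 < F v0 b := lt_of_le_of_ne h1 hv.symm
        constructor
        · intro h3; linarith
        · intro h3; linarith
    intro c hc
    by_cases hzc : F (hat z) c = 0
    · rcases BB_unique hb hc (act_mem hL hyU) hzb hzc with rfl | rfl
      · exact main
      · rw [F_neg_right, F_neg_right]
        have hv' := hv
        have hB' := G1_ne hB hb
        constructor
        · intro h3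
          by_contra h4
          have h5 : F ((sB b hb * A) v0) b < 0 :=
            lt_of_le_of_ne (by linarith) hB'
          have := main.mpr h5
          linarith
        · intro h3
          by_contra h4
          have h5 : F v0 b < 0 := lt_of_le_of_ne (by linarith) hv'
          have := main.mp h5
          linarith
    · exact sameSide_of_common (fun b hb => G1_ne hB hb) hAy hzB hc hzc

lemma SameSide.preserves {A : V ≃L[ℝ] V} (hA : A ∈ Lam) (hAB : ∀ b ∈ BB, A⁻¹ b ∈ BB)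
    (h : SameSide (A v0)) {x : E3} (hx : x ∈ X) : act A x ∈ X := by
  have h1 := act_Reg hA hAB hx
  rw [← Reg_eq h] at h1
  exact h1

/-- the deck group: elements of the congruence subgroup preserving the region -/
noncomputable def Deck : Subgroup (V ≃L[ℝ] V) where
  carrier := {A | A ∈ Gam ∧ SameSide (A v0) ∧ SameSide (A⁻¹ v0)}
  mul_mem' := by
    rintro A B ⟨h1, h2, h3⟩ ⟨h4, h5, h6⟩
    have key : ∀ {A B : V ≃L[ℝ] V}, A ∈ Gam → SameSide (A v0) → SameSide (B v0) →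
        SameSide ((A * B) v0) := by
      intro A B hA h2 h5 b hb
      have hAinv : A⁻¹ ∈ Gam := Gam.inv_mem hA
      have e : F ((A * B) v0) b = F (B v0) (A⁻¹ b) := by
        rw [mul_app, ← inv_inv A, F_inv hAinv.1, inv_inv]
      have e2 : F (A v0) b = F v0 (A⁻¹ b) := by
        rw [← inv_inv A, F_inv hAinv.1, inv_inv]
      rw [e, ← h5 _ (Gam_BB hAinv hb), ← e2]
      exact h2 b hb
    refine ⟨Gam.mul_mem h1 h4, key h1 h2 h5, ?_⟩
    rw [mul_inv_rev]
    exact key (Gam.inv_mem h4) h6 h3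
  one_mem' := ⟨Gam.one_mem, fun _ _ => Iff.rfl, by rw [inv_one]; exact fun _ _ => Iff.rfl⟩
  inv_mem' := by
    rintro A ⟨h1, h2, h3⟩
    exact ⟨Gam.inv_mem h1, h3, by rw [inv_inv]; exact h2⟩

lemma SameSide.inv {A : V ≃L[ℝ] V} (hA : A ∈ Lam) (hAB : ∀ b ∈ BB, A b ∈ BB)
    (h : SameSide (A v0)) : SameSide (A⁻¹ v0) := by
  intro b hb
  have e : F (A⁻¹ v0) b = F v0 (A b) := F_inv hA _ _
  have e2 : F v0 b = F (A v0) (A b) := (hA.1.isom _ _).symm
  rw [e, e2]
  exact (h (A b) (hAB b hb)).symm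

lemma mem_Deck_of {A : V ≃L[ℝ] V} (hA : A ∈ Gam) (h : SameSide (A v0)) : A ∈ Deck :=
  ⟨hA, h, h.inv hA.1 (fun _ hb => Gam_BB hA hb)⟩

lemma Deck_act {A : V ≃L[ℝ] V} (hA : A ∈ Deck) {x : E3} (hx : x ∈ X) : act A x ∈ X :=
  hA.2.1.preserves hA.1.1 (fun _ hb => Gam_BB (Gam.inv_mem hA.1) hb) hx

/-- the deck group acts cocompactly on the region -/
lemma Deck_cocompact : ∃ δ : ℝ, 0 < δ ∧ ∀ y ∈ X, ∃ A ∈ Deck, δ ≤ rho (act A y) := by
  obtain ⟨R, hR0, hR⟩ := move_to_X
  have hρR : ∀ z ∈ U, q v0 z ≤ R → 1 / R ≤ rho z := by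
    intro z hz hq
    have h1 := (q_v0_ge hz).trans hq
    have hρ := mem_U.mp hz
    rw [div_le_iff₀ hρ] at h1
    rw [div_le_iff₀ hR0]
    linarith
  have hR1 : 0 < 1 / R := by positivity
  by_cases hex : ∃ σ ∈ G1, s0 * σ ∈ Gam ∧ SameSide (σ v0)
  · obtain ⟨σ, hσ, hσ2, hσ3⟩ := hex
    have hσL := G1_Lam hσ
    -- bound for `q v0 (act σ⁻¹ z)`
    set R' : ℝ := (3 * ‖(σ v0).2‖ + 7 * |(σ v0).1|) ^ 2 / (1 / R) with hR'
    have hq' : ∀ z ∈ U, 1 / R ≤ rho z → q v0 (act σ⁻¹ z) ≤ R' := by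
      intro z hz hq
      have e2 : q v0 (act σ⁻¹ z) = q (σ v0) z := by
        have := q_act (Lam.inv_mem hσL) hz (σ v0)
        rw [inv_app_self] at this
        exact this
      rw [e2]
      exact q_le hz _ hR1 hq
    have hR'pos : 0 < max R R' := lt_max_of_lt_left hR0
    refine ⟨1 / max R R', by positivity, fun y hy => ?_⟩
    obtain ⟨A, hA, hAX, hAq⟩ := hR y hy.1
    obtain ⟨B, hB, hBs, hBy⟩ := correct hA hy hAX
    have hfinal : ∀ z ∈ U, q v0 z ≤ max R R' → 1 / max R R' ≤ rho z := by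
      intro z hz hq
      have h1 := (q_v0_ge hz).trans hq
      have hρ := mem_U.mp hz
      rw [div_le_iff₀ hρ] at h1
      rw [div_le_iff₀ hR'pos]
      linarith
    have hzU : act B y ∈ U := act_mem (G1_Lam hB) hy.1
    rcases hB with hBG | hBG
    · refine ⟨B, mem_Deck_of hBG hBs, hfinal _ hzU ?_⟩
      rw [hBy]; exact hAq.trans (le_max_left _ _)
    · have hBL : B ∈ Lam := G1_Lam (Or.inr hBG)
      have hmem : σ⁻¹ * B ∈ Gam := by
        have e : σ⁻¹ * B = (s0 * σ)⁻¹ * (s0 * B) := by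
          rw [mul_inv_rev, mul_assoc, inv_mul_cancel_left]
        rw [e]
        exact Gam.mul_mem (Gam.inv_mem hσ2) hBG
      have hside : SameSide ((σ⁻¹ * B) v0) := by
        intro b hb
        have hσb : σ b ∈ BB := G1_BB hσ hb
        have e1 : F ((σ⁻¹ * B) v0) b = F (B v0) (σ b) := by rw [mul_app, F_inv hσL]
        rw [e1, ← hBs _ hσb, hσ3 _ hσb, hσL.1.isom]
      refine ⟨σ⁻¹ * B, mem_Deck_of hmem hside, ?_⟩
      have e2 : act (σ⁻¹ * B) y = act σ⁻¹ (act B y) := act_mul hBL hy.1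
      rw [e2]
      apply hfinal _ (act_mem (Lam.inv_mem hσL) hzU)
      refine (hq' _ hzU ?_).trans (le_max_right _ _)
      apply hρR _ hzU
      rw [hBy]; exact hAq
  · push Not at hex
    refine ⟨1 / R, hR1, fun y hy => ?_⟩
    obtain ⟨A, hA, hAX, hAq⟩ := hR y hy.1
    obtain ⟨B, hB, hBs, hBy⟩ := correct hA hy hAX
    have hzU : act B y ∈ U := act_mem (G1_Lam hB) hy.1
    rcases hB with hBG | hBG
    · refine ⟨B, mem_Deck_of hBG hBs, hρR _ hzU ?_⟩
      rw [hBy]; exact hAq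
    · exact absurd hBs (hex B (Or.inr hBG) hBG)

end Pool.Agent.H62.NegCurv
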