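import Pool.Agent.H62.NegCurv.Finite

/-!
# The family of walls
-/

open scoped RealInnerProductSpace ContDiff

namespace Pool.Agent.H62.NegCurv

/-- the form is anisotropic over the integers -/
lemma aniso_int : ∀ (N : ℕ) (n m k l : ℤ), n.natAbs ≤ N → m ^ 2 + k ^ 2 + l ^ 2 = 7 * n ^ 2 →
    n = 0 := by
  intro N
  induction N with
  | zero =>
    intro n m k l hn _
    omega
  | succ N ih =>
    intro n m k l hn h
    by_contra hne
    have hsq : ∀ x : ℤ, x ^ 2 % 8 = 0 ∨ x ^ 2 % 8 = 1 ∨ x ^ 2 % 8 = 4 := by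
      intro x
      have hx : x % 8 = 0 ∨ x % 8 = 1 ∨ x % 8 = 2 ∨ x % 8 = 3 ∨ x % 8 = 4 ∨ x % 8 = 5 ∨
        x % 8 = 6 ∨ x % 8 = 7 := by omega
      rcases hx with h | h | h | h | h | h | h | h <;> simp [pow_two, Int.mul_emod, h]
    have hodd : ∀ x : ℤ, x % 2 = 1 → x ^ 2 % 8 = 1 := by
      intro x hx
      have hx : x % 8 = 1 ∨ x % 8 = 3 ∨ x % 8 = 5 ∨ x % 8 = 7 := by omega
      rcases hx with h | h | h | h <;> simp [pow_two, Int.mul_emod, h]
    have heven : ∀ x : ℤ, x % 2 = 0 → x ^ 2 % 4 = 0 := by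
      intro x hx
      obtain ⟨y, rfl⟩ : ∃ y, x = 2 * y := ⟨x / 2, by omega⟩
      have : (2 * y) ^ 2 = 4 * y ^ 2 := by ring
      omega
    have hn2 : n % 2 = 0 := by
      by_contra h1
      have h2 := hodd n (by omega)
      rcases hsq m with hm | hm | hm <;> rcases hsq k with hk | hk | hk <;>
        rcases hsq l with hl | hl | hl <;> omega
    have hn4 := heven n hn2
    have hall : m % 2 = 0 ∧ k % 2 = 0 ∧ l % 2 = 0 := by
      have hm : m ^ 2 % 4 = m % 2 := by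
        rcases (by omega : m % 2 = 0 ∨ m % 2 = 1) with h1 | h1
        · rw [heven m h1, h1]
        · have := hodd m h1; omega
      have hk : k ^ 2 % 4 = k % 2 := by
        rcases (by omega : k % 2 = 0 ∨ k % 2 = 1) with h1 | h1
        · rw [heven k h1, h1]
        · have := hodd k h1; omega
      have hl : l ^ 2 % 4 = l % 2 := by
        rcases (by omega : l % 2 = 0 ∨ l % 2 = 1) with h1 | h1
        · rw [heven l h1, h1]
        · have := hodd l h1; omega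
      omega
    obtain ⟨n', rfl⟩ : ∃ y, n = 2 * y := ⟨n / 2, by omega⟩
    obtain ⟨m', rfl⟩ : ∃ y, m = 2 * y := ⟨m / 2, by omega⟩
    obtain ⟨k', rfl⟩ : ∃ y, k = 2 * y := ⟨k / 2, by omega⟩
    obtain ⟨l', rfl⟩ : ∃ y, l = 2 * y := ⟨l / 2, by omega⟩
    have h5 : m' ^ 2 + k' ^ 2 + l' ^ 2 = 7 * n' ^ 2 := by nlinarith
    have h6 : n' = 0 := ih n' m' k' l' (by omega) h5
    apply hne; rw [h6]; rfl

lemma aniso {a : V} (ha : IsInt a) (h : F a a = 0) : a = 0 := by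
  obtain ⟨n, m, k, l, rfl⟩ := ha.exists_vec
  rw [F_coord] at h
  simp only [vec_fst, vec_snd_0, vec_snd_1, vec_snd_2] at h
  have h1 : m ^ 2 + k ^ 2 + l ^ 2 = 7 * n ^ 2 := by
    have : (m : ℝ) ^ 2 + k ^ 2 + l ^ 2 = 7 * n ^ 2 := by linarith
    exact_mod_cast this
  have hn : n = 0 := aniso_int _ n m k l le_rfl h1
  subst hn
  have hm : m = 0 := by nlinarith [sq_nonneg m, sq_nonneg k, sq_nonneg l]
  have hk : k = 0 := by nlinarith [sq_nonneg m, sq_nonneg k, sq_nonneg l]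
  have hl : l = 0 := by nlinarith [sq_nonneg m, sq_nonneg k, sq_nonneg l]
  subst hm hk hl
  apply ext_coord <;> simp

/-- the basic wall vector -/
noncomputable def b0 : V := vec 0 1 0 0

lemma isInt_b0 : IsInt b0 := by simpa [bvec, b0] using isInt_bvec 1

lemma F_b0 : F b0 b0 = 1 := by rw [F_coord]; simp [b0]

/-- the set of wall vectors -/
def BB : Set V := {b | IsInt b ∧ F b b = 1 ∧ (Cong b b0 ∨ Cong b (-b0))}

lemma BB_neg {b : V} (h : b ∈ BB) : -b ∈ BB := by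
  obtain ⟨h1, h2, h3⟩ := h
  refine ⟨h1.neg, by rw [F_neg_left, F_neg_right, neg_neg, h2], ?_⟩
  rcases h3 with h3 | h3
  · exact Or.inr h3.neg
  · exact Or.inl (by simpa using h3.neg)

/-- a wall vector is a sign times `b0` modulo 8 -/
lemma BB_sign {b : V} (h : b ∈ BB) : ∃ σ : ℤ, (σ = 1 ∨ σ = -1) ∧ Cong b ((σ : ℝ) • b0) := by
  rcases h.2.2 with h3 | h3
  · exact ⟨1, Or.inl rfl, by simpa using h3⟩
  · exact ⟨-1, Or.inr rfl, by simpa using h3⟩

/-- products of wall vectors with integral vectors modulo 8 -/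
lemma BB_F {b : V} {σ : ℤ} (h : Cong b ((σ : ℝ) • b0)) {a : V} (ha : IsInt a) :
    ∃ k : ℤ, F a b = σ * F a b0 + 8 * k := by
  obtain ⟨k, hk⟩ := h.F_cong ha
  exact ⟨k, by rw [F_comm, hk, F_smul_left, F_comm b0]⟩

/-- two distinct walls are disjoint -/
lemma BB_disj {b c : V} (hb : b ∈ BB) (hc : c ∈ BB) (h1 : c ≠ b) (h2 : c ≠ -b) :
    1 < |F b c| := by
  by_contra hcon
  push Not at hcon
  obtain ⟨σ, hσ, hbσ⟩ := BB_sign hb
  obtain ⟨τ, hτ, hcτ⟩ := BB_sign hc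
  obtain ⟨k, hk⟩ := BB_F hcτ hb.1
  obtain ⟨l, hl⟩ := BB_F hbσ isInt_b0
  rw [F_comm b b0, hl, F_b0] at hk
  obtain ⟨m, hm⟩ := hb.1.F_int hc.1
  have hmk : m = τ * (σ * 1 + 8 * l) + 8 * k := by
    have : (m : ℝ) = τ * (σ * 1 + 8 * l) + 8 * k := by rw [← hm, hk]
    exact_mod_cast this
  have hmabs : |m| ≤ 1 := by
    rw [hm] at hcon
    exact_mod_cast hcon
  have hm1 : m = 1 ∨ m = -1 := by
    rw [abs_le] at hmabs
    rcases hσ with rfl | rfl <;> rcases hτ with rfl | rfl <;> omega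
  rcases hm1 with rfl | rfl
  · have h3 : F (b - c) (b - c) = 0 := by
      simp only [F_sub_left, F_sub_right, F_comm c b, hm, hb.2.1, hc.2.1]
      norm_num
    have h4 := aniso (hb.1.sub hc.1) h3
    exact h1 (sub_eq_zero.mp h4).symm
  · have h3 : F (b + c) (b + c) = 0 := by
      simp only [F_add_left, F_add_right, F_comm c b, hm, hb.2.1, hc.2.1]
      norm_num
    have h4 := aniso (hb.1.add hc.1) h3
    exact h2 (eq_neg_of_add_eq_zero_right h4)

/-- at most one wall passes through a point of the ball -/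
lemma BB_unique {b c : V} (hb : b ∈ BB) (hc : c ∈ BB) {x : E3} (hx : x ∈ U)
    (h1 : F (hat x) b = 0) (h2 : F (hat x) c = 0) : c = b ∨ c = -b := by
  by_contra hcon
  push Not at hcon
  have h3 := BB_disj hb hc hcon.1 hcon.2
  have h4 := mf_cs (F_hat_neg hx) b c
  unfold mf at h4
  rw [F_comm b (hat x), F_comm c (hat x), h1, h2, hb.2.1, hc.2.1] at h4
  simp only [mul_zero, zero_div, sub_zero, mul_one] at h4
  have h5 : |F b c| ≤ 1 := abs_le_one_iff_mul_self_le_one.mpr (by nlinarith)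
  linarith

/-- reflections in wall vectors -/
lemma pos_BB {b : V} (hb : b ∈ BB) : 0 < F b b := by rw [hb.2.1]; norm_num

noncomputable def sB (b : V) (hb : b ∈ BB) : V ≃L[ℝ] V := refl b (pos_BB hb).ne'

lemma b0_mem : b0 ∈ BB := ⟨isInt_b0, F_b0, Or.inl (Cong.refl _)⟩

noncomputable def s0 : V ≃L[ℝ] V := sB b0 b0_mem

lemma sB_apply {b : V} (hb : b ∈ BB) (a : V) : sB b hb a = a - (2 * F a b) • b := by
  unfold sB; rw [refl_apply, hb.2.1, div_one]

lemma sB_mem {b : V} (hb : b ∈ BB) : sB b hb ∈ Lam :=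
  refl_mem_Lam hb.1 (Or.inl hb.2.1) (pos_BB hb)

lemma sB_inv {b : V} (hb : b ∈ BB) : (sB b hb)⁻¹ = sB b hb := refl_inv _ _

lemma sB_sq {b : V} (hb : b ∈ BB) : sB b hb * sB b hb = 1 := by
  conv_lhs => rw [← sB_inv hb]
  rw [sB_inv hb]
  conv_lhs =>
    lhs
    rw [← sB_inv hb]
  exact inv_mul_cancel _

lemma sB_cong {b : V} (hb : b ∈ BB) {a : V} (ha : IsInt a) : Cong (sB b hb a) (s0 a) := by
  unfold s0
  rw [sB_apply, sB_apply]
  obtain ⟨σ, hσ, hbσ⟩ := BB_sign hb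
  obtain ⟨k, hk⟩ := BB_F hbσ ha
  obtain ⟨c, hc, hbc⟩ := hbσ
  obtain ⟨m, hm⟩ := ha.F_int isInt_b0
  have hb' : b = (σ : ℝ) • b0 + (8 : ℝ) • c := by rw [← hbc]; abel
  have hσ2 : (σ : ℝ) * σ = 1 := by rcases hσ with rfl | rfl <;> norm_num
  refine ⟨((-(2 * (σ * m + 8 * k)) : ℤ) : ℝ) • c + ((-(2 * k * σ) : ℤ) : ℝ) • b0,
    (hc.zsmul _).add (isInt_b0.zsmul _), ?_⟩
  rw [hk, hm]
  conv_lhs => rw [hb']
  push_cast
  have e : (2 * (σ * (m : ℝ) + 8 * k)) • ((σ : ℝ) • b0) =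
      (2 * (m : ℝ)) • b0 + (16 * k * σ : ℝ) • b0 := by
    rw [smul_smul, ← add_smul]
    congr 1
    linear_combination (2 * (m : ℝ)) * hσ2
  rw [smul_add, e]
  module

lemma sB_mul_s0 {b : V} (hb : b ∈ BB) : sB b hb * s0 ∈ Gam := by
  refine ⟨Lam.mul_mem (sB_mem hb) (sB_mem b0_mem), fun a ha => ?_⟩
  have h1 := sB_cong hb ((sB_mem b0_mem).1.int a ha)
  rw [mul_app]
  have h2 : s0 (s0 a) = a := by
    have := congrArg (fun (A : V ≃L[ℝ] V) => A a) (sB_sq b0_mem)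
    exact this
  have h3 : Cong (sB b hb (s0 a)) (s0 (s0 a)) := h1
  rw [h2] at h3
  exact h3

lemma s0_sq : s0 * s0 = 1 := sB_sq b0_mem

lemma s0_inv : s0⁻¹ = s0 := sB_inv b0_mem

lemma s0_mul_sB {b : V} (hb : b ∈ BB) : s0 * sB b hb ∈ Gam := by
  have h := Gam.inv_mem (sB_mul_s0 hb)
  rw [mul_inv_rev, s0_inv, sB_inv] at h
  exact h

/-- elements congruent to `1` or to the basic reflection -/
def G1 : Set (V ≃L[ℝ] V) := {A | A ∈ Gam ∨ s0 * A ∈ Gam}

lemma G1_Lam {A : V ≃L[ℝ] V} (hA : A ∈ G1) : A ∈ Lam := by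
  rcases hA with h | h
  · exact h.1
  · have h2 : A = s0 * (s0 * A) := by rw [← mul_assoc, s0_sq, one_mul]
    rw [h2]
    exact Lam.mul_mem (sB_mem b0_mem) h.1

lemma G1_refl {b : V} (hb : b ∈ BB) {A : V ≃L[ℝ] V} (hA : A ∈ G1) : sB b hb * A ∈ G1 := by
  rcases hA with h | h
  · right
    rw [← mul_assoc]
    exact Gam.mul_mem (s0_mul_sB hb) h
  · left
    have h2 : sB b hb * A = (sB b hb * s0) * (s0 * A) := by
      rw [mul_assoc, ← mul_assoc s0, s0_sq, one_mul]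
    rw [h2]
    exact Gam.mul_mem (sB_mul_s0 hb) h

lemma Gam_BB {A : V ≃L[ℝ] V} (hA : A ∈ Gam) {b : V} (hb : b ∈ BB) : A b ∈ BB := by
  obtain ⟨h1, h2, h3⟩ := hb
  refine ⟨hA.1.1.int b h1, by rw [hA.1.1.isom, h2], ?_⟩
  rcases h3 with h3 | h3
  · exact Or.inl ((hA.2 b h1).trans h3)
  · exact Or.inr ((hA.2 b h1).trans h3)

lemma s0_BB {b : V} (hb : b ∈ BB) : s0 b ∈ BB := by
  obtain ⟨h1, h2, h3⟩ := hb
  have hs := sB_mem b0_mem
  refine ⟨hs.1.int b h1, by rw [s0, hs.1.isom, h2], ?_⟩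
  have e : s0 b0 = -b0 := by
    unfold s0; rw [sB_apply, F_b0]; module
  rcases h3 with h3 | h3
  · right
    have := hs.1.cong h3
    rw [← e]; exact this
  · left
    have := hs.1.cong h3
    have e2 : s0 (-b0) = b0 := by rw [map_neg, e, neg_neg]
    rw [← e2]; exact this

lemma G1_BB {A : V ≃L[ℝ] V} (hA : A ∈ G1) {b : V} (hb : b ∈ BB) : A b ∈ BB := by
  rcases hA with h | h
  · exact Gam_BB h hb
  · have h2 : A = s0 * (s0 * A) := by rw [← mul_assoc, s0_sq, one_mul]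
    rw [h2, mul_app]
    exact s0_BB (Gam_BB h hb)

lemma G1_inv {A : V ≃L[ℝ] V} (hA : A ∈ G1) : A⁻¹ ∈ G1 := by
  rcases hA with h | h
  · exact Or.inl (Gam.inv_mem h)
  · right
    -- s0 * A⁻¹ = s0 * (s0 A)⁻¹ * s0, conjugate of an element of Gam
    have h2 : s0 * A⁻¹ = s0 * (s0 * A)⁻¹ * s0 := by
      rw [mul_inv_rev, s0_inv, mul_assoc, mul_assoc, s0_sq, mul_one]
    rw [h2]
    have h3 := Gam.inv_mem h
    refine ⟨Lam.mul_mem (Lam.mul_mem (sB_mem b0_mem) h3.1) (sB_mem b0_mem), fun a ha => ?_⟩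
    have hs := sB_mem b0_mem
    rw [mul_app, mul_app]
    have h4 := h3.2 (s0 a) (hs.1.int a ha)
    have h5 := hs.1.cong h4
    have h6 : s0 (s0 a) = a := by
      have := congrArg (fun (A : V ≃L[ℝ] V) => A a) s0_sq
      exact this
    have h7 : Cong (s0 ((s0 * A)⁻¹ (s0 a))) (s0 (s0 a)) := h5
    rw [h6] at h7
    exact h7

end Pool.Agent.H62.NegCurv
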